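import Mathlib

/-!
# The extension of a homomorphism `Dˣ → ℤ` to `GL_n(D)`

For a division ring `D` and `w : D → ℤ` with `w (x y) = w x + w y` for nonzero `x`, `y` we
construct, following Dieudonné and Artin, the composition `wdet w` of the Dieudonné determinant
with `w`, by a recursion on the size.
-/

set_option autoImplicit false

namespace Pool.Agent.Y352.SP

open Finset
open scoped Classical

/-- The recursion of Artin and Dieudonné. -/
noncomputable def wdet {D : Type} [DivisionRing D] (w : D → ℤ) :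
    (n : ℕ) → (ι : Type) → [Fintype ι] → (ι → Fin n → D) → ℤ
  | 0, _, _, _ => 0
  | n + 1, ι, _, A =>
      if h : ∃ p : ι × (ι → D), (∑ k, p.2 k • A k = Pi.single 0 1) ∧ p.2 p.1 ≠ 0 then
        - w (h.choose.2 h.choose.1) +
          wdet w n {k : ι // k ≠ h.choose.1} (fun k j => A k.1 j.succ)
      else 0

/-- Replace the `k`-th member of a family. -/
noncomputable def upd {ι β : Type} (A : ι → β) (k : ι) (v : β) : ι → β :=
  fun j => if j = k then v else A j

theorem upd_self {ι β : Type} (A : ι → β) (k : ι) (v : β) : upd A k v k = v := by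
  simp [upd]

theorem upd_of_ne {ι β : Type} {j k : ι} (h : j ≠ k) (A : ι → β) (v : β) : upd A k v j = A j := by
  simp [upd, h]

section
variable {D : Type} [DivisionRing D]

theorem li_coeff {n : ℕ} {ι : Type} [Fintype ι] {A : ι → Fin n → D} (hA : LinearIndependent D A)
    (hc : Fintype.card ι = n) (v : Fin n → D) : ∃ l : ι → D, ∑ k, l k • A k = v := by
  have h1 : Submodule.span D (Set.range A) = ⊤ := by
    rcases isEmpty_or_nonempty ι with he | he
    · have h0 : n = 0 := by rw [← hc]; exact Fintype.card_eq_zero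
      subst h0
      exact Subsingleton.elim _ _
    · exact hA.span_eq_top_of_card_eq_finrank (by rw [hc]; simp)
  have h2 : v ∈ Submodule.span D (Set.range A) := by rw [h1]; trivial
  exact (Submodule.mem_span_range_iff_exists_fun D).1 h2

theorem li_uniq {n : ℕ} {ι : Type} [Fintype ι] {A : ι → Fin n → D} (hA : LinearIndependent D A)
    {l m : ι → D} (h : ∑ k, l k • A k = ∑ k, m k • A k) : l = m := by
  rw [Fintype.linearIndependent_iff] at hA
  funext i
  have h1 := hA (fun k => l k - m k) (by
    simp only [sub_smul, Finset.sum_sub_distrib]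
    rw [h, sub_self]) i
  exact sub_eq_zero.1 h1

theorem li_restrict {n : ℕ} {ι : Type} [Fintype ι] {A : ι → Fin (n + 1) → D}
    (hA : LinearIndependent D A) {l : ι → D} (hl : ∑ k, l k • A k = Pi.single 0 1) {i : ι}
    (hi : l i ≠ 0) :
    LinearIndependent D (fun (k : {k : ι // k ≠ i}) (j : Fin n) => A k.1 j.succ) := by
  rw [Fintype.linearIndependent_iff]
  intro c hc
  let c' : ι → D := fun k => if h : k ≠ i then c ⟨k, h⟩ else 0
  have hc'i : c' i = 0 := by simp [c']
  have hc'k : ∀ k : {k : ι // k ≠ i}, c' k.1 = c k := fun k => by simp [c', k.2]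
  have hsum : ∑ k, c' k • A k = (∑ k, c' k * A k 0) • (Pi.single 0 1 : Fin (n + 1) → D) := by
    ext j
    refine Fin.cases ?_ (fun j => ?_) j
    · simp
    · have h1 := congrFun hc j
      rw [Fintype.sum_eq_add_sum_subtype_ne _ i, hc'i, zero_smul, zero_add]
      simp only [hc'k]
      rw [Finset.sum_apply] at h1 ⊢
      simpa using h1
  have h2 : ∑ k, c' k • A k = ∑ k, ((∑ k, c' k * A k 0) * l k) • A k := by
    rw [hsum, ← hl, Finset.smul_sum]
    simp only [smul_smul]
  have h3 := li_uniq hA h2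
  have h4 := congrFun h3 i
  rw [hc'i] at h4
  have h5 : (∑ k, c' k * A k 0) = 0 := by
    rcases mul_eq_zero.1 h4.symm with h | h
    · exact h
    · exact absurd h hi
  intro k
  rw [← hc'k k, congrFun h3 k.1, h5, zero_mul]

theorem li_update {n : ℕ} {ι : Type} [Fintype ι] {A : ι → Fin n → D}
    (hA : LinearIndependent D A) (k : ι) (c : ι → D) (hk : c k ≠ 0) :
    LinearIndependent D (upd A k (∑ j, c j • A j)) := by
  rw [Fintype.linearIndependent_iff]
  intro g hg
  have h1 : ∑ j, (g k * c j + if j = k then 0 else g j) • A j = 0 := by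
    rw [← hg]
    simp only [add_smul, Finset.sum_add_distrib]
    rw [Fintype.sum_eq_add_sum_subtype_ne (fun j => g j • upd A k (∑ j, c j • A j) j) k,
      Fintype.sum_eq_add_sum_subtype_ne (fun j => (if j = k then (0 : D) else g j) • A j) k,
      upd_self, Finset.smul_sum]
    simp only [smul_smul, if_true, zero_smul, zero_add]
    congr 1
    refine Finset.sum_congr rfl fun j _ => ?_
    rw [if_neg j.2, upd_of_ne j.2]
  have h2 := Fintype.linearIndependent_iff.1 hA _ h1
  have h3 := h2 k
  rw [if_pos rfl, add_zero] at h3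
  have h4 : g k = 0 := by
    rcases mul_eq_zero.1 h3 with h | h
    · exact h
    · exact absurd h hk
  intro j
  by_cases hj : j = k
  · rw [hj]; exact h4
  · have h5 := h2 j
    rwa [h4, zero_mul, zero_add, if_neg hj] at h5

/-- Invariance under reindexing. -/
def P3 (w : D → ℤ) (n : ℕ) : Prop :=
  ∀ (ι ι' : Type) [Fintype ι] [Fintype ι'] (e : ι ≃ ι') (A : ι' → Fin n → D),
    LinearIndependent D A → Fintype.card ι' = n →
      wdet w n ι (fun i => A (e i)) = wdet w n ι' A

/-- Row operations. -/
def P4 (w : D → ℤ) (n : ℕ) : Prop :=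
  ∀ (ι : Type) [Fintype ι] (A : ι → Fin n → D) (k : ι) (c : ι → D),
    LinearIndependent D A → Fintype.card ι = n → c k ≠ 0 →
      wdet w n ι (upd A k (∑ j, c j • A j)) = w (c k) + wdet w n ι A

/-- Independence of choices. -/
def PC (w : D → ℤ) (n : ℕ) : Prop :=
  ∀ (ι : Type) [Fintype ι] (A : ι → Fin (n + 1) → D) (l : ι → D) (i : ι),
    LinearIndependent D A → Fintype.card ι = n + 1 → (∑ k, l k • A k = Pi.single 0 1) →
      l i ≠ 0 → wdet w (n + 1) ι A =
        - w (l i) + wdet w n {k : ι // k ≠ i} (fun k j => A k.1 j.succ)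

variable {w : D → ℤ} (hw : ∀ x y : D, x ≠ 0 → y ≠ 0 → w (x * y) = w x + w y)
include hw

theorem w_one : w 1 = 0 := by
  have := hw 1 1 one_ne_zero one_ne_zero
  rw [mul_one] at this
  linarith

theorem w_inv (x : D) (hx : x ≠ 0) : w x⁻¹ = - w x := by
  have := hw x x⁻¹ hx (inv_ne_zero hx)
  rw [mul_inv_cancel₀ hx, w_one hw] at this
  linarith

theorem w_neg (x : D) : w (-x) = w x := by
  have h0 : w (-1) = 0 := by
    have := hw (-1) (-1) (neg_ne_zero.2 one_ne_zero) (neg_ne_zero.2 one_ne_zero)
    rw [neg_mul_neg, mul_one, w_one hw] at this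
    linarith
  by_cases hx : x = 0
  · rw [hx, neg_zero]
  · have := hw (-1) x (neg_ne_zero.2 one_ne_zero) hx
    rw [neg_one_mul, h0, zero_add] at this
    exact this

omit hw in
theorem card_ne {n : ℕ} {ι : Type} [Fintype ι] (hc : Fintype.card ι = n + 1) (i : ι) :
    Fintype.card {k : ι // k ≠ i} = n := by
  rw [Fintype.card_subtype_compl, hc]
  simp

theorem indep_choice {n : ℕ} (h3 : P3 w n) (h4 : P4 w n) {ι : Type} [Fintype ι]
    {A : ι → Fin (n + 1) → D} (hA : LinearIndependent D A) (hc : Fintype.card ι = n + 1)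
    {l : ι → D} (hl : ∑ k, l k • A k = Pi.single 0 1) {i j : ι} (hi : l i ≠ 0) (hj : l j ≠ 0) :
    - w (l i) + wdet w n {k : ι // k ≠ i} (fun k j => A k.1 j.succ) =
      - w (l j) + wdet w n {k : ι // k ≠ j} (fun k j => A k.1 j.succ) := by
  by_cases hij : i = j
  · subst hij; rfl
  have hlt : ∀ t : Fin n, ∑ k, l k * A k t.succ = 0 := by
    intro t
    have := congrFun hl t.succ
    rw [Finset.sum_apply] at this
    simpa using this
  let e : {k : ι // k ≠ i} ≃ {k : ι // k ≠ j} :=
    (Equiv.swap i j).subtypeEquiv (fun k => by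
      constructor
      · intro h h'
        apply h
        have := congrArg (Equiv.swap i j) h'
        rwa [Equiv.swap_apply_self, Equiv.swap_apply_right] at this
      · intro h h'
        apply h
        rw [h', Equiv.swap_apply_left])
  have hB := li_restrict hA hl hi
  have hB' := li_restrict hA hl hj
  have h3' := h3 _ _ e _ hB' (card_ne hc j)
  rw [← h3']
  have hji : j ≠ i := fun h => hij h.symm
  have h4' := h4 {k : ι // k ≠ i} (fun k t => A k.1 t.succ) ⟨j, hji⟩
    (fun k => -(l i)⁻¹ * l k.1) hB (card_ne hc i)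
    (mul_ne_zero (neg_ne_zero.2 (inv_ne_zero hi)) hj)
  have key : wdet w n {k : ι // k ≠ i} (fun k t => A (e k).1 t.succ) =
      w (-(l i)⁻¹ * l j) + wdet w n {k : ι // k ≠ i} (fun k t => A k.1 t.succ) := by
    rw [← h4']
    congr 1
    funext k
    by_cases hk : k = ⟨j, hji⟩
    · subst hk
      rw [upd_self]
      funext t
      have h5 := hlt t
      rw [Fintype.sum_eq_add_sum_subtype_ne _ i] at h5
      have h6 : (e ⟨j, hji⟩).1 = i := Equiv.swap_apply_right i j
      rw [h6, Finset.sum_apply]
      simp only [Pi.smul_apply, smul_eq_mul, mul_assoc]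
      rw [← Finset.mul_sum, eq_neg_of_add_eq_zero_right h5, neg_mul_neg, ← mul_assoc,
        inv_mul_cancel₀ hi, one_mul]
    · rw [upd_of_ne hk]
      have h6 : (e k).1 = k.1 := by
        apply Equiv.swap_apply_of_ne_of_ne k.2
        intro h
        apply hk
        exact Subtype.ext h
      rw [h6]
  rw [key]
  rw [neg_mul, w_neg hw, hw _ _ (inv_ne_zero hi) hj, w_inv hw _ hi]
  ring

theorem pc_of {n : ℕ} (h3 : P3 w n) (h4 : P4 w n) : PC w n := by
  intro ι _ A l i hA hc hl hi
  have hex : ∃ p : ι × (ι → D), (∑ k, p.2 k • A k = Pi.single 0 1) ∧ p.2 p.1 ≠ 0 :=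
    ⟨(i, l), hl, hi⟩
  rw [wdet, dif_pos hex]
  have h1 := hex.choose_spec
  have h2 : hex.choose.2 = l := li_uniq hA (by rw [h1.1, hl])
  have h5 : l hex.choose.1 ≠ 0 := by rw [← h2]; exact h1.2
  rw [h2]
  exact indep_choice hw h3 h4 hA hc hl h5 hi

theorem p3_succ {n : ℕ} (h3 : P3 w n) (h4 : P4 w n) : P3 w (n + 1) := by
  intro ι ι' _ _ e A hA hc
  have hc' : Fintype.card ι = n + 1 := by rw [Fintype.card_congr e, hc]
  obtain ⟨l, hl⟩ := li_coeff hA hc (Pi.single 0 1)
  have hA' : LinearIndependent D (fun i => A (e i)) := hA.comp _ e.injective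
  have hl' : ∑ k, l (e k) • A (e k) = Pi.single 0 1 := by
    rw [← hl]
    exact Equiv.sum_comp e (fun k => l k • A k)
  obtain ⟨i, hi⟩ : ∃ i, l (e i) ≠ 0 := by
    by_contra hcon
    push Not at hcon
    have : (Pi.single 0 1 : Fin (n + 1) → D) = 0 := by
      rw [← hl']
      exact Finset.sum_eq_zero fun k _ => by rw [hcon k, zero_smul]
    have := congrFun this 0
    simp at this
  have pc := pc_of hw h3 h4
  rw [pc ι (fun i => A (e i)) (fun k => l (e k)) i hA' hc' hl' hi,
    pc ι' A l (e i) hA hc hl hi]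
  congr 1
  let e' : {k : ι // k ≠ i} ≃ {k : ι' // k ≠ e i} :=
    e.subtypeEquiv (fun k => by simp)
  exact h3 _ _ e' (fun k t => A k.1 t.succ) (li_restrict hA hl hi) (card_ne hc _)

theorem p4_succ {n : ℕ} (h3 : P3 w n) (h4 : P4 w n) : P4 w (n + 1) := by
  intro ι _ A k c hA hc hk
  have pc := pc_of hw h3 h4
  have hA' := li_update hA k c hk
  obtain ⟨l, hl⟩ := li_coeff hA hc (Pi.single 0 1)
  let l' : ι → D := fun j => if j = k then l k * (c k)⁻¹ else l j - l k * (c k)⁻¹ * c j
  have hl' : ∑ j, l' j • (upd A k (∑ j, c j • A j)) j = Pi.single 0 1 := by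
    rw [← hl, Fintype.sum_eq_add_sum_subtype_ne _ k, upd_self,
      Fintype.sum_eq_add_sum_subtype_ne (fun j => c j • A j) k,
      Fintype.sum_eq_add_sum_subtype_ne (fun j => l j • A j) k]
    have e1 : l' k = l k * (c k)⁻¹ := by simp [l']
    rw [e1, smul_add, smul_smul, mul_assoc, inv_mul_cancel₀ hk, mul_one, add_assoc, Finset.smul_sum,
      ← Finset.sum_add_distrib]
    congr 1
    refine Finset.sum_congr rfl fun j _ => ?_
    rw [upd_of_ne j.2]
    have e2 : l' j.1 = l j.1 - l k * (c k)⁻¹ * c j.1 := by simp [l', j.2]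
    rw [e2, sub_smul, smul_smul]
    abel
  by_cases hlk : l k = 0
  · obtain ⟨i, hi⟩ : ∃ i, l i ≠ 0 := by
      by_contra hcon
      push Not at hcon
      have : (Pi.single 0 1 : Fin (n + 1) → D) = 0 := by
        rw [← hl]
        exact Finset.sum_eq_zero fun k _ => by rw [hcon k, zero_smul]
      have := congrFun this 0
      simp at this
    have hik : i ≠ k := fun h => hi (h ▸ hlk)
    have e2 : l' i = l i := by simp [l', hik, hlk]
    rw [pc ι _ l' i hA' hc hl' (by rw [e2]; exact hi), pc ι A l i hA hc hl hi, e2]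
    have hB := li_restrict hA hl hi
    have hlt : ∀ t : Fin n, ∑ k, l k * A k t.succ = 0 := by
      intro t
      have := congrFun hl t.succ
      rw [Finset.sum_apply] at this
      simpa using this
    have hki : k ≠ i := fun h => hik h.symm
    have h4' := h4 {j : ι // j ≠ i} (fun j t => A j.1 t.succ) ⟨k, hki⟩
      (fun j => c j.1 - c i * (l i)⁻¹ * l j.1) hB (card_ne hc i)
      (by simp only [hlk, mul_zero, sub_zero]; exact hk)
    have key : wdet w n {j : ι // j ≠ i}
        (fun j t => upd A k (∑ j, c j • A j) j.1 t.succ) =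
        w (c k - c i * (l i)⁻¹ * l k) + wdet w n {j : ι // j ≠ i} (fun j t => A j.1 t.succ) := by
      rw [← h4']
      congr 1
      funext j
      by_cases hj : j = ⟨k, hki⟩
      · subst hj
        rw [upd_self]
        funext t
        rw [upd_self]
        rw [Finset.sum_apply, Finset.sum_apply]
        simp only [Pi.smul_apply, smul_eq_mul, sub_mul]
        rw [Finset.sum_sub_distrib, Fintype.sum_eq_add_sum_subtype_ne _ i]
        have h5 := hlt t
        rw [Fintype.sum_eq_add_sum_subtype_ne _ i] at h5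
        simp only [mul_assoc]
        rw [← Finset.mul_sum, ← Finset.mul_sum, eq_neg_of_add_eq_zero_right h5, mul_neg, mul_neg,
          ← mul_assoc (l i)⁻¹, inv_mul_cancel₀ hi, one_mul]
        abel
      · rw [upd_of_ne hj]
        have : j.1 ≠ k := fun h => hj (Subtype.ext h)
        rw [upd_of_ne this]
    rw [key]
    simp only [hlk, mul_zero, sub_zero]
    ring
  · have e1 : l' k = l k * (c k)⁻¹ := by simp [l']
    have h5 : l' k ≠ 0 := by rw [e1]; exact mul_ne_zero hlk (inv_ne_zero hk)
    rw [pc ι _ l' k hA' hc hl' h5, pc ι A l k hA hc hl hlk, e1, hw _ _ hlk (inv_ne_zero hk),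
      w_inv hw _ hk]
    have hfun : (fun (j : {j : ι // j ≠ k}) (t : Fin n) =>
        upd A k (∑ j, c j • A j) j.1 t.succ) =
        (fun (j : {j : ι // j ≠ k}) (t : Fin n) => A j.1 t.succ) := by
      funext j
      rw [upd_of_ne j.2]
    rw [hfun]
    ring

theorem props (n : ℕ) : P3 w n ∧ P4 w n := by
  induction n with
  | zero =>
    refine ⟨fun ι ι' _ _ e A _ _ => rfl, fun ι _ A k c _ hc _ => ?_⟩
    have : IsEmpty ι := Fintype.card_eq_zero_iff.1 hc
    exact (this.false k).elim
  | succ n ih => exact ⟨p3_succ hw ih.1 ih.2, p4_succ hw ih.1 ih.2⟩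

end

end Pool.Agent.Y352.SP
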