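import Pool.Agent.Y352.SP.Det

/-!
# Properties of `wdet`: the identity, products, triangular families, valuations
-/

set_option autoImplicit false

namespace Pool.Agent.Y352.SP

open Finset
open scoped Classical

section
variable {D : Type} [DivisionRing D]

/-- The rows of the identity matrix. -/
def idF (D : Type) [DivisionRing D] (n : ℕ) : Fin n → Fin n → D := fun k => Pi.single k 1

/-- The rows of the product. -/
def mulF {ι : Type} {m n : ℕ} (X : ι → Fin m → D) (Y : Fin m → Fin n → D) : ι → Fin n → D :=
  fun i => ∑ j, X i j • Y j

theorem li_idF (n : ℕ) : LinearIndependent D (idF D n) := by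
  rw [Fintype.linearIndependent_iff]
  intro g hg i
  have h := congrFun hg i
  rw [Finset.sum_apply] at h
  simp only [idF, Pi.smul_apply, Pi.single_apply, smul_eq_mul, mul_ite, mul_one, mul_zero,
    Finset.sum_ite_eq, Finset.mem_univ, if_true, Pi.zero_apply] at h
  exact h

theorem mulF_idF {n : ℕ} (Y : Fin n → Fin n → D) : mulF (idF D n) Y = Y := by
  funext i
  unfold mulF idF
  rw [Finset.sum_eq_single i]
  · simp
  · intro b _ hb
    rw [Pi.single_eq_of_ne hb, zero_smul]
  · intro h
    exact absurd (Finset.mem_univ _) h

theorem idF_mulF {ι : Type} {n : ℕ} (X : ι → Fin n → D) : mulF X (idF D n) = X := by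
  funext i t
  unfold mulF idF
  rw [Finset.sum_apply]
  simp [Pi.single_apply]

theorem mulF_upd {ι : Type} [Fintype ι] {m n : ℕ} (X : ι → Fin m → D) (Y : Fin m → Fin n → D)
    (k : ι) (c : ι → D) :
    mulF (upd X k (∑ j, c j • X j)) Y = upd (mulF X Y) k (∑ j, c j • mulF X Y j) := by
  funext i
  by_cases h : i = k
  · subst h
    rw [upd_self]
    unfold mulF
    rw [upd_self]
    simp only [Finset.smul_sum, Finset.sum_apply, Pi.smul_apply, smul_eq_mul, Finset.sum_smul,
      smul_smul]
    rw [Finset.sum_comm]
  · rw [upd_of_ne h]
    unfold mulF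
    rw [upd_of_ne h]

variable {w : D → ℤ} (hw : ∀ x y : D, x ≠ 0 → y ≠ 0 → w (x * y) = w x + w y)
include hw

theorem wdet_reindex {n : ℕ} {ι ι' : Type} [Fintype ι] [Fintype ι'] (e : ι ≃ ι')
    (A : ι' → Fin n → D) (hA : LinearIndependent D A) (hc : Fintype.card ι' = n) :
    wdet w n ι (fun i => A (e i)) = wdet w n ι' A :=
  (props hw n).1 ι ι' e A hA hc

theorem wdet_upd {n : ℕ} {ι : Type} [Fintype ι] (A : ι → Fin n → D) (k : ι) (c : ι → D)
    (hA : LinearIndependent D A) (hc : Fintype.card ι = n) (hk : c k ≠ 0) :
    wdet w n ι (upd A k (∑ j, c j • A j)) = w (c k) + wdet w n ι A :=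
  (props hw n).2 ι A k c hA hc hk

theorem wdet_choice {n : ℕ} {ι : Type} [Fintype ι] (A : ι → Fin (n + 1) → D) (l : ι → D) (i : ι)
    (hA : LinearIndependent D A) (hc : Fintype.card ι = n + 1)
    (hl : ∑ k, l k • A k = Pi.single 0 1) (hi : l i ≠ 0) :
    wdet w (n + 1) ι A =
      - w (l i) + wdet w n {k : ι // k ≠ i} (fun k j => A k.1 j.succ) :=
  pc_of hw (props hw n).1 (props hw n).2 ι A l i hA hc hl hi

omit hw in
theorem exists_l {n : ℕ} {ι : Type} [Fintype ι] {A : ι → Fin (n + 1) → D}
    (hA : LinearIndependent D A) (hc : Fintype.card ι = n + 1) :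
    ∃ l : ι → D, (∑ k, l k • A k = Pi.single 0 1) ∧ ∃ i, l i ≠ 0 := by
  obtain ⟨l, hl⟩ := li_coeff hA hc (Pi.single 0 1)
  refine ⟨l, hl, ?_⟩
  by_contra hcon
  push Not at hcon
  have : (Pi.single 0 1 : Fin (n + 1) → D) = 0 := by
    rw [← hl]
    exact Finset.sum_eq_zero fun k _ => by rw [hcon k, zero_smul]
  have := congrFun this 0
  simp at this

omit hw in
theorem wdet_inst {n : ℕ} {ι : Type} (i1 i2 : Fintype ι) (A : ι → Fin n → D) :
    @wdet D _ w n ι i1 A = @wdet D _ w n ι i2 A := by
  have h : i1 = i2 := Subsingleton.elim _ _
  subst h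
  rfl

theorem wdet_idF (n : ℕ) : wdet w n (Fin n) (idF D n) = 0 := by
  induction n with
  | zero => rfl
  | succ n ih =>
    have hl : ∑ k, (Pi.single 0 1 : Fin (n + 1) → D) k • idF D (n + 1) k = Pi.single 0 1 := by
      rw [Finset.sum_eq_single 0]
      · simp [idF]
      · intro b _ hb
        rw [Pi.single_eq_of_ne hb, zero_smul]
      · intro h
        exact absurd (Finset.mem_univ _) h
    have h0 : (Pi.single 0 1 : Fin (n + 1) → D) 0 ≠ 0 := by simp
    rw [wdet_choice hw (idF D (n + 1)) (Pi.single 0 1) 0 (li_idF _) (by simp) hl h0]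
    rw [Pi.single_eq_same, w_one hw, neg_zero, zero_add]
    have h1 := wdet_reindex hw (finSuccAboveEquiv (0 : Fin (n + 1)))
      (fun (k : {k : Fin (n + 1) // k ≠ 0}) (j : Fin n) => idF D (n + 1) k.1 j.succ)
      (li_restrict (li_idF (n + 1)) hl h0) (by
        rw [Fintype.card_subtype_compl]
        simp)
    have h2 : (fun (i : Fin n) (j : Fin n) =>
        idF D (n + 1) ((finSuccAboveEquiv (0 : Fin (n + 1))) i).1 j.succ) = idF D n := by
      funext i j
      simp only [idF, Pi.single_apply, finSuccAboveEquiv_apply, Fin.zero_succAbove]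
      by_cases h : j = i
      · simp [h]
      · simp [h]
    rw [h2, ih] at h1
    exact (wdet_inst _ _ _).trans h1.symm

omit hw in
theorem exists_coeff_id {n : ℕ} {A : Fin n → Fin n → D} (hA : LinearIndependent D A) (k : Fin n) :
    ∃ l : Fin n → D, ∑ j, l j • A j = Pi.single k 1 := li_coeff hA (by simp) _

omit hw in
/-- Every independent family arises from the identity by row operations. -/
theorem generation {n : ℕ} (Q : (Fin n → Fin n → D) → Prop) (h1 : Q (idF D n))
    (hstep : ∀ A : Fin n → Fin n → D, LinearIndependent D A → ∀ (k : Fin n) (c : Fin n → D),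
      c k ≠ 0 → Q A → Q (upd A k (∑ j, c j • A j)))
    (A : Fin n → Fin n → D) (hA : LinearIndependent D A) : Q A := by
  -- going back along a replacement
  have back : ∀ (A : Fin n → Fin n → D), LinearIndependent D A → ∀ (k : Fin n) (c : Fin n → D),
      c k ≠ 0 → Q (upd A k (∑ j, c j • A j)) → Q A := by
    intro A hA k c hk hQ
    let d : Fin n → D := fun j => if j = k then (c k)⁻¹ else - ((c k)⁻¹ * c j)
    have hdk : d k = (c k)⁻¹ := by simp [d]
    have h2 := hstep _ (li_update hA k c hk) k d (by rw [hdk]; exact inv_ne_zero hk) hQ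
    have h3 : upd (upd A k (∑ j, c j • A j)) k (∑ j, d j • upd A k (∑ j, c j • A j) j) = A := by
      funext j
      by_cases hj : j = k
      · subst hj
        rw [upd_self, Fintype.sum_eq_add_sum_subtype_ne _ j, upd_self, hdk, Finset.smul_sum,
          Fintype.sum_eq_add_sum_subtype_ne _ j, smul_smul, inv_mul_cancel₀ hk, one_smul,
          add_assoc, ← Finset.sum_add_distrib]
        rw [Finset.sum_eq_zero, add_zero]
        intro i _
        rw [upd_of_ne i.2]
        have hdi : d i.1 = - ((c j)⁻¹ * c i.1) := by simp [d, i.2]
        rw [hdi, smul_smul, neg_smul, add_neg_cancel]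
      · rw [upd_of_ne hj, upd_of_ne hj]
    rwa [h3] at h2
  -- induction on the number of unmatched rows
  have main : ∀ (N : ℕ) (A : Fin n → Fin n → D), LinearIndependent D A →
      (univ.filter (fun j => A j ≠ idF D n j)).card = N → Q A := by
    intro N
    induction N using Nat.strong_induction_on with
    | _ N ih =>
      intro A hA hN
      by_cases hall : ∀ j, A j = idF D n j
      · have : A = idF D n := funext hall
        rw [this]
        exact h1
      push Not at hall
      obtain ⟨k, hk⟩ := hall
      -- a replacement of the row `k`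
      have key : ∀ (A' : Fin n → Fin n → D), LinearIndependent D A' →
          (∀ j, j ≠ k → A' j ≠ idF D n j → A j ≠ idF D n j) →
          ∀ l : Fin n → D, ∑ j, l j • A' j = Pi.single k 1 → l k ≠ 0 → Q A' := by
        intro A' hA' hsub l hl hlk
        refine back A' hA' k l hlk ?_
        refine ih _ ?_ _ (li_update hA' k l hlk) rfl
        rw [← hN]
        apply Finset.card_lt_card
        rw [Finset.ssubset_iff_of_subset]
        · refine ⟨k, by simp [hk], ?_⟩
          rw [Finset.mem_filter, upd_self, hl]
          simp [idF]
        · intro j hj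
          rw [Finset.mem_filter] at hj ⊢
          refine ⟨Finset.mem_univ _, ?_⟩
          by_cases hjk : j = k
          · rw [hjk]; exact hk
          · have h4 := hj.2
            rw [upd_of_ne hjk] at h4
            exact hsub j hjk h4
      obtain ⟨l, hl⟩ := exists_coeff_id hA k
      by_cases hlk : l k = 0
      · -- there is an unmatched row with a nonzero coefficient
        obtain ⟨j, hj, hjl⟩ : ∃ j, A j ≠ idF D n j ∧ l j ≠ 0 := by
          by_contra hcon
          push Not at hcon
          have h5 := congrFun hl k
          rw [Finset.sum_apply, Pi.single_eq_same] at h5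
          rw [Finset.sum_eq_zero] at h5
          · exact zero_ne_one h5
          · intro j _
            by_cases hjm : A j = idF D n j
            · rw [hjm]
              by_cases hjk : j = k
              · rw [hjk, hlk, zero_smul]; rfl
              · simp [idF, Ne.symm hjk]
            · rw [hcon j hjm, zero_smul]; rfl
        have hjk : j ≠ k := fun h => hjl (h ▸ hlk)
        -- add the row `k` to the row `j`
        let c : Fin n → D := fun i => if i = j then 1 else if i = k then 1 else 0
        have hcj : c j = 1 := by simp [c]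
        have hck : c k = 1 := by simp [c]
        have hsum : ∑ i, c i • A i = A j + A k := by
          rw [Fintype.sum_eq_add_sum_subtype_ne _ j, hcj, one_smul]
          congr 1
          rw [Finset.sum_eq_single (⟨k, hjk.symm⟩ : {i : Fin n // i ≠ j})]
          · rw [hck, one_smul]
          · intro b _ hb
            have hb' : b.1 ≠ k := fun h => hb (Subtype.ext h)
            have : c b.1 = 0 := by simp [c, b.2, hb']
            rw [this, zero_smul]
          · intro h
            exact absurd (Finset.mem_univ _) h
        refine back A hA j c (by rw [hcj]; exact one_ne_zero) ?_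
        rw [hsum]
        have hLI : LinearIndependent D (upd A j (A j + A k)) := by
          rw [← hsum]
          exact li_update hA j c (by rw [hcj]; exact one_ne_zero)
        refine key _ hLI ?_ (fun i => if i = k then - l j else l i) ?_ ?_
        · intro i hik hi
          by_cases hij : i = j
          · rw [hij]; exact hj
          · rwa [upd_of_ne hij] at hi
        · rw [← hl, Fintype.sum_eq_add_sum_subtype_ne _ k,
            Fintype.sum_eq_add_sum_subtype_ne (fun i => l i • A i) k, hlk, zero_smul, zero_add,
            if_pos rfl, upd_of_ne hjk.symm]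
          have h6 : ∀ i : {i : Fin n // i ≠ k}, (if i.1 = k then - l j else l i.1) •
              upd A j (A j + A k) i.1 = l i.1 • A i.1 + (if i.1 = j then l j • A k else 0) := by
            intro i
            rw [if_neg i.2]
            by_cases hij : i.1 = j
            · rw [hij, upd_self, smul_add, if_pos rfl]
            · rw [upd_of_ne hij, if_neg hij, add_zero]
          rw [Finset.sum_congr rfl (fun i _ => h6 i), Finset.sum_add_distrib]
          rw [Finset.sum_eq_single (⟨j, hjk⟩ : {i : Fin n // i ≠ k})
            (f := fun i : {i : Fin n // i ≠ k} => if i.1 = j then l j • A k else 0)]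
          · rw [if_pos rfl, neg_smul]
            abel
          · intro b _ hb
            rw [if_neg (fun h => hb (Subtype.ext h))]
          · intro h
            exact absurd (Finset.mem_univ _) h
        · rw [if_pos rfl]
          exact neg_ne_zero.2 hjl
      · exact key A hA (fun j _ h => h) l hl hlk
  exact main _ A hA rfl

theorem wdet_mul_aux {n : ℕ} (Y : Fin n → Fin n → D) (hY : LinearIndependent D Y)
    (X : Fin n → Fin n → D) (hX : LinearIndependent D X) :
    LinearIndependent D (mulF X Y) ∧
      wdet w n (Fin n) (mulF X Y) = wdet w n (Fin n) X + wdet w n (Fin n) Y := by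
  refine generation (fun X => LinearIndependent D (mulF X Y) ∧
    wdet w n (Fin n) (mulF X Y) = wdet w n (Fin n) X + wdet w n (Fin n) Y) ?_ ?_ X hX
  · rw [mulF_idF, wdet_idF hw, zero_add]
    exact ⟨hY, rfl⟩
  · intro A hA k c hk ⟨h1, h2⟩
    rw [mulF_upd]
    refine ⟨li_update h1 k c hk, ?_⟩
    rw [wdet_upd hw _ k c h1 (by simp) hk, wdet_upd hw _ k c hA (by simp) hk, h2, add_assoc]

theorem wdet_mul {n : ℕ} {X Y : Fin n → Fin n → D} (hX : LinearIndependent D X)
    (hY : LinearIndependent D Y) :
    wdet w n (Fin n) (mulF X Y) = wdet w n (Fin n) X + wdet w n (Fin n) Y :=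
  (wdet_mul_aux hw Y hY X hX).2

/-- Triangular change of a family. -/
theorem wdet_tri {n : ℕ} {ι : Type} [Fintype ι] (Y X : ι → Fin n → D)
    (hY : LinearIndependent D Y) (hc : Fintype.card ι = n) (r : ι → ℕ) (c : ι → D)
    (hc0 : ∀ i, c i ≠ 0) (d : ι → ι → D) (hd : ∀ i j, r i ≤ r j → d i j = 0)
    (hX : ∀ i, X i = c i • Y i + ∑ j, d i j • Y j) :
    LinearIndependent D X ∧ wdet w n ι X = ∑ i, w (c i) + wdet w n ι Y := by
  let Z : Finset ι → ι → Fin n → D := fun s i => if i ∈ s then X i else Y i
  have key : ∀ s : Finset ι, LinearIndependent D (Z s) ∧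
      wdet w n ι (Z s) = ∑ i ∈ s, w (c i) + wdet w n ι Y := by
    intro s
    induction s using Finset.induction_on_min_value r with
    | empty =>
      have : Z ∅ = Y := by funext i; simp [Z]
      rw [this]
      exact ⟨hY, by simp⟩
    | insert a s has hmin ih =>
      obtain ⟨h1, h2⟩ := ih
      let c' : ι → D := fun j => (if j = a then c a else 0) + d a j
      have hdaa : d a a = 0 := hd a a le_rfl
      have hc'a : c' a = c a := by simp [c', hdaa]
      have h3 : Z (insert a s) = upd (Z s) a (∑ j, c' j • Z s j) := by
        funext i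
        by_cases hi : i = a
        · subst hi
          rw [upd_self]
          show (if i ∈ insert i s then X i else Y i) = _
          rw [if_pos (Finset.mem_insert_self _ _), hX i]
          simp only [c', add_smul, Finset.sum_add_distrib]
          congr 1
          · rw [Finset.sum_eq_single i]
            · show _ = (if i = i then c i else 0) • (if i ∈ s then X i else Y i)
              rw [if_pos rfl, if_neg has]
            · intro b _ hb
              rw [if_neg hb, zero_smul]
            · intro h
              exact absurd (Finset.mem_univ _) h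
          · refine Finset.sum_congr rfl fun j _ => ?_
            by_cases hj : j ∈ s
            · rw [hd i j (hmin j hj), zero_smul, zero_smul]
            · show _ = d i j • (if j ∈ s then X j else Y j)
              rw [if_neg hj]
        · rw [upd_of_ne hi]
          show (if i ∈ insert a s then X i else Y i) = (if i ∈ s then X i else Y i)
          by_cases hs : i ∈ s
          · rw [if_pos hs, if_pos (Finset.mem_insert_of_mem hs)]
          · rw [if_neg hs, if_neg (by simp [hi, hs])]
      have hne : c' a ≠ 0 := by rw [hc'a]; exact hc0 a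
      rw [h3]
      refine ⟨li_update h1 a c' hne, ?_⟩
      rw [wdet_upd hw _ a c' h1 hc hne, hc'a, h2, Finset.sum_insert has, add_assoc]
  have h := key univ
  have hZ : Z univ = X := by funext i; simp [Z]
  rw [hZ] at h
  exact h

end

end Pool.Agent.Y352.SP
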