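import Pool.Agent.Y352.SP.Det2

/-!
# `wdet` for valuations
-/

set_option autoImplicit false

namespace Pool.Agent.Y352.SP

open Finset
open scoped Classical

/-- A (degree) valuation of a division ring with values in `ℤ`. -/
structure Val {D : Type} [DivisionRing D] (w : D → ℤ) : Prop where
  mul : ∀ x y : D, x ≠ 0 → y ≠ 0 → w (x * y) = w x + w y
  add : ∀ x y : D, x ≠ 0 → y ≠ 0 → x + y ≠ 0 → w (x + y) ≤ max (w x) (w y)

/-- `w x ≤ m`, with `w 0 = -∞`. -/
def Le {D : Type} [DivisionRing D] (w : D → ℤ) (m : ℤ) (x : D) : Prop := x = 0 ∨ w x ≤ m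

section
variable {D : Type} [DivisionRing D] {w : D → ℤ}

theorem le_zero' (m : ℤ) : Le w m (0 : D) := Or.inl rfl

theorem Le.mono {m n : ℤ} {x : D} (h : Le w m x) (hmn : m ≤ n) : Le w n x := by
  rcases h with h | h
  · exact Or.inl h
  · exact Or.inr (h.trans hmn)

theorem Le.add (hv : Val w) {m : ℤ} {x y : D} (hx : Le w m x) (hy : Le w m y) :
    Le w m (x + y) := by
  rcases hx with hx | hx
  · rw [hx, zero_add]; exact hy
  rcases hy with hy | hy
  · rw [hy, add_zero]; exact Or.inr hx
  by_cases h0 : x + y = 0
  · exact Or.inl h0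
  by_cases hx0 : x = 0
  · right; rw [hx0, zero_add]; exact hy
  by_cases hy0 : y = 0
  · right; rw [hy0, add_zero]; exact hx
  · right
    exact (hv.add x y hx0 hy0 h0).trans (max_le hx hy)

theorem Le.mul (hv : Val w) {m n : ℤ} {x y : D} (hx : Le w m x) (hy : Le w n y) :
    Le w (m + n) (x * y) := by
  by_cases hx0 : x = 0
  · left; rw [hx0, zero_mul]
  by_cases hy0 : y = 0
  · left; rw [hy0, mul_zero]
  right
  rw [hv.mul x y hx0 hy0]
  exact add_le_add (hx.resolve_left hx0) (hy.resolve_left hy0)

theorem Le.neg (hv : Val w) {m : ℤ} {x : D} (hx : Le w m x) : Le w m (-x) := by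
  rcases hx with hx | hx
  · left; rw [hx, neg_zero]
  · right; rw [w_neg hv.mul]; exact hx

theorem Le.sum (hv : Val w) {m : ℤ} {α : Type} (s : Finset α) (f : α → D)
    (h : ∀ i ∈ s, Le w m (f i)) : Le w m (∑ i ∈ s, f i) := by
  induction s using Finset.induction_on with
  | empty => exact Or.inl Finset.sum_empty
  | insert a s ha ih =>
    rw [Finset.sum_insert ha]
    exact Le.add hv (h a (Finset.mem_insert_self _ _))
      (ih fun i hi => h i (Finset.mem_insert_of_mem hi))

theorem Val.one (hv : Val w) : w 1 = 0 := w_one hv.mul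

theorem Val.of_lt (hv : Val w) {x y : D} (hx : x ≠ 0) (hy : Le w (w x - 1) y) :
    x + y ≠ 0 ∧ w (x + y) = w x := by
  have h1 : x + y ≠ 0 := by
    intro h
    have h2 : y = -x := eq_neg_of_add_eq_zero_right h
    rcases hy with hy | hy
    · apply hx
      rw [hy] at h2
      rw [← neg_eq_zero, ← h2]
    · rw [h2, w_neg hv.mul] at hy
      omega
  refine ⟨h1, le_antisymm ?_ ?_⟩
  · have h3 : Le w (w x) (x + y) := Le.add hv (Or.inr le_rfl) (hy.mono (by omega))
    exact h3.resolve_left h1
  · by_contra hcon
    push Not at hcon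
    have h3 : Le w (w x - 1) ((x + y) + -y) :=
      Le.add hv (Or.inr (by omega)) (Le.neg hv hy)
    rw [add_neg_cancel_right] at h3
    have := h3.resolve_left hx
    omega

/-- A sum of elements with pairwise different values. -/
theorem Val.sum_distinct (hv : Val w) {α : Type} (s : Finset α) (f : α → D)
    (h0 : ∀ i ∈ s, f i ≠ 0) (hinj : ∀ i ∈ s, ∀ j ∈ s, w (f i) = w (f j) → i = j)
    (a : α) (ha : a ∈ s) (hmax : ∀ i ∈ s, w (f i) ≤ w (f a)) :
    (∑ i ∈ s, f i) ≠ 0 ∧ w (∑ i ∈ s, f i) = w (f a) := by
  rw [← Finset.add_sum_erase s f ha]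
  apply hv.of_lt (h0 a ha)
  apply Le.sum hv
  intro i hi
  right
  have h1 := Finset.mem_of_mem_erase hi
  have h2 := Finset.ne_of_mem_erase hi
  have h3 := hmax i h1
  have h4 : w (f i) ≠ w (f a) := fun h => h2 (hinj i h1 a ha h)
  omega

/-- The determinant of an integral family is integral. -/
theorem wdet_le_zero (hv : Val w) (n : ℕ) : ∀ (ι : Type) [Fintype ι] (A : ι → Fin n → D),
    LinearIndependent D A → Fintype.card ι = n → (∀ i t, Le w 0 (A i t)) →
      wdet w n ι A ≤ 0 := by
  induction n with
  | zero => intro ι _ A _ _ _; exact le_rfl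
  | succ n ih =>
    intro ι _ A hA hc hle
    obtain ⟨l, hl, i0, hi0⟩ := exists_l hA hc
    obtain ⟨i, hi, hmax⟩ := Finset.exists_max_image (univ.filter (fun k => l k ≠ 0))
      (fun k => w (l k)) ⟨i0, by simp [hi0]⟩
    rw [Finset.mem_filter] at hi
    have hil := hi.2
    rw [wdet_choice hv.mul A l i hA hc hl hil]
    have h1 := ih {k : ι // k ≠ i} (fun k j => A k.1 j.succ) (li_restrict hA hl hil)
      (card_ne hc i) (fun k j => hle _ _)
    have h2 : 0 ≤ w (l i) := by
      have h3 := congrFun hl 0
      rw [Finset.sum_apply, Pi.single_eq_same] at h3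
      have h4 : Le w (w (l i)) (∑ k, (l k • A k) 0) := by
        apply Le.sum hv
        intro k _
        have h5 : Le w (w (l i)) (l k) := by
          by_cases hk : l k = 0
          · exact Or.inl hk
          · exact Or.inr (hmax k (by simp [hk]))
        have h6 := Le.mul hv h5 (hle k 0)
        rw [add_zero] at h6
        exact h6
      rw [h3] at h4
      have h7 := h4.resolve_left one_ne_zero
      rw [hv.one] at h7
      exact h7
    omega

theorem li_one_add (hv : Val w) {n : ℕ} (A : Fin n → Fin n → D)
    (hA : ∀ i t, Le w (-1) (A i t - idF D n i t)) : LinearIndependent D A := by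
  rw [Fintype.linearIndependent_iff]
  intro g hg
  by_contra hcon
  push Not at hcon
  obtain ⟨i0, hi0⟩ := hcon
  obtain ⟨i, hi, hmax⟩ := Finset.exists_max_image (univ.filter (fun k => g k ≠ 0))
    (fun k => w (g k)) ⟨i0, by simp [hi0]⟩
  rw [Finset.mem_filter] at hi
  have h1 := congrFun hg i
  rw [Finset.sum_apply] at h1
  have h2 : ∑ k, (g k • A k) i = g i + ∑ k, g k * (A k i - idF D n k i) := by
    simp only [Pi.smul_apply, smul_eq_mul, mul_sub, Finset.sum_sub_distrib]
    have h3 : ∑ k, g k * idF D n k i = g i := by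
      rw [Finset.sum_eq_single i]
      · simp [idF]
      · intro b _ hb
        simp [idF, Ne.symm hb]
      · intro h
        exact absurd (Finset.mem_univ _) h
    rw [h3]
    abel
  rw [h2] at h1
  have h4 : Le w (w (g i) - 1) (∑ k, g k * (A k i - idF D n k i)) := by
    apply Le.sum hv
    intro k _
    have h5 : Le w (w (g i)) (g k) := by
      by_cases hk : g k = 0
      · exact Or.inl hk
      · exact Or.inr (hmax k (by simp [hk]))
    have h6 := Le.mul hv h5 (hA k i)
    exact h6
  exact (hv.of_lt hi.2 h4).1 h1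

theorem wdet_one_add (hv : Val w) (n : ℕ) : ∀ (A : Fin n → Fin n → D),
    (∀ i t, Le w (-1) (A i t - idF D n i t)) → wdet w n (Fin n) A = 0 := by
  induction n with
  | zero => intro A _; rfl
  | succ n ih =>
    intro A hA
    have hLI := li_one_add hv A hA
    have hc : Fintype.card (Fin (n + 1)) = n + 1 := by simp
    obtain ⟨l, hl, i0, hi0⟩ := exists_l hLI hc
    have hcoord : ∀ t, l t = (if t = 0 then 1 else 0) - ∑ k, l k * (A k t - idF D (n + 1) k t) := by
      intro t
      have h1 := congrFun hl t
      rw [Finset.sum_apply] at h1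
      simp only [Pi.smul_apply, smul_eq_mul, Pi.single_apply] at h1
      rw [← h1]
      simp only [mul_sub, Finset.sum_sub_distrib]
      have h3 : ∑ k, l k * idF D (n + 1) k t = l t := by
        rw [Finset.sum_eq_single t]
        · simp [idF]
        · intro b _ hb
          simp [idF, Ne.symm hb]
        · intro h
          exact absurd (Finset.mem_univ _) h
      rw [h3]
      abel
    obtain ⟨i, hi, hmax⟩ := Finset.exists_max_image (univ.filter (fun k => l k ≠ 0))
      (fun k => w (l k)) ⟨i0, by simp [hi0]⟩
    rw [Finset.mem_filter] at hi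
    have hle : ∀ k, Le w (w (l i)) (l k) := by
      intro k
      by_cases hk : l k = 0
      · exact Or.inl hk
      · exact Or.inr (hmax k (by simp [hk]))
    have hle1 : Le w 0 (1 : D) := Or.inr hv.one.le
    have hsm : ∀ t, Le w (w (l i) - 1) (∑ k, l k * (A k t - idF D (n + 1) k t)) := by
      intro t
      apply Le.sum hv
      intro k _
      exact Le.mul hv (hle k) (hA k t)
    have hi1 : w (l i) ≤ 0 := by
      by_contra hcon
      push Not at hcon
      have h5 : Le w (w (l i) - 1) ((if i = 0 then (1 : D) else 0) +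
          -∑ k, l k * (A k i - idF D (n + 1) k i)) := by
        apply Le.add hv
        · by_cases h : i = 0
          · rw [if_pos h]
            exact hle1.mono (by omega)
          · rw [if_neg h]
            exact le_zero' _
        · exact Le.neg hv (hsm i)
      rw [← sub_eq_add_neg, ← hcoord i] at h5
      have := h5.resolve_left hi.2
      omega
    have h6 : Le w (w 1 - 1) (-∑ k, l k * (A k 0 - idF D (n + 1) k 0)) := by
      rw [hv.one]
      exact (Le.neg hv (hsm 0)).mono (by omega)
    have h7 := hv.of_lt one_ne_zero h6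
    have h8 : l 0 = 1 + -∑ k, l k * (A k 0 - idF D (n + 1) k 0) := by
      have := hcoord 0
      rw [if_pos rfl, sub_eq_add_neg] at this
      exact this
    rw [← h8, hv.one] at h7
    rw [wdet_choice hv.mul A l 0 hLI hc hl h7.1, h7.2, neg_zero, zero_add]
    have h9 := wdet_reindex hv.mul (finSuccAboveEquiv (0 : Fin (n + 1)))
      (fun (k : {k : Fin (n + 1) // k ≠ 0}) (j : Fin n) => A k.1 j.succ)
      (li_restrict hLI hl h7.1) (by
        rw [Fintype.card_subtype_compl]
        simp)
    have h10 := ih (fun (i : Fin n) (j : Fin n) =>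
        A ((finSuccAboveEquiv (0 : Fin (n + 1))) i).1 j.succ) (by
      intro i t
      have h11 := hA i.succ t.succ
      have h12 : idF D (n + 1) i.succ t.succ = idF D n i t := by
        simp only [idF, Pi.single_apply]
        by_cases h : t = i
        · simp [h]
        · simp [h]
      rw [h12] at h11
      simpa [finSuccAboveEquiv_apply, Fin.zero_succAbove] using h11)
    rw [h10] at h9
    exact (wdet_inst _ _ _).trans h9.symm

end

end Pool.Agent.Y352.SP
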