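import Pool.Agent.Y352.SP.Det3

/-!
# Row reduction over a Euclidean subring
-/

set_option autoImplicit false

namespace Pool.Agent.Y352.SP

open Finset
open scoped Classical

/-- A subring which is Euclidean with respect to `w1 + w2` (a skew Laurent polynomial ring). -/
structure Euc {D : Type} [DivisionRing D] (R : Subring D) (w1 w2 : D → ℤ) : Prop where
  v1 : Val w1
  v2 : Val w2
  nonneg : ∀ a ∈ R, a ≠ 0 → 0 ≤ w1 a + w2 a
  lead : ∀ a ∈ R, a ≠ 0 → ∃ μ ∈ R, μ ≠ 0 ∧ μ⁻¹ ∈ R ∧ w1 μ = w1 a ∧ w2 μ = - w1 a ∧
    Le w1 (w1 a - 1) (a - μ)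

/-- An elementary row operation with a coefficient in `R`. -/
def RStep {D : Type} [DivisionRing D] (R : Subring D) {ι : Type} {n : ℕ} (A B : ι → Fin n → D) :
    Prop := ∃ (k j : ι) (r : D), r ∈ R ∧ k ≠ j ∧ B = upd A k (A k + r • A j)

/-- Row equivalence over `R`. -/
def Reach {D : Type} [DivisionRing D] (R : Subring D) {ι : Type} {n : ℕ}
    (A B : ι → Fin n → D) : Prop := Relation.ReflTransGen (RStep R) A B

section
variable {D : Type} [DivisionRing D] {R : Subring D} {w1 w2 : D → ℤ}

theorem euc_step (hE : Euc R w1 w2) {a b : D} (ha : a ∈ R) (hb : b ∈ R) (ha0 : a ≠ 0)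
    (hb0 : b ≠ 0) (hab : w1 b + w2 b ≤ w1 a + w2 a) :
    ∃ q ∈ R, a - q * b = 0 ∨ w1 (a - q * b) + w2 (a - q * b) < w1 a + w2 a := by
  obtain ⟨μ, hμ, hμ0, hμi, h1, h2, h3⟩ := hE.lead a ha ha0
  obtain ⟨ν, hν, hν0, hνi, g1, g2, g3⟩ := hE.lead b hb hb0
  have hq0 : μ * ν⁻¹ ≠ 0 := mul_ne_zero hμ0 (inv_ne_zero hν0)
  have hw1q : w1 (μ * ν⁻¹) = w1 a - w1 b := by
    rw [hE.v1.mul _ _ hμ0 (inv_ne_zero hν0), w_inv hE.v1.mul _ hν0, h1, g1]; ring
  have hw2q : w2 (μ * ν⁻¹) = w1 b - w1 a := by
    rw [hE.v2.mul _ _ hμ0 (inv_ne_zero hν0), w_inv hE.v2.mul _ hν0, h2, g2]; ring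
  refine ⟨μ * ν⁻¹, R.mul_mem hμ hνi, ?_⟩
  by_cases h0 : a - μ * ν⁻¹ * b = 0
  · exact Or.inl h0
  right
  have e1 : a - μ * ν⁻¹ * b = (a - μ) + -(μ * ν⁻¹ * (b - ν)) := by
    rw [mul_sub, mul_assoc μ ν⁻¹ ν, inv_mul_cancel₀ hν0, mul_one]
    abel
  have l1 : Le w1 (w1 a - 1) (a - μ * ν⁻¹ * b) := by
    rw [e1]
    apply Le.add hE.v1 h3
    apply Le.neg hE.v1
    have := Le.mul hE.v1 (Or.inr hw1q.le : Le w1 (w1 a - w1 b) (μ * ν⁻¹)) g3
    exact this.mono (by omega)
  have l2 : Le w2 (w2 a) (a - μ * ν⁻¹ * b) := by
    rw [sub_eq_add_neg]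
    apply Le.add hE.v2 (Or.inr le_rfl)
    apply Le.neg hE.v2
    have := Le.mul hE.v2 (Or.inr hw2q.le : Le w2 (w1 b - w1 a) (μ * ν⁻¹))
      (Or.inr le_rfl : Le w2 (w2 b) b)
    exact this.mono (by omega)
  have m1 := l1.resolve_left h0
  have m2 := l2.resolve_left h0
  omega

theorem upd_mem {ι : Type} {n : ℕ} {A : ι → Fin n → D} (hA : ∀ i t, A i t ∈ R) (k j : ι) {r : D}
    (hr : r ∈ R) : ∀ i t, upd A k (A k + r • A j) i t ∈ R := by
  intro i t
  by_cases h : i = k
  · subst h
    rw [upd_self]
    exact R.add_mem (hA _ _) (R.mul_mem hr (hA _ _))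
  · rw [upd_of_ne h]
    exact hA _ _

/-- The measure of a column. -/
noncomputable def meas {ι : Type} [Fintype ι] (w1 w2 : D → ℤ) (a : ι → D) : ℕ :=
  ∑ k, if a k = 0 then 0 else (w1 (a k) + w2 (a k)).toNat + 1

theorem col_clear (hE : Euc R w1 w2) {ι : Type} [Fintype ι] [Nonempty ι] {n : ℕ} :
    ∀ (N : ℕ) (A : ι → Fin (n + 1) → D), (∀ i t, A i t ∈ R) →
      meas w1 w2 (fun k => A k 0) = N →
      ∃ B, Reach R A B ∧ (∀ i t, B i t ∈ R) ∧ ∃ i0, ∀ k, k ≠ i0 → B k 0 = 0 := by
  intro N
  induction N using Nat.strong_induction_on with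
  | _ N ih =>
    intro A hA hN
    by_cases hone : ∃ i0, ∀ k, k ≠ i0 → A k 0 = 0
    · exact ⟨A, Relation.ReflTransGen.refl, hA, hone⟩
    push Not at hone
    -- two nonzero entries
    have key : ∀ i j : ι, i ≠ j → A i 0 ≠ 0 → A j 0 ≠ 0 →
        w1 (A j 0) + w2 (A j 0) ≤ w1 (A i 0) + w2 (A i 0) →
        ∃ B, Reach R A B ∧ (∀ i t, B i t ∈ R) ∧ ∃ i0, ∀ k, k ≠ i0 → B k 0 = 0 := by
      intro i j hij hi hj hle
      obtain ⟨q, hq, hq2⟩ := euc_step hE (hA i 0) (hA j 0) hi hj hle
      have hmem := upd_mem hA i j (R.neg_mem hq)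
      have hlt : meas w1 w2 (fun k => upd A i (A i + (-q) • A j) k 0) < N := by
        rw [← hN]
        unfold meas
        apply Finset.sum_lt_sum
        · intro k _
          beta_reduce
          by_cases hk : k = i
          · subst hk
            rw [upd_self]
            have e : (A k + (-q) • A j) 0 = A k 0 - q * A j 0 := by
              simp [sub_eq_add_neg]
            rw [e, if_neg hi]
            by_cases h0 : A k 0 - q * A j 0 = 0
            · rw [if_pos h0]; omega
            · rw [if_neg h0]
              have := hq2.resolve_left h0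
              omega
          · rw [upd_of_ne hk]
        · refine ⟨i, Finset.mem_univ _, ?_⟩
          beta_reduce
          rw [upd_self]
          have e : (A i + (-q) • A j) 0 = A i 0 - q * A j 0 := by
            simp [sub_eq_add_neg]
          rw [e, if_neg hi]
          by_cases h0 : A i 0 - q * A j 0 = 0
          · rw [if_pos h0]; omega
          · rw [if_neg h0]
            have h5 := hq2.resolve_left h0
            have h6 := hE.nonneg _ (R.sub_mem (hA i 0) (R.mul_mem hq (hA j 0))) h0
            omega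
      obtain ⟨B, h1, h2, h3⟩ := ih _ hlt _ hmem rfl
      refine ⟨B, Relation.ReflTransGen.head ⟨i, j, -q, R.neg_mem hq, hij, rfl⟩ h1, h2, h3⟩
    obtain ⟨k1, -, hk1⟩ := hone (Classical.arbitrary ι)
    obtain ⟨k2, hk2, hk3⟩ := hone k1
    rcases le_total (w1 (A k1 0) + w2 (A k1 0)) (w1 (A k2 0) + w2 (A k2 0)) with h | h
    · exact key k2 k1 hk2 hk3 hk1 h
    · exact key k1 k2 hk2.symm hk1 hk3 h

/-- The family with the rows of `C` (preceded by a zero) and the row `b`. -/
noncomputable def fullF {ι : Type} {n : ℕ} (i0 : ι) (b : Fin (n + 1) → D)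
    (C : {k : ι // k ≠ i0} → Fin n → D) : ι → Fin (n + 1) → D :=
  fun k => if h : k ≠ i0 then Fin.cons 0 (C ⟨k, h⟩) else b

theorem fullF_step {ι : Type} {n : ℕ} (i0 : ι) (b : Fin (n + 1) → D)
    {C C' : {k : ι // k ≠ i0} → Fin n → D} (h : RStep R C C') :
    RStep R (fullF i0 b C) (fullF i0 b C') := by
  obtain ⟨k, j, r, hr, hkj, rfl⟩ := h
  refine ⟨k.1, j.1, r, hr, fun h => hkj (Subtype.ext h), ?_⟩
  funext i
  by_cases hi : i = k.1
  · subst hi
    rw [upd_self]
    unfold fullF
    rw [dif_pos k.2, dif_pos k.2, dif_pos j.2, upd_self]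
    funext t
    refine Fin.cases ?_ (fun t => ?_) t
    · simp
    · simp
  · rw [upd_of_ne hi]
    unfold fullF
    by_cases h : i ≠ i0
    · rw [dif_pos h, dif_pos h, upd_of_ne (fun h' => hi (congrArg Subtype.val h'))]
    · rw [dif_neg h, dif_neg h]

theorem fullF_reach {ι : Type} {n : ℕ} (i0 : ι) (b : Fin (n + 1) → D)
    {C C' : {k : ι // k ≠ i0} → Fin n → D} (h : Reach R C C') :
    Reach R (fullF i0 b C) (fullF i0 b C') := by
  induction h with
  | refl => exact Relation.ReflTransGen.refl
  | tail _ hs ih => exact Relation.ReflTransGen.tail ih (fullF_step i0 b hs)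

/-- The family with the rows of `C` preceded by zeros. -/
noncomputable def consF {ι : Type} {n : ℕ} (C : ι → Fin n → D) : ι → Fin (n + 1) → D :=
  fun k => Fin.cons 0 (C k)

theorem consF_reach {ι : Type} {n : ℕ} {C C' : ι → Fin n → D} (h : Reach R C C') :
    Reach R (consF C) (consF C') := by
  induction h with
  | refl => exact Relation.ReflTransGen.refl
  | tail _ hs ih =>
    refine Relation.ReflTransGen.tail ih ?_
    obtain ⟨k, j, r, hr, hkj, rfl⟩ := hs
    refine ⟨k, j, r, hr, hkj, ?_⟩
    funext i
    by_cases hi : i = k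
    · subst hi
      rw [upd_self]
      unfold consF
      rw [upd_self]
      funext t
      refine Fin.cases ?_ (fun t => ?_) t
      · simp
      · simp
    · rw [upd_of_ne hi]
      unfold consF
      rw [upd_of_ne hi]

theorem echelon (hE : Euc R w1 w2) (n : ℕ) : ∀ (ι : Type) [Fintype ι] (A : ι → Fin n → D),
    (∀ i t, A i t ∈ R) → n ≤ Fintype.card ι → ∃ B, Reach R A B ∧ (∀ i t, B i t ∈ R) ∧
      ((∃ k, B k = 0) ∨ (Fintype.card ι = n ∧ ∃ e : ι → Fin n, Function.Injective e ∧
        (∀ k, B k (e k) ≠ 0) ∧ ∀ k t, t < e k → B k t = 0)) := by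
  induction n with
  | zero =>
    intro ι _ A hA _
    refine ⟨A, Relation.ReflTransGen.refl, hA, ?_⟩
    by_cases hne : Nonempty ι
    · left
      exact ⟨hne.some, Subsingleton.elim _ _⟩
    · right
      rw [not_nonempty_iff] at hne
      exact ⟨Fintype.card_eq_zero, fun k => (hne.false k).elim, fun k => (hne.false k).elim,
        fun k => (hne.false k).elim, fun k => (hne.false k).elim⟩
  | succ n ih =>
    intro ι _ A hA hc
    have : Nonempty ι := Fintype.card_pos_iff.1 (by omega)
    obtain ⟨B, h1, h2, i0, h3⟩ := col_clear hE _ A hA rfl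
    by_cases h0 : B i0 0 = 0
    · -- the column is zero
      have hcol : ∀ k, B k 0 = 0 := fun k => by
        by_cases hk : k = i0
        · rw [hk]; exact h0
        · exact h3 k hk
      obtain ⟨C, g1, g2, g3⟩ := ih ι (fun k t => B k t.succ) (fun i t => h2 _ _) (by omega)
      have hBc : consF (fun k t => B k t.succ) = B := by
        funext k t
        refine Fin.cases ?_ (fun t => ?_) t
        · simp [consF, hcol]
        · simp [consF]
      refine ⟨consF C, h1.trans (hBc ▸ consF_reach g1), ?_, ?_⟩
      · intro i t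
        refine Fin.cases ?_ (fun t => ?_) t
        · simp only [consF, Fin.cons_zero]; exact R.zero_mem
        · simp only [consF, Fin.cons_succ]; exact g2 _ _
      · rcases g3 with ⟨k, hk⟩ | ⟨hcc, _⟩
        · left
          refine ⟨k, ?_⟩
          funext t
          refine Fin.cases ?_ (fun t => ?_) t
          · simp [consF]
          · simp [consF, hk]
        · omega
    · obtain ⟨C, g1, g2, g3⟩ := ih {k : ι // k ≠ i0} (fun k t => B k.1 t.succ)
        (fun i t => h2 _ _) (by
          rw [Fintype.card_subtype_compl]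
          simp
          omega)
      have hBf : fullF i0 (B i0) (fun k t => B k.1 t.succ) = B := by
        funext k
        unfold fullF
        by_cases hk : k ≠ i0
        · rw [dif_pos hk]
          funext t
          refine Fin.cases ?_ (fun t => ?_) t
          · simp [h3 k hk]
          · simp
        · rw [dif_neg hk]
          push Not at hk
          rw [hk]
      have hre : Reach R B (fullF i0 (B i0) C) := by
        have h := fullF_reach i0 (B i0) g1
        rw [hBf] at h
        exact h
      refine ⟨fullF i0 (B i0) C, h1.trans hre, ?_, ?_⟩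
      · intro i t
        unfold fullF
        by_cases hk : i ≠ i0
        · rw [dif_pos hk]
          refine Fin.cases ?_ (fun t => ?_) t
          · simp only [Fin.cons_zero]; exact R.zero_mem
          · simp only [Fin.cons_succ]; exact g2 _ _
        · rw [dif_neg hk]
          exact h2 _ _
      · rcases g3 with ⟨k, hk⟩ | ⟨hcc, e, he1, he2, he3⟩
        · left
          refine ⟨k.1, ?_⟩
          unfold fullF
          rw [dif_pos k.2]
          funext t
          refine Fin.cases ?_ (fun t => ?_) t
          · simp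
          · simp [hk]
        · right
          refine ⟨?_, fun k => if h : k ≠ i0 then (e ⟨k, h⟩).succ else 0, ?_, ?_, ?_⟩
          · have h9 : Fintype.card {k : ι // k ≠ i0} = Fintype.card ι - 1 := by
              rw [Fintype.card_subtype_compl]; simp
            omega
          · intro k l hkl
            by_cases hk : k ≠ i0
            · by_cases hl : l ≠ i0
              · simp only [dif_pos hk, dif_pos hl] at hkl
                have := he1 (Fin.succ_injective _ hkl)
                exact congrArg Subtype.val this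
              · simp only [dif_pos hk, dif_neg hl] at hkl
                exact absurd hkl (Fin.succ_ne_zero _)
            · by_cases hl : l ≠ i0
              · simp only [dif_neg hk, dif_pos hl] at hkl
                exact absurd hkl.symm (Fin.succ_ne_zero _)
              · push Not at hk hl
                rw [hk, hl]
          · intro k
            unfold fullF
            by_cases hk : k ≠ i0
            · simp only [dif_pos hk, Fin.cons_succ]
              exact he2 _
            · simp only [dif_neg hk]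
              exact h0
          · intro k t ht
            unfold fullF
            by_cases hk : k ≠ i0
            · simp only [dif_pos hk] at ht ⊢
              revert ht
              refine Fin.cases ?_ (fun t => ?_) t
              · intro _; simp
              · intro ht
                rw [Fin.cons_succ]
                exact he3 _ t (Fin.succ_lt_succ_iff.1 ht)
            · simp only [dif_neg hk] at ht
              exact absurd ht (Fin.not_lt_zero _)

/-- Row operations do not change the determinant. -/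
theorem step_wdet {w : D → ℤ} (hw : ∀ x y : D, x ≠ 0 → y ≠ 0 → w (x * y) = w x + w y) {ι : Type}
    [Fintype ι] {n : ℕ} (hc : Fintype.card ι = n) {A B : ι → Fin n → D}
    (hA : LinearIndependent D A) (h : RStep R A B) :
    LinearIndependent D B ∧ wdet w n ι B = wdet w n ι A := by
  obtain ⟨k, j, r, hr, hkj, rfl⟩ := h
  let c : ι → D := fun i => if i = k then 1 else if i = j then r else 0
  have hck : c k = 1 := by simp [c]
  have hsum : ∑ i, c i • A i = A k + r • A j := by
    rw [Fintype.sum_eq_add_sum_subtype_ne _ k, hck, one_smul]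
    congr 1
    rw [Finset.sum_eq_single (⟨j, hkj.symm⟩ : {i : ι // i ≠ k})]
    · have : c j = r := by simp [c, hkj.symm]
      rw [this]
    · intro b _ hb
      have hb' : b.1 ≠ j := fun h => hb (Subtype.ext h)
      have : c b.1 = 0 := by simp [c, b.2, hb']
      rw [this, zero_smul]
    · intro h
      exact absurd (Finset.mem_univ _) h
  rw [← hsum]
  have hne : c k ≠ 0 := by rw [hck]; exact one_ne_zero
  refine ⟨li_update hA k c hne, ?_⟩
  rw [wdet_upd hw A k c hA hc hne, hck, w_one hw, zero_add]

theorem reach_wdet {w : D → ℤ} (hw : ∀ x y : D, x ≠ 0 → y ≠ 0 → w (x * y) = w x + w y) {ι : Type}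
    [Fintype ι] {n : ℕ} (hc : Fintype.card ι = n) {A B : ι → Fin n → D}
    (hA : LinearIndependent D A) (h : Reach R A B) :
    LinearIndependent D B ∧ wdet w n ι B = wdet w n ι A := by
  induction h with
  | refl => exact ⟨hA, rfl⟩
  | tail _ hs ih =>
    have h1 := step_wdet hw hc ih.1 hs
    exact ⟨h1.1, h1.2.trans ih.2⟩

/-- Row operations for the leading parts can be performed on the whole family. -/
theorem reach_transfer {ι : Type} {n : ℕ} (N : AddSubgroup D) (hN : ∀ r ∈ R, ∀ y ∈ N, r * y ∈ N)
    {A0 B0 : ι → Fin n → D} (h : Reach R A0 B0) (A : ι → Fin n → D)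
    (hA : ∀ i t, A i t - A0 i t ∈ N) : ∃ B, Reach R A B ∧ ∀ i t, B i t - B0 i t ∈ N := by
  induction h with
  | refl => exact ⟨A, Relation.ReflTransGen.refl, hA⟩
  | tail _ hs ih =>
    obtain ⟨B, h1, h2⟩ := ih
    obtain ⟨k, j, r, hr, hkj, rfl⟩ := hs
    refine ⟨upd B k (B k + r • B j), Relation.ReflTransGen.tail h1 ⟨k, j, r, hr, hkj, rfl⟩, ?_⟩
    intro i t
    by_cases hi : i = k
    · subst hi
      rw [upd_self, upd_self]
      have e : ∀ (x y x' y' : D), (x + r * y) - (x' + r * y') = (x - x') + r * (y - y') := by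
        intro x y x' y'
        rw [mul_sub]
        abel
      simp only [Pi.add_apply, Pi.smul_apply, smul_eq_mul]
      rw [e]
      exact N.add_mem (h2 _ _) (hN r hr _ (h2 _ _))
    · rw [upd_of_ne hi, upd_of_ne hi]
      exact h2 _ _

/-- The determinant of a triangular family. -/
theorem wdet_echelon {w : D → ℤ} (hw : ∀ x y : D, x ≠ 0 → y ≠ 0 → w (x * y) = w x + w y) {n : ℕ}
    (B : Fin n → Fin n → D) (e : Fin n → Fin n) (he : Function.Injective e)
    (h0 : ∀ k, B k (e k) ≠ 0) (h1 : ∀ k t, t < e k → B k t = 0) :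
    LinearIndependent D B ∧ wdet w n (Fin n) B = ∑ k, w (B k (e k)) := by
  have hbij : Function.Bijective e := Finite.injective_iff_bijective.1 he
  let e' : Fin n ≃ Fin n := Equiv.ofBijective e hbij
  have hY : LinearIndependent D (fun k => idF D n (e' k)) := (li_idF n).comp _ he
  have h2 := wdet_tri hw (fun k => idF D n (e' k)) B hY (by simp) (fun k => n - (e k : ℕ))
    (fun k => B k (e k)) h0 (fun i j => if e i < e j then B i (e j) else 0) (by
      intro i j hij
      rw [if_neg]
      intro hlt
      have h3 := (e i).2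
      have h4 := (e j).2
      have h5 : (e i : ℕ) < (e j : ℕ) := hlt
      omega) (by
      intro i
      have h3 : B i = ∑ j, B i (e' j) • idF D n (e' j) := by
        rw [Equiv.sum_comp e' (fun t => B i t • idF D n t)]
        have := congrFun (idF_mulF B) i
        exact this.symm
      conv_lhs => rw [h3]
      have h4 : ∀ j, B i (e' j) • idF D n (e' j) = (if j = i then B i (e i) • idF D n (e' i) else 0)
          + (if e i < e j then B i (e j) else 0) • idF D n (e' j) := by
        intro j
        by_cases hj : j = i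
        · subst hj
          rw [if_pos rfl, if_neg (lt_irrefl _), zero_smul, add_zero]
          rfl
        · rw [if_neg hj, zero_add]
          by_cases hlt : e i < e j
          · rw [if_pos hlt]; rfl
          · rw [if_neg hlt, zero_smul]
            have h5 : e j < e i := lt_of_le_of_ne (not_lt.1 hlt) (fun h => hj (he h))
            have h6 : B i (e' j) = 0 := h1 i _ h5
            rw [h6, zero_smul]
      rw [Finset.sum_congr rfl (fun j _ => h4 j), Finset.sum_add_distrib]
      congr 1
      rw [Finset.sum_ite_eq' univ i (fun _ => B i (e i) • idF D n (e' i)), if_pos (Finset.mem_univ _)])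
  refine ⟨h2.1, ?_⟩
  rw [h2.2, wdet_reindex hw e' (idF D n) (li_idF n) (by simp), wdet_idF hw, add_zero]

end

end Pool.Agent.Y352.SP
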