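import Pool.Agent.Y352.SP.Det3

/-!
# Classes in `K_1` of a division ring

`K1Rep M x` says that the square matrix `M` and the unit `x` define the same class in `K_1(D)`.
We show that `wdet w` of `M` is then `w x`, and that every invertible matrix is represented by a
unit.
-/

set_option autoImplicit false

namespace Pool.Agent.Y352.SP

open Finset
open scoped Classical

/-- The square matrix `M` and the `1 × 1` matrix `x` have, after stabilisation by identity
matrices, the same class modulo elementary matrices: `M ⊕ 1 = E (1 ⊕ x ⊕ 1)` with a product `E`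
of elementary matrices `1 + c e_{ij}`, `i ≠ j`. -/
def K1Rep {D : Type} [DivisionRing D] {b : ℕ} (M : Matrix (Fin b) (Fin b) D) (x : D) : Prop :=
  ∃ (N : ℕ) (E : Matrix (Fin b ⊕ Fin (N + 1)) (Fin b ⊕ Fin (N + 1)) D),
    E ∈ Submonoid.closure {T : Matrix (Fin b ⊕ Fin (N + 1)) (Fin b ⊕ Fin (N + 1)) D |
      ∃ (i j : Fin b ⊕ Fin (N + 1)) (c : D), i ≠ j ∧ T = 1 + Matrix.single i j c} ∧
    Matrix.fromBlocks M 0 0 (1 : Matrix (Fin (N + 1)) (Fin (N + 1)) D) =
      E * Matrix.diagonal (Function.update (fun _ => 1) (Sum.inr 0) x)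

section
variable {D : Type} [DivisionRing D]

/-- The rows of a matrix, with the columns renumbered. -/
def cl {ι κ : Type} {n : ℕ} (e : κ ≃ Fin n) (M : ι → κ → D) : ι → Fin n → D :=
  fun i j => M i (e.symm j)

/-- The rows of the identity matrix. -/
noncomputable def oneF (D : Type) [DivisionRing D] (κ : Type) : κ → κ → D :=
  fun i => Pi.single i 1

/-- The product of matrices. -/
def mulG {κ : Type} [Fintype κ] (X Y : κ → κ → D) : κ → κ → D := fun i j => ∑ k, X i k * Y k j

/-- Block sum with an identity matrix. -/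
noncomputable def blkF {b : ℕ} (N : ℕ) (A : Fin b → Fin b → D) :
    Fin b ⊕ Fin N → Fin b ⊕ Fin N → D :=
  Sum.elim (fun i => Sum.elim (A i) 0) (fun i => Sum.elim 0 (Pi.single i 1))

theorem oneF_apply' {κ : Type} (s t : κ) :
    oneF D κ s t = if s = t then 1 else 0 := by
  unfold oneF
  rw [Pi.single_apply]
  by_cases h : s = t
  · rw [if_pos h, if_pos h.symm]
  · rw [if_neg h, if_neg (fun h' => h h'.symm)]

theorem oneF_apply {κ : Type} [DecidableEq κ] (s t : κ) :
    oneF D κ s t = if s = t then 1 else 0 := by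
  rw [oneF_apply']
  by_cases h : s = t
  · rw [if_pos h, if_pos h]
  · rw [if_neg h, if_neg h]

theorem li_of_mul {ι : Type} [Fintype ι] {n : ℕ} {m : ℕ} {X : ι → Fin m → D}
    {Y : Fin m → Fin n → D} (h : LinearIndependent D (mulF X Y)) : LinearIndependent D X := by
  rw [Fintype.linearIndependent_iff] at h ⊢
  intro g hg
  apply h g
  have h1 : ∑ i, g i • mulF X Y i = ∑ j, (∑ i, g i * X i j) • Y j := by
    simp only [mulF, Finset.smul_sum, Finset.sum_smul, smul_smul]
    exact Finset.sum_comm
  rw [h1]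
  refine Finset.sum_eq_zero fun j _ => ?_
  have h2 := congrFun hg j
  rw [Finset.sum_apply] at h2
  have h3 : ∑ i, g i * X i j = 0 := by simpa using h2
  rw [h3, zero_smul]

variable {w : D → ℤ} (hw : ∀ x y : D, x ≠ 0 → y ≠ 0 → w (x * y) = w x + w y)
include hw

/-- Multiplicativity with arbitrary row indices. -/
theorem wdet_mul' {n : ℕ} {ι : Type} [Fintype ι] (e : Fin n ≃ ι) {X : ι → Fin n → D}
    {Y : Fin n → Fin n → D} (hX : LinearIndependent D X) (hY : LinearIndependent D Y) :
    LinearIndependent D (mulF X Y) ∧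
    wdet w n ι (mulF X Y) = wdet w n ι X + wdet w n (Fin n) Y := by
  have hc : Fintype.card ι = n := by rw [← Fintype.card_congr e]; simp
  have hX' : LinearIndependent D (fun i => X (e i)) := hX.comp _ e.injective
  have h1 := wdet_mul_aux hw Y hY (fun i => X (e i)) hX'
  have h2 : LinearIndependent D (mulF X Y) := by
    have h3 : mulF X Y = (mulF (fun i => X (e i)) Y) ∘ e.symm := by
      funext i
      simp [mulF]
    rw [h3]
    exact h1.1.comp _ e.symm.injective
  refine ⟨h2, ?_⟩
  rw [← wdet_reindex hw e (mulF X Y) h2 hc, ← wdet_reindex hw e X hX hc]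
  exact h1.2

/-- A permutation of the rows of the identity. -/
theorem wdet_perm {n : ℕ} {ι : Type} [Fintype ι] (e : ι ≃ Fin n) :
    LinearIndependent D (fun i => idF D n (e i)) ∧
      wdet w n ι (fun i => idF D n (e i)) = 0 := by
  refine ⟨(li_idF n).comp _ e.injective, ?_⟩
  rw [wdet_reindex hw e (idF D n) (li_idF n) (by simp), wdet_idF hw]

omit hw in
theorem cl_one {κ : Type} {n : ℕ} (e : κ ≃ Fin n) :
    cl e (oneF D κ) = fun i => idF D n (e i) := by
  funext i j
  unfold cl idF oneF
  rw [Pi.single_apply, Pi.single_apply]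
  by_cases h : e.symm j = i
  · rw [if_pos h, if_pos (by rw [← h]; simp)]
  · rw [if_neg h, if_neg (fun h' => h (by rw [h']; simp))]

omit hw in
theorem cl_mul {κ : Type} [Fintype κ] {n : ℕ} (e : κ ≃ Fin n) (X Y : κ → κ → D) :
    cl e (mulG X Y) = mulF (cl e X) (fun i => cl e Y (e.symm i)) := by
  funext i j
  unfold cl mulF mulG
  rw [Finset.sum_apply, ← Equiv.sum_comp e.symm]
  rfl

/-- Square matrices indexed by an arbitrary finite type: the product formula. -/
theorem wdet_cl_mul {κ : Type} [Fintype κ] {n : ℕ} (e : κ ≃ Fin n) {X Y : κ → κ → D}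
    (hX : LinearIndependent D (cl e X)) (hY : LinearIndependent D (cl e Y)) :
    LinearIndependent D (cl e (mulG X Y)) ∧
      wdet w n κ (cl e (mulG X Y)) = wdet w n κ (cl e X) + wdet w n κ (cl e Y) := by
  have hc : Fintype.card κ = n := by rw [Fintype.card_congr e]; simp
  rw [cl_mul]
  have hY' : LinearIndependent D (fun i => cl e Y (e.symm i)) := hY.comp _ e.symm.injective
  have h1 := wdet_mul' hw e.symm hX hY'
  refine ⟨h1.1, ?_⟩
  rw [h1.2, wdet_reindex hw e.symm (cl e Y) hY hc]

omit hw in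
theorem cl_upd {κ : Type} [Fintype κ] {n : ℕ} (e : κ ≃ Fin n) (X : κ → κ → D) (k : κ)
    (c : κ → D) : cl e (upd X k (∑ j, c j • X j)) = upd (cl e X) k (∑ j, c j • cl e X j) := by
  funext i j
  by_cases h : i = k
  · subst h
    show upd X i (∑ j, c j • X j) i (e.symm j) = _
    rw [upd_self, upd_self, Finset.sum_apply, Finset.sum_apply]
    rfl
  · show upd X k (∑ j, c j • X j) i (e.symm j) = _
    rw [upd_of_ne h, upd_of_ne h]
    rfl

omit hw in
theorem sum_oneF {κ : Type} [Fintype κ] (c : κ → D) : ∑ j, c j • oneF D κ j = c := by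
  funext i
  rw [Finset.sum_apply, Finset.sum_eq_single i]
  · simp [oneF]
  · intro j _ hj
    simp [oneF, Pi.single_apply, Ne.symm hj]
  · simp

/-- Changing one row of the identity matrix. -/
theorem wdet_one_upd {κ : Type} [Fintype κ] {n : ℕ} (e : κ ≃ Fin n) (k : κ)
    (c : κ → D) (hk : c k ≠ 0) :
    LinearIndependent D (cl e (upd (oneF D κ) k c)) ∧
      wdet w n κ (cl e (upd (oneF D κ) k c)) = w (c k) := by
  have hc : Fintype.card κ = n := by rw [Fintype.card_congr e]; simp
  have h1 : LinearIndependent D (cl e (oneF D κ)) := by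
    rw [cl_one]
    exact (wdet_perm hw e).1
  have h2 : cl e (upd (oneF D κ) k c) = upd (cl e (oneF D κ)) k (∑ j, c j • cl e (oneF D κ) j) := by
    rw [← cl_upd, sum_oneF]
  rw [h2]
  refine ⟨li_update h1 k c hk, ?_⟩
  rw [wdet_upd hw (cl e (oneF D κ)) k c h1 hc hk, cl_one, (wdet_perm hw e).2, add_zero]

omit hw in
theorem one_add_single {κ : Type} [Fintype κ] [DecidableEq κ] (i j : κ) (c : D) :
    (fun s t => ((1 : Matrix κ κ D) + Matrix.single i j c) s t) =
      upd (oneF D κ) i (Pi.single i 1 + Pi.single j c) := by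
  funext s t
  rw [Matrix.add_apply, Matrix.one_apply, Matrix.single_apply]
  by_cases hs : s = i
  · subst hs
    rw [upd_self, Pi.add_apply, Pi.single_apply, Pi.single_apply]
    simp only [true_and, eq_comm]
  · have h0 : ¬ (i = s ∧ j = t) := fun h => hs h.1.symm
    rw [upd_of_ne hs, if_neg h0, add_zero, oneF_apply]

theorem wdet_elem {κ : Type} [Fintype κ] [DecidableEq κ] {n : ℕ} (e : κ ≃ Fin n) (i j : κ) (c : D)
    (hij : i ≠ j) :
    LinearIndependent D (cl e (fun s t => ((1 : Matrix κ κ D) + Matrix.single i j c) s t)) ∧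
      wdet w n κ (cl e (fun s t => ((1 : Matrix κ κ D) + Matrix.single i j c) s t)) = 0 := by
  have h0 : (Pi.single i 1 + Pi.single j c : κ → D) i = 1 := by
    rw [Pi.add_apply, Pi.single_eq_same, Pi.single_eq_of_ne hij, add_zero]
  rw [one_add_single i j c]
  have h1 := wdet_one_upd hw e i (Pi.single i 1 + Pi.single j c) (by rw [h0]; exact one_ne_zero)
  rw [h0, w_one hw] at h1
  exact h1

omit hw in
theorem one_oneF {κ : Type} [DecidableEq κ] : (fun s t => (1 : Matrix κ κ D) s t) = oneF D κ := by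
  funext s t
  rw [Matrix.one_apply, oneF_apply]

omit hw in
theorem mul_mulG {κ : Type} [Fintype κ] (X Y : Matrix κ κ D) :
    (fun s t => (X * Y) s t) = mulG (fun s t => X s t) (fun s t => Y s t) := by
  funext s t
  rw [Matrix.mul_apply]
  rfl

theorem wdet_closure {κ : Type} [Fintype κ] [DecidableEq κ] {n : ℕ} (e : κ ≃ Fin n) {E : Matrix κ κ D}
    (hE : E ∈ Submonoid.closure {T : Matrix κ κ D |
      ∃ (i j : κ) (c : D), i ≠ j ∧ T = 1 + Matrix.single i j c}) :
    LinearIndependent D (cl e (fun s t => E s t)) ∧ wdet w n κ (cl e (fun s t => E s t)) = 0 := by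
  induction hE using Submonoid.closure_induction with
  | mem T hT =>
    obtain ⟨i, j, c, hij, rfl⟩ := hT
    exact wdet_elem hw e i j c hij
  | one =>
    rw [one_oneF, cl_one]
    exact wdet_perm hw e
  | mul X Y _ _ hX hY =>
    have h := wdet_cl_mul hw e hX.1 hY.1
    rw [mul_mulG]
    refine ⟨h.1, ?_⟩
    rw [h.2, hX.2, hY.2, add_zero]

omit hw in
theorem diag_upd {κ : Type} [DecidableEq κ] (i : κ) (x : D) :
    (fun s t => (Matrix.diagonal (Function.update (fun _ => 1) i x) : Matrix κ κ D) s t) =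
      upd (oneF D κ) i (Pi.single i x) := by
  funext s t
  rw [Matrix.diagonal_apply]
  by_cases hs : s = i
  · subst hs
    rw [upd_self, Pi.single_apply, Function.update_self]
    simp only [eq_comm]
  · rw [upd_of_ne hs, Function.update_of_ne hs, oneF_apply]

theorem wdet_diag {κ : Type} [Fintype κ] [DecidableEq κ] {n : ℕ} (e : κ ≃ Fin n) (i : κ) (x : D) (hx : x ≠ 0) :
    LinearIndependent D (cl e (fun s t =>
      (Matrix.diagonal (Function.update (fun _ => 1) i x) : Matrix κ κ D) s t)) ∧
      wdet w n κ (cl e (fun s t =>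
        (Matrix.diagonal (Function.update (fun _ => 1) i x) : Matrix κ κ D) s t)) = w x := by
  rw [diag_upd]
  have h1 := wdet_one_upd hw e i (Pi.single i x) (by rw [Pi.single_eq_same]; exact hx)
  rw [Pi.single_eq_same] at h1
  exact h1

omit hw in
theorem blkF_upd {b N : ℕ} (A : Fin b → Fin b → D) (k : Fin b) (c : Fin b → D) :
    blkF N (upd A k (∑ j, c j • A j)) =
      upd (blkF N A) (Sum.inl k) (∑ j, (Sum.elim c 0 : Fin b ⊕ Fin N → D) j • (blkF N A) j) := by
  funext s t
  rcases s with s | s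
  · by_cases hs : s = k
    · subst hs
      rw [upd_self, Fintype.sum_sum_type]
      simp only [Sum.elim_inl, Sum.elim_inr, Pi.zero_apply, zero_smul, Finset.sum_const_zero,
        add_zero, Finset.sum_apply, Pi.smul_apply, blkF, upd_self]
      rcases t with t | t
      · simp only [Sum.elim_inl]
        rw [Finset.sum_apply]
        rfl
      · simp
    · rw [upd_of_ne (fun h => hs (Sum.inl_injective h))]
      simp only [blkF, Sum.elim_inl, upd_of_ne hs]
  · rw [upd_of_ne (by simp)]
    rfl

omit hw in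
theorem blkF_one {b N : ℕ} : blkF N (idF D b) = oneF D (Fin b ⊕ Fin N) := by
  funext s t
  rcases s with s | s <;> rcases t with t | t <;>
    simp [blkF, idF, oneF, Pi.single_apply]

omit hw in
theorem blocks_blkF {b N : ℕ} (A : Matrix (Fin b) (Fin b) D) :
    (fun s t => Matrix.fromBlocks A 0 0 (1 : Matrix (Fin N) (Fin N) D) s t) =
      blkF N (fun i j => A i j) := by
  funext s t
  rcases s with s | s <;> rcases t with t | t
  · rfl
  · rfl
  · rfl
  · rw [Matrix.fromBlocks_apply₂₂, Matrix.one_apply]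
    show _ = (Pi.single s 1 : Fin N → D) t
    rw [Pi.single_apply]
    simp only [eq_comm]

/-- Stabilisation does not change the determinant. -/
theorem wdet_blocks {b N n : ℕ} (e : Fin b ⊕ Fin N ≃ Fin n) (A : Fin b → Fin b → D)
    (hA : LinearIndependent D A) :
    LinearIndependent D (cl e (blkF N A)) ∧
      wdet w n (Fin b ⊕ Fin N) (cl e (blkF N A)) = wdet w b (Fin b) A := by
  have hc : Fintype.card (Fin b ⊕ Fin N) = n := by rw [Fintype.card_congr e]; simp
  refine generation (D := D) (fun A => LinearIndependent D (cl e (blkF N A)) ∧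
      wdet w n (Fin b ⊕ Fin N) (cl e (blkF N A)) = wdet w b (Fin b) A) ?_ ?_ A hA
  · rw [blkF_one, cl_one, wdet_idF hw]
    exact wdet_perm hw e
  · rintro A hA k c hk ⟨h1, h2⟩
    rw [blkF_upd, cl_upd]
    have hk' : (Sum.elim c 0 : Fin b ⊕ Fin N → D) (Sum.inl k) ≠ 0 := hk
    refine ⟨li_update h1 _ _ hk', ?_⟩
    rw [wdet_upd hw _ _ _ h1 hc hk', h2, wdet_upd hw A k c hA (by simp) hk]
    rfl

/-- The determinant only depends on the class in `K_1`. -/
theorem wdet_of_k1rep {b : ℕ} {M : Matrix (Fin b) (Fin b) D} {x : D} (hx : x ≠ 0)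
    (hM : LinearIndependent D (fun i j => M i j)) (h : K1Rep M x) :
    wdet w b (Fin b) (fun i j => M i j) = w x := by
  obtain ⟨N, E, hE, h⟩ := h
  let e : Fin b ⊕ Fin (N + 1) ≃ Fin (b + (N + 1)) := finSumFinEquiv
  have h1 := wdet_blocks hw e (fun i j => M i j) hM
  have h2 := wdet_closure hw e hE
  have h3 := wdet_diag hw e (Sum.inr 0) x hx
  have h4 := wdet_cl_mul hw e h2.1 h3.1
  rw [← mul_mulG, ← h, blocks_blkF, h1.2, h2.2, h3.2, zero_add] at h4
  exact h4.2

end

end Pool.Agent.Y352.SP
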