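import Pool.Agent.Y352.SP.K1

/-!
# Every invertible matrix over a division ring is represented in `K_1` by a unit
-/

set_option autoImplicit false

namespace Pool.Agent.Y352.SP

open Finset
open scoped Classical

section
variable {D : Type} [DivisionRing D] {κ : Type} [Fintype κ] [DecidableEq κ]

/-- The monoid generated by the elementary matrices. -/
def ElM (D : Type) [DivisionRing D] (κ : Type) [Fintype κ] [DecidableEq κ] :
    Submonoid (Matrix κ κ D) :=
  Submonoid.closure {T : Matrix κ κ D | ∃ (i j : κ) (c : D), i ≠ j ∧ T = 1 + Matrix.single i j c}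

/-- `X` arises from `Y` by elementary row operations. -/
def Rel (X Y : κ → κ → D) : Prop := ∃ E ∈ ElM D κ, X = mulG (fun s t => E s t) Y

omit [DecidableEq κ] in
theorem mulG_assoc (X Y Z : κ → κ → D) : mulG (mulG X Y) Z = mulG X (mulG Y Z) := by
  funext i j
  unfold mulG
  simp only [Finset.sum_mul, Finset.mul_sum, mul_assoc]
  exact Finset.sum_comm

omit [DecidableEq κ] in
theorem oneF_mulG (X : κ → κ → D) : mulG (oneF D κ) X = X := by
  funext i j
  unfold mulG
  rw [Finset.sum_eq_single i]
  · rw [oneF_apply', if_pos rfl, one_mul]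
  · intro k _ hk
    rw [oneF_apply', if_neg (fun h => hk h.symm), zero_mul]
  · simp

theorem Rel.refl (X : κ → κ → D) : Rel X X :=
  ⟨1, one_mem _, by rw [one_oneF, oneF_mulG]⟩

theorem Rel.trans {X Y Z : κ → κ → D} (h1 : Rel X Y) (h2 : Rel Y Z) : Rel X Z := by
  obtain ⟨E, hE, rfl⟩ := h1
  obtain ⟨F, hF, rfl⟩ := h2
  exact ⟨E * F, mul_mem hE hF, by rw [mul_mulG, mulG_assoc]⟩

theorem rel_row (X : κ → κ → D) (i j : κ) (hij : i ≠ j) (c : D) :
    Rel (upd X i (X i + c • X j)) X := by
  refine ⟨1 + Matrix.single i j c, Submonoid.subset_closure ⟨i, j, c, hij, rfl⟩, ?_⟩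
  rw [one_add_single]
  funext s t
  unfold mulG
  by_cases hs : s = i
  · subst hs
    simp only [upd_self]
    rw [Pi.add_apply, Pi.smul_apply, Finset.sum_eq_add s j hij]
    · rw [Pi.add_apply, Pi.add_apply, Pi.single_eq_same, Pi.single_eq_same,
        Pi.single_eq_of_ne hij, Pi.single_eq_of_ne hij.symm]
      simp
    · intro k _ hk
      rw [Pi.add_apply, Pi.single_eq_of_ne hk.1, Pi.single_eq_of_ne hk.2]
      simp
    · simp
    · simp
  · simp only [upd_of_ne hs]
    exact (congrFun (congrFun (oneF_mulG X) s) t).symm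

/-- Adding multiples of other rows. -/
theorem rel_rows (X : κ → κ → D) (k : κ) (v : κ → D) (c : κ → D) (s : Finset κ) (hs : k ∉ s) :
    Rel (upd X k (v + ∑ j ∈ s, c j • X j)) (upd X k v) := by
  induction s using Finset.induction_on with
  | empty =>
    rw [Finset.sum_empty, add_zero]
    exact Rel.refl _
  | insert a s ha ih =>
    have h1 : k ∉ s := fun h => hs (Finset.mem_insert_of_mem h)
    have h2 : k ≠ a := fun h => hs (h ▸ Finset.mem_insert_self a s)
    refine Rel.trans ?_ (ih h1)
    have h3 := rel_row (upd X k (v + ∑ j ∈ s, c j • X j)) k a h2 (c a)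
    have h4 : upd (upd X k (v + ∑ j ∈ s, c j • X j)) k
        ((upd X k (v + ∑ j ∈ s, c j • X j)) k + c a • (upd X k (v + ∑ j ∈ s, c j • X j)) a) =
        upd X k (v + ∑ j ∈ insert a s, c j • X j) := by
      rw [upd_self, upd_of_ne h2.symm, Finset.sum_insert ha]
      funext i
      by_cases hi : i = k
      · subst hi
        rw [upd_self, upd_self]
        abel
      · rw [upd_of_ne hi, upd_of_ne hi, upd_of_ne hi]
    rwa [h4] at h3

/-- Replace two rows. -/
noncomputable def upd2 (X : κ → κ → D) (k l : κ) (v w : κ → D) : κ → κ → D :=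
  fun i => if i = k then v else if i = l then w else X i

theorem upd2_upd_left (X : κ → κ → D) (k l : κ) (v w v' : κ → D) :
    upd (upd2 X k l v w) k v' = upd2 X k l v' w := by
  funext i
  unfold upd upd2
  by_cases h : i = k <;> simp [h]

theorem upd2_upd_right (X : κ → κ → D) (k l : κ) (hkl : k ≠ l) (v w w' : κ → D) :
    upd (upd2 X k l v w) l w' = upd2 X k l v w' := by
  funext i
  unfold upd upd2
  by_cases h : i = l
  · subst h
    simp [hkl.symm]
  · simp [h]

theorem upd2_k (X : κ → κ → D) (k l : κ) (v w : κ → D) : upd2 X k l v w k = v := by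
  simp [upd2]

theorem upd2_l (X : κ → κ → D) (k l : κ) (hkl : k ≠ l) (v w : κ → D) :
    upd2 X k l v w l = w := by
  simp [upd2, hkl.symm]

theorem rel2_k (X : κ → κ → D) (k l : κ) (hkl : k ≠ l) (v w : κ → D) (c : D) :
    Rel (upd2 X k l (v + c • w) w) (upd2 X k l v w) := by
  have h := rel_row (upd2 X k l v w) k l hkl c
  rwa [upd2_upd_left, upd2_k, upd2_l X k l hkl] at h

theorem rel2_l (X : κ → κ → D) (k l : κ) (hkl : k ≠ l) (v w : κ → D) (c : D) :
    Rel (upd2 X k l v (w + c • v)) (upd2 X k l v w) := by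
  have h := rel_row (upd2 X k l v w) l k hkl.symm c
  rwa [upd2_upd_right X k l hkl, upd2_k, upd2_l X k l hkl] at h

/-- The Whitehead lemma. -/
theorem rel_whitehead (X : κ → κ → D) (k l : κ) (hkl : k ≠ l) (v w : κ → D) (c : D)
    (hc : c ≠ 0) : Rel (upd2 X k l (c • v) w) (upd2 X k l v (c • w)) := by
  -- start with (v, c w) and reach (c v, w)
  have s1 := rel2_l X k l hkl v (c • w) (-1)
  have s2 := rel2_k X k l hkl v (c • w + (-1 : D) • v) 1
  have e2 : v + (1 : D) • (c • w + (-1 : D) • v) = c • w := by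
    rw [one_smul, neg_smul, one_smul]
    abel
  rw [e2] at s2
  have s3 := rel2_l X k l hkl (c • w) (c • w + (-1 : D) • v) (-1)
  have e3 : c • w + (-1 : D) • v + (-1 : D) • (c • w) = -v := by
    rw [neg_smul, one_smul, neg_smul, one_smul]
    abel
  rw [e3] at s3
  -- now (c w, -v)
  have s4 := rel2_l X k l hkl (c • w) (-v) c⁻¹
  have e4 : -v + c⁻¹ • (c • w) = w - v := by
    rw [smul_smul, inv_mul_cancel₀ hc, one_smul]
    abel
  rw [e4] at s4
  have s5 := rel2_k X k l hkl (c • w) (w - v) (-c)
  have e5 : c • w + (-c) • (w - v) = c • v := by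
    rw [neg_smul, smul_sub]
    abel
  rw [e5] at s5
  have s6 := rel2_l X k l hkl (c • v) (w - v) c⁻¹
  have e6 : w - v + c⁻¹ • (c • v) = w := by
    rw [smul_smul, inv_mul_cancel₀ hc, one_smul]
    abel
  rw [e6] at s6
  exact s6.trans (s5.trans (s4.trans (s3.trans (s2.trans s1))))

theorem upd_eq_upd2 (X : κ → κ → D) (k l : κ) (v : κ → D) :
    upd X k v = upd2 X k l v (X l) := by
  funext i
  unfold upd upd2
  by_cases h : i = k
  · simp [h]
  · by_cases h' : i = l
    · subst h'
      simp [h]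
    · simp [h, h']

theorem upd_eq_upd2' (X : κ → κ → D) (k l : κ) (v : κ → D) (hkl : k ≠ l) :
    upd X l v = upd2 X k l (X k) v := by
  funext i
  unfold upd upd2
  by_cases h : i = k
  · subst h
    simp [hkl]
  · by_cases h' : i = l
    · subst h'
      rw [if_pos rfl, if_neg h, if_pos rfl]
    · rw [if_neg h', if_neg h, if_neg h']

theorem rel_move (X : κ → κ → D) (k l : κ) (c : D) (hc : c ≠ 0) :
    Rel (upd X k (c • X k)) (upd X l (c • X l)) := by
  by_cases hkl : k = l
  · subst hkl
    exact Rel.refl _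
  · rw [upd_eq_upd2 X k l, upd_eq_upd2' X k l _ hkl]
    exact rel_whitehead X k l hkl (X k) (X l) c hc

theorem diag_conj (l : κ) (c : D) (hc : c ≠ 0) {E : Matrix κ κ D} (hE : E ∈ ElM D κ) :
    ∃ E' ∈ ElM D κ, Matrix.diagonal (Function.update (fun _ => 1) l c) * E =
      E' * Matrix.diagonal (Function.update (fun _ => 1) l c) := by
  unfold ElM at hE
  induction hE using Submonoid.closure_induction with
  | mem T hT =>
    obtain ⟨i, j, d, hij, rfl⟩ := hT
    let δ : κ → D := Function.update (fun _ => 1) l c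
    have hδ : ∀ i, δ i ≠ 0 := by
      intro i
      by_cases h : i = l
      · subst h
        simp [δ, hc]
      · simp [δ, Function.update_of_ne h]
    refine ⟨1 + Matrix.single i j (δ i * d * (δ j)⁻¹),
      Submonoid.subset_closure ⟨i, j, _, hij, rfl⟩, ?_⟩
    show Matrix.diagonal δ * _ = _ * Matrix.diagonal δ
    rw [mul_add, add_mul, mul_one, one_mul]
    congr 1
    funext s t
    rw [Matrix.diagonal_mul, Matrix.mul_diagonal, Matrix.single_apply, Matrix.single_apply]
    by_cases h : i = s ∧ j = t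
    · obtain ⟨rfl, rfl⟩ := h
      rw [if_pos ⟨rfl, rfl⟩, if_pos ⟨rfl, rfl⟩, mul_assoc _ _ (δ j), inv_mul_cancel₀ (hδ j),
        mul_one]
    · rw [if_neg h, if_neg h, mul_zero, zero_mul]
  | one => exact ⟨1, one_mem _, by rw [mul_one, one_mul]⟩
  | mul X Y _ _ hX hY =>
    obtain ⟨X', hX', h1⟩ := hX
    obtain ⟨Y', hY', h2⟩ := hY
    exact ⟨X' * Y', mul_mem hX' hY', by rw [← mul_assoc, h1, mul_assoc, h2, mul_assoc]⟩

theorem diag_mulG (l : κ) (c : D) (X : κ → κ → D) :
    mulG (fun s t => (Matrix.diagonal (Function.update (fun _ => 1) l c) : Matrix κ κ D) s t) X =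
      upd X l (c • X l) := by
  funext s t
  unfold mulG
  rw [Finset.sum_eq_single s]
  · beta_reduce
    rw [Matrix.diagonal_apply_eq]
    by_cases h : s = l
    · subst h
      rw [Function.update_self, upd_self]
      rfl
    · rw [Function.update_of_ne h, upd_of_ne h, one_mul]
  · intro k _ hk
    beta_reduce
    rw [Matrix.diagonal_apply_ne _ (fun h => hk h.symm), zero_mul]
  · simp

end

/-- Every invertible matrix is represented by a unit. -/
theorem k1_exists {D : Type} [DivisionRing D] {b : ℕ} (M : Matrix (Fin b) (Fin b) D)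
    (hM : LinearIndependent D (fun i j => M i j)) : ∃ x : D, x ≠ 0 ∧ K1Rep M x := by
  have key : ∀ A : Fin b → Fin b → D, LinearIndependent D A → ∃ x : D, x ≠ 0 ∧
      Rel (blkF 1 A) (fun s t => (Matrix.diagonal (Function.update (fun _ => 1) (Sum.inr 0) x) :
        Matrix (Fin b ⊕ Fin 1) (Fin b ⊕ Fin 1) D) s t) := by
    refine generation _ ?_ ?_
    · refine ⟨1, one_ne_zero, ?_⟩
      have h1 : (Function.update (fun _ => 1) (Sum.inr 0) 1 : Fin b ⊕ Fin 1 → D) = fun _ => 1 :=
        Function.update_eq_self_iff.2 rfl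
      rw [h1, blkF_one]
      have h2 : (fun s t => (Matrix.diagonal (fun _ => 1) :
          Matrix (Fin b ⊕ Fin 1) (Fin b ⊕ Fin 1) D) s t) = oneF D _ := by
        rw [← one_oneF]
        rfl
      rw [h2]
      exact Rel.refl _
    · rintro A hA k c hk ⟨x, hx, hrel⟩
      refine ⟨c k * x, mul_ne_zero hk hx, ?_⟩
      rw [blkF_upd]
      set X := blkF 1 A
      have h1 : ∑ j, (Sum.elim c 0 : Fin b ⊕ Fin 1 → D) j • X j =
          c k • X (Sum.inl k) + ∑ j ∈ Finset.univ.erase (Sum.inl k),
            (Sum.elim c 0 : Fin b ⊕ Fin 1 → D) j • X j := by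
        rw [← Finset.add_sum_erase _ _ (Finset.mem_univ (Sum.inl k))]
        rfl
      rw [h1]
      refine (rel_rows X (Sum.inl k) _ _ _ (by simp)).trans ?_
      refine (rel_move X (Sum.inl k) (Sum.inr 0) (c k) hk).trans ?_
      obtain ⟨E, hE, hE2⟩ := hrel
      obtain ⟨E', hE', hE2'⟩ := diag_conj (Sum.inr 0) (c k) hk hE
      refine ⟨E', hE', ?_⟩
      have e1 := mul_mulG (Matrix.diagonal (Function.update (fun _ => 1) (Sum.inr 0) (c k)) :
        Matrix (Fin b ⊕ Fin 1) (Fin b ⊕ Fin 1) D) E
      have e2 := mul_mulG E' (Matrix.diagonal (Function.update (fun _ => 1) (Sum.inr 0) (c k)) :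
        Matrix (Fin b ⊕ Fin 1) (Fin b ⊕ Fin 1) D)
      have e3 := mul_mulG (Matrix.diagonal (Function.update (fun _ => 1) (Sum.inr 0) (c k)) :
        Matrix (Fin b ⊕ Fin 1) (Fin b ⊕ Fin 1) D)
        (Matrix.diagonal (Function.update (fun _ => 1) (Sum.inr 0) x))
      have e4 : (Matrix.diagonal (Function.update (fun _ => 1) (Sum.inr 0) (c k)) :
          Matrix (Fin b ⊕ Fin 1) (Fin b ⊕ Fin 1) D) *
          Matrix.diagonal (Function.update (fun _ => 1) (Sum.inr 0) x) =
          Matrix.diagonal (Function.update (fun _ => 1) (Sum.inr 0) (c k * x)) := by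
        rw [Matrix.diagonal_mul_diagonal]
        congr 1
        funext i
        by_cases hi : i = Sum.inr 0
        · subst hi
          rw [Function.update_self, Function.update_self, Function.update_self]
        · rw [Function.update_of_ne hi, Function.update_of_ne hi, Function.update_of_ne hi,
            one_mul]
      rw [← diag_mulG, hE2, ← mulG_assoc, ← e1, hE2', e2, mulG_assoc, ← e3, e4]
  obtain ⟨x, hx, E, hE, h⟩ := key _ hM
  refine ⟨x, hx, 0, E, hE, ?_⟩
  rw [← blocks_blkF, ← mul_mulG] at h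
  funext s t
  exact congrFun (congrFun h s) t

end Pool.Agent.Y352.SP
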