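import Pool.Agent.Y352.SP.Sp

/-!
# The degree valuations of the division ring of a group
-/

set_option autoImplicit false

namespace Pool.Agent.Y352.SP

open Finset TN970
open scoped Classical

/-- The value of a character to `ℤ`, written additively. -/
def dg {Γ : Type} [Group Γ] (η : Γ →* Multiplicative ℤ) (g : Γ) : ℤ := Multiplicative.toAdd (η g)

section
variable {Γ : Type} [Group Γ]

theorem dg_mul (η : Γ →* Multiplicative ℤ) (g h : Γ) : dg η (g * h) = dg η g + dg η h := by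
  simp [dg]

theorem dg_one (η : Γ →* Multiplicative ℤ) : dg η 1 = 0 := by simp [dg]

theorem dg_inv (η : Γ →* Multiplicative ℤ) (g : Γ) : dg η g⁻¹ = - dg η g := by simp [dg]

theorem mem_ker_iff (η : Γ →* Multiplicative ℤ) (g : Γ) : g ∈ η.ker ↔ dg η g = 0 := by
  rw [MonoidHom.mem_ker]
  unfold dg
  constructor
  · intro h; rw [h]; rfl
  · intro h; exact Multiplicative.toAdd.injective h

theorem dg_div (η : Γ →* Multiplicative ℤ) (g h : Γ) : g * h⁻¹ ∈ η.ker ↔ dg η g = dg η h := by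
  rw [mem_ker_iff, dg_mul, dg_inv]
  constructor <;> intro h <;> linarith

variable {D : Type} [DivisionRing D] (u : Γ →* Dˣ)

/-- The filtration by the degree. -/
def Fil (η : Γ →* Multiplicative ℤ) (m : ℤ) : Submodule (Dc u η.ker) D :=
  SpP u η.ker (fun g => dg η g ≤ m)

/-- `x` has the degree `m`. -/
def IsDeg (η : Γ →* Multiplicative ℤ) (m : ℤ) (x : D) : Prop :=
  ∃ (g : Γ) (c y : D), dg η g = m ∧ c ∈ Dc u η.ker ∧ c ≠ 0 ∧ y ∈ Fil u η (m - 1) ∧
    x = c * ((u g : Dˣ) : D) + y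

theorem fil_mono (η : Γ →* Multiplicative ℤ) {m n : ℤ} (h : m ≤ n) {x : D}
    (hx : x ∈ Fil u η m) : x ∈ Fil u η n :=
  sp_mono u η.ker (fun _ hg => le_trans hg h) hx

theorem fil_mul (η : Γ →* Multiplicative ℤ) {m n : ℤ} {x y : D} (hx : x ∈ Fil u η m)
    (hy : y ∈ Fil u η n) : x * y ∈ Fil u η (m + n) :=
  sp_mul u η.ker inferInstance (fun g h hg hh => by
    rw [dg_mul]; exact add_le_add hg hh) hx hy

theorem isDeg_fil {η : Γ →* Multiplicative ℤ} {m : ℤ} {x : D} (h : IsDeg u η m x) :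
    x ∈ Fil u η m := by
  obtain ⟨g, c, y, hg, hc, _, hy, rfl⟩ := h
  exact Submodule.add_mem _ (dc_smul u _ hc (u_mem u _ hg.le)) (fil_mono u η (by omega) hy)

theorem fil_sat (η : Γ →* Multiplicative ℤ) (m : ℤ) (g h : Γ) (hg : dg η g ≤ m)
    (hgh : h * g⁻¹ ∈ η.ker) : dg η h ≤ m := by
  rw [dg_div] at hgh
  omega

theorem isDeg_not_fil (hu : Linnell u) {η : Γ →* Multiplicative ℤ} {m : ℤ} {x : D}
    (h : IsDeg u η m x) : x ∉ Fil u η (m - 1) := by
  intro hx
  obtain ⟨g, c, y, hg, hc, hc0, hy, rfl⟩ := h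
  have h1 : -(c * ((u g : Dˣ) : D)) ∈ Fil u η (m - 1) := by
    have := Submodule.sub_mem _ hy hx
    have h2 : y - (c * ((u g : Dˣ) : D) + y) = -(c * ((u g : Dˣ) : D)) := by abel
    rwa [h2] at this
  obtain ⟨T, d, hT1, hT2, hT3⟩ := sp_rep u η.ker inferInstance (fil_sat η (m - 1)) h1
  have hgT : g ∉ T := fun h => by
    have := (hT1 g h).1
    omega
  have hTg : ∀ k ∈ T, k ≠ g := fun k hk h => hgT (by rw [← h]; exact hk)
  have h3 := lin_zero u hu η.ker inferInstance (insert g T) (fun k => if k = g then c else d k)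
    (by
      intro k hk
      rcases Finset.mem_insert.1 hk with hk | hk
      · rw [if_pos hk]; exact hc
      · rw [if_neg (hTg k hk)]; exact (hT1 k hk).2.1)
    (by
      intro k hk l hl hne hmem
      rw [dg_div] at hmem
      rcases Finset.mem_insert.1 hk with hk | hk
      · rcases Finset.mem_insert.1 hl with hl | hl
        · exact hne (by rw [hk, hl])
        · have h7 := (hT1 l hl).1
          rw [hk] at hmem
          omega
      · rcases Finset.mem_insert.1 hl with hl | hl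
        · have h7 := (hT1 k hk).1
          rw [hl] at hmem
          omega
        · exact hT2 k hk l hl hne ((dg_div η k l).2 hmem))
    (by
      rw [Finset.sum_insert hgT, if_pos rfl]
      have h4 : ∑ k ∈ T, (if k = g then c else d k) * ((u k : Dˣ) : D) =
          ∑ k ∈ T, d k * ((u k : Dˣ) : D) :=
        Finset.sum_congr rfl fun k hk => by rw [if_neg (hTg k hk)]
      rw [h4, ← hT3, add_neg_cancel])
  have h4 := h3 g (Finset.mem_insert_self _ _)
  rw [if_pos rfl] at h4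
  exact hc0 h4

theorem isDeg_unique (hu : Linnell u) {η : Γ →* Multiplicative ℤ} {m n : ℤ} {x : D}
    (h : IsDeg u η m x) (h' : IsDeg u η n x) : m = n := by
  rcases lt_trichotomy m n with hlt | heq | hlt
  · exact absurd (fil_mono u η (by omega) (isDeg_fil u h)) (isDeg_not_fil u hu h')
  · exact heq
  · exact absurd (fil_mono u η (by omega) (isDeg_fil u h')) (isDeg_not_fil u hu h)

theorem isDeg_mul {η : Γ →* Multiplicative ℤ} {m n : ℤ} {x y : D} (h : IsDeg u η m x)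
    (h' : IsDeg u η n y) : IsDeg u η (m + n) (x * y) := by
  have hx := isDeg_fil u h
  obtain ⟨g, c, z, hg, hc, hc0, hz, rfl⟩ := h
  have hy := isDeg_fil u h'
  obtain ⟨g', c', z', hg', hc', hc0', hz', rfl⟩ := h'
  obtain ⟨c'', hc'', he, hne⟩ := conj_move u η.ker inferInstance g hc'
  refine ⟨g * g', c * c'', c * ((u g : Dˣ) : D) * z' + z * (c' * ((u g' : Dˣ) : D) + z'), ?_, ?_,
    ?_, ?_, ?_⟩
  · rw [dg_mul, hg, hg']
  · exact mul_mem hc hc''
  · exact mul_ne_zero hc0 (hne hc0')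
  · apply Submodule.add_mem
    · have h1 : c * ((u g : Dˣ) : D) ∈ Fil u η m := dc_smul u _ hc (u_mem u _ hg.le)
      have h2 := fil_mul u η h1 hz'
      have h3 : m + (n - 1) = m + n - 1 := by ring
      rwa [h3] at h2
    · have h2 := fil_mul u η hz hy
      have h3 : m - 1 + n = m + n - 1 := by ring
      rwa [h3] at h2
  · have h1 : c * c'' * ((u (g * g') : Dˣ) : D) =
        c * ((u g : Dˣ) : D) * (c' * ((u g' : Dˣ) : D)) := by
      rw [u_mul, mul_assoc c c'', ← mul_assoc c'', ← he]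
      simp only [mul_assoc]
    rw [h1]
    noncomm_ring

theorem isDeg_exists {η : Γ →* Multiplicative ℤ} {x : D}
    (hx : x ∈ SpP u η.ker (fun _ => True)) (h0 : x ≠ 0) : ∃ m, IsDeg u η m x := by
  obtain ⟨T, c, hT1, hT2, rfl⟩ := sp_rep u η.ker inferInstance (fun _ _ _ _ => trivial) hx
  have hne : T.Nonempty := by
    rw [Finset.nonempty_iff_ne_empty]
    rintro rfl
    exact h0 (by simp)
  obtain ⟨g, hg, hmax⟩ := Finset.exists_max_image T (dg η) hne
  refine ⟨dg η g, g, c g, ∑ k ∈ T.erase g, c k * ((u k : Dˣ) : D), rfl, (hT1 g hg).2.1,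
    (hT1 g hg).2.2, ?_, (Finset.add_sum_erase T _ hg).symm⟩
  apply Submodule.sum_mem
  intro k hk
  have hk1 := Finset.mem_of_mem_erase hk
  have hk2 := Finset.ne_of_mem_erase hk
  refine dc_smul u _ (hT1 k hk1).2.1 (u_mem u _ ?_)
  have h3 := hmax k hk1
  have h4 : dg η k ≠ dg η g := fun h => hT2 k hk1 g hg hk2 ((dg_div η k g).2 h)
  omega

theorem rn_eq (L : Subgroup Γ) : RN u L ⊤ = SpP u L (fun _ => True) := by
  unfold RN SpP
  congr 1

theorem isDeg_sp {η : Γ →* Multiplicative ℤ} {m : ℤ} {x : D} (h : IsDeg u η m x) :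
    x ∈ SpP u η.ker (fun _ => True) := sp_mono u η.ker (fun _ _ => trivial) (isDeg_fil u h)

theorem comm_mem_ker (η : Γ →* Multiplicative ℤ) (x y : Γ) : x * y * x⁻¹ * y⁻¹ ∈ η.ker := by
  rw [mem_ker_iff]
  simp only [dg_mul, dg_inv]
  ring

theorem isDeg_ne (hu : Linnell u) {η : Γ →* Multiplicative ℤ} {m : ℤ} {x : D}
    (h : IsDeg u η m x) : x ≠ 0 := by
  rintro rfl
  exact isDeg_not_fil u hu h (Submodule.zero_mem _)

theorem ore' (hu : Linnell u) (η : Γ →* Multiplicative ℤ) {a c : D}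
    (ha : a ∈ SpP u η.ker (fun _ => True)) (hc : c ∈ SpP u η.ker (fun _ => True))
    (ha0 : a ≠ 0) (hc0 : c ≠ 0) :
    ∃ (p q : D) (s t : ℤ), IsDeg u η s p ∧ IsDeg u η t q ∧ p * c = q * a := by
  rw [← rn_eq] at ha hc
  obtain ⟨p, hp, q, hq, hp0, he⟩ := ore u hu η.ker ⊤ inferInstance le_top
    (fun x _ y _ => comm_mem_ker η x y) a c ha hc ha0
  have hq0 : q ≠ 0 := by
    rintro rfl
    rw [zero_mul] at he
    exact mul_ne_zero hp0 hc0 he
  rw [rn_eq] at hp hq
  obtain ⟨s, hs⟩ := isDeg_exists u hp hp0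
  obtain ⟨t, ht⟩ := isDeg_exists u hq hq0
  exact ⟨p, q, s, t, hs, ht, he⟩

/-- The degree valuation. -/
noncomputable def VV (η : Γ →* Multiplicative ℤ) (x : D) : ℤ :=
  if h : ∃ p : ℤ, ∃ (a b : D) (m n : ℤ), IsDeg u η m a ∧ IsDeg u η n b ∧ a * x = b ∧ p = n - m
  then h.choose else 0

theorem VV_spec (hu : Linnell u) {η : Γ →* Multiplicative ℤ} {a b x : D} {m n : ℤ}
    (ha : IsDeg u η m a) (hb : IsDeg u η n b) (hab : a * x = b) : VV u η x = n - m := by
  have hex : ∃ p : ℤ, ∃ (a b : D) (m n : ℤ), IsDeg u η m a ∧ IsDeg u η n b ∧ a * x = b ∧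
      p = n - m := ⟨_, a, b, m, n, ha, hb, hab, rfl⟩
  unfold VV
  rw [dif_pos hex]
  obtain ⟨a', b', m', n', ha', hb', hab', hp⟩ := hex.choose_spec
  rw [hp]
  obtain ⟨p, q, s, t, hs, ht, he⟩ := ore' u hu η (isDeg_sp u ha') (isDeg_sp u ha)
    (isDeg_ne u hu ha') (isDeg_ne u hu ha)
  have h1 : p * b = q * b' := by
    rw [← hab, ← hab', ← mul_assoc, he, mul_assoc]
  have h2 := isDeg_unique u hu (isDeg_mul u hs ha) (he ▸ isDeg_mul u ht ha')
  have h3 := isDeg_unique u hu (isDeg_mul u hs hb) (h1 ▸ isDeg_mul u ht hb')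
  omega

theorem frac (hu : Linnell u) (hgen : ∀ x : D, x ∈ Dc u ⊤) (η : Γ →* Multiplicative ℤ) (x : D)
    (hx : x ≠ 0) : ∃ (a b : D) (m n : ℤ), IsDeg u η m a ∧ IsDeg u η n b ∧ a * x = b := by
  obtain ⟨a, ha, ha0, hax⟩ := frac_Dc u hu η.ker ⊤ inferInstance le_top
    (fun x _ y _ => comm_mem_ker η x y) x (hgen x)
  rw [rn_eq] at ha hax
  obtain ⟨m, hm⟩ := isDeg_exists u ha ha0
  obtain ⟨n, hn⟩ := isDeg_exists u hax (mul_ne_zero ha0 hx)
  exact ⟨a, a * x, m, n, hm, hn, rfl⟩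

theorem VV_val (hu : Linnell u) (hgen : ∀ x : D, x ∈ Dc u ⊤) (η : Γ →* Multiplicative ℤ) :
    Val (VV u η) where
  mul := by
    intro x y hx hy
    obtain ⟨a, b, m, n, ha, hb, hab⟩ := frac u hu hgen η x hx
    obtain ⟨c, d, m', n', hc, hd, hcd⟩ := frac u hu hgen η y hy
    obtain ⟨p, q, s, t, hs, ht, he⟩ := ore' u hu η (isDeg_sp u hc) (isDeg_sp u hb)
      (isDeg_ne u hu hc) (isDeg_ne u hu hb)
    have h1 : (p * a) * (x * y) = q * d := by
      rw [← hcd, ← mul_assoc q, ← he, ← hab]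
      simp only [mul_assoc]
    rw [VV_spec u hu (isDeg_mul u hs ha) (isDeg_mul u ht hd) h1, VV_spec u hu ha hb hab,
      VV_spec u hu hc hd hcd]
    have h2 := isDeg_unique u hu (isDeg_mul u hs hb) (he ▸ isDeg_mul u ht hc)
    omega
  add := by
    intro x y hx hy hxy
    obtain ⟨a, b, m, n, ha, hb, hab⟩ := frac u hu hgen η x hx
    obtain ⟨c, d, m', n', hc, hd, hcd⟩ := frac u hu hgen η y hy
    obtain ⟨p, q, s, t, hs, ht, he⟩ := ore' u hu η (isDeg_sp u hc) (isDeg_sp u ha)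
      (isDeg_ne u hu hc) (isDeg_ne u hu ha)
    have h1 : (p * a) * (x + y) = p * b + q * d := by
      rw [mul_add, ← hab, ← hcd, mul_assoc, he, mul_assoc]
    have h5 : p * b + q * d ∈ SpP u η.ker (fun _ => True) :=
      Submodule.add_mem _ (isDeg_sp u (isDeg_mul u hs hb)) (isDeg_sp u (isDeg_mul u ht hd))
    have h6 : p * b + q * d ≠ 0 := by
      rw [← h1]
      exact mul_ne_zero (mul_ne_zero (isDeg_ne u hu hs) (isDeg_ne u hu ha)) hxy
    obtain ⟨k, hk⟩ := isDeg_exists u h5 h6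
    rw [VV_spec u hu (isDeg_mul u hs ha) hk h1, VV_spec u hu ha hb hab, VV_spec u hu hc hd hcd]
    have h2 := isDeg_unique u hu (isDeg_mul u hs ha) (he ▸ isDeg_mul u ht hc)
    have h7 : k ≤ max (s + n) (t + n') := by
      by_contra hcon
      push Not at hcon
      apply isDeg_not_fil u hu hk
      apply Submodule.add_mem
      · exact fil_mono u η (by have := le_max_left (s + n) (t + n'); omega)
          (isDeg_fil u (isDeg_mul u hs hb))
      · exact fil_mono u η (by have := le_max_right (s + n) (t + n'); omega)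
          (isDeg_fil u (isDeg_mul u ht hd))
    rcases le_max_iff.1 h7 with h8 | h8
    · exact le_max_of_le_left (by omega)
    · exact le_max_of_le_right (by omega)

theorem isDeg_mono {η : Γ →* Multiplicative ℤ} {c : D} (hc : c ∈ Dc u η.ker) (h0 : c ≠ 0)
    (g : Γ) : IsDeg u η (dg η g) (c * ((u g : Dˣ) : D)) :=
  ⟨g, c, 0, rfl, hc, h0, Submodule.zero_mem _, by rw [add_zero]⟩

theorem VV_mono (hu : Linnell u) {η : Γ →* Multiplicative ℤ} {c : D} (hc : c ∈ Dc u η.ker)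
    (h0 : c ≠ 0) (g : Γ) : VV u η (c * ((u g : Dˣ) : D)) = dg η g := by
  have h1 : IsDeg u η 0 (1 : D) := by
    have := isDeg_mono u (one_mem (Dc u η.ker)) one_ne_zero 1
    rw [dg_one, u_one, mul_one] at this
    exact this
  rw [VV_spec u hu h1 (isDeg_mono u hc h0 g) (one_mul _), sub_zero]

theorem VV_u (hu : Linnell u) (η : Γ →* Multiplicative ℤ) (g : Γ) :
    VV u η ((u g : Dˣ) : D) = dg η g := by
  have := VV_mono u hu (η := η) (one_mem _) one_ne_zero g
  rwa [one_mul] at this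

theorem VV_c (hu : Linnell u) {η : Γ →* Multiplicative ℤ} {c : D} (hc : c ∈ Dc u η.ker)
    (h0 : c ≠ 0) : VV u η c = 0 := by
  have := VV_mono u hu hc h0 1
  rwa [u_one, mul_one, dg_one] at this

theorem dc_mono {L N : Subgroup Γ} (h : L ≤ N) {c : D} (hc : c ∈ Dc u L) : c ∈ Dc u N := by
  apply Subfield.closure_mono _ hc
  rintro x ⟨g, hg, rfl⟩
  exact ⟨g, h hg, rfl⟩

/-- The valuation of an element of the crossed product is the maximum over its support. -/
theorem VV_supp (hu : Linnell u) (hgen : ∀ x : D, x ∈ Dc u ⊤) (K : Subgroup Γ) (hK : K.Normal)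
    (η : Γ →* Multiplicative ℤ) (hKη : K ≤ η.ker) (T : Finset Γ) (c : Γ → D)
    (hc : ∀ g ∈ T, c g ∈ Dc u K ∧ c g ≠ 0)
    (hT : ∀ g ∈ T, ∀ h ∈ T, g ≠ h → g * h⁻¹ ∉ K) (a : Γ) (ha : a ∈ T)
    (hmax : ∀ g ∈ T, dg η g ≤ dg η a) :
    (∑ g ∈ T, c g * ((u g : Dˣ) : D)) ≠ 0 ∧
      VV u η (∑ g ∈ T, c g * ((u g : Dˣ) : D)) = dg η a := by
  have hv := VV_val u hu hgen η
  -- group by the value
  let A : ℤ → D := fun k => ∑ g ∈ T.filter (fun g => dg η g = k), c g * ((u g : Dˣ) : D)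
  have hsum : ∑ g ∈ T, c g * ((u g : Dˣ) : D) = ∑ k ∈ T.image (dg η), A k := by
    rw [Finset.sum_image']
    intro g _
    rfl
  have hA : ∀ k ∈ T.image (dg η), A k ≠ 0 ∧ VV u η (A k) = k := by
    intro k hk
    obtain ⟨g0, hg0, rfl⟩ := Finset.mem_image.1 hk
    have hne : A (dg η g0) ≠ 0 := by
      intro h
      have h1 := lin_zero u hu K hK (T.filter (fun g => dg η g = dg η g0)) c
        (fun g hg => (hc g (Finset.mem_filter.1 hg).1).1)
        (fun g hg h hh => hT g (Finset.mem_filter.1 hg).1 h (Finset.mem_filter.1 hh).1) h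
      exact (hc g0 hg0).2 (h1 g0 (by simp [hg0]))
    refine ⟨hne, ?_⟩
    have h2 : A (dg η g0) * ((u g0 : Dˣ) : D)⁻¹ ∈ Dc u η.ker := by
      show (∑ g ∈ T.filter (fun g => dg η g = dg η g0), c g * ((u g : Dˣ) : D)) * _ ∈ _
      rw [Finset.sum_mul]
      apply sum_mem
      intro g hg
      rw [Finset.mem_filter] at hg
      rw [mul_assoc, ← u_inv, ← u_mul]
      exact mul_mem (dc_mono u hKη (hc g hg.1).1) (u_Dc u _ ((dg_div η g g0).2 hg.2))
    have h3 := VV_mono u hu h2 (mul_ne_zero hne (inv_ne_zero (u_ne u g0))) g0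
    rwa [mul_assoc, inv_mul_cancel₀ (u_ne u g0), mul_one] at h3
  rw [hsum]
  have h4 := hv.sum_distinct (T.image (dg η)) A (fun k hk => (hA k hk).1)
    (fun i hi j hj h => by rw [(hA i hi).2, (hA j hj).2] at h; exact h) (dg η a)
    (Finset.mem_image_of_mem _ ha) (by
      intro i hi
      rw [(hA i hi).2, (hA _ (Finset.mem_image_of_mem _ ha)).2]
      obtain ⟨g, hg, rfl⟩ := Finset.mem_image.1 hi
      exact hmax g hg)
  rw [(hA _ (Finset.mem_image_of_mem _ ha)).2] at h4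
  exact h4

end

end Pool.Agent.Y352.SP
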