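import Pool.Agent.Y352.SP.Ech
import Pool.Agent.Y352.SP.Vl

/-!
# The local inequality for the degrees of a determinant
-/

set_option autoImplicit false

namespace Pool.Agent.Y352.SP

open Finset TN970
open scoped Classical

section
variable {Γ : Type} [Group Γ]

theorem dg_hmul (η ζ : Γ →* Multiplicative ℤ) (g : Γ) : dg (η * ζ) g = dg η g + dg ζ g := by
  simp [dg]

theorem dg_hinv (η : Γ →* Multiplicative ℤ) (g : Γ) : dg η⁻¹ g = - dg η g := by
  simp [dg]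

theorem dg_hpow (η : Γ →* Multiplicative ℤ) (m : ℕ) (g : Γ) : dg (η ^ m) g = m * dg η g := by
  simp [dg]

variable {D : Type} [DivisionRing D] (u : Γ →* Dˣ)

/-- The ring of the elements of degree zero. -/
def RR (L : Subgroup Γ) (hL : L.Normal) (χ : Γ →* Multiplicative ℤ) : Subring D where
  carrier := {x | x ∈ SpP u L (fun g => dg χ g = 0)}
  mul_mem' := fun ha hb => sp_mul u L hL (fun g h hg hh => by rw [dg_mul, hg, hh, add_zero]) ha hb
  one_mem' := by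
    have := u_mem u L (P := fun g => dg χ g = 0) (dg_one χ)
    rwa [u_one] at this
  add_mem' := fun {x y} ha hb => (SpP u L (fun g => dg χ g = 0)).add_mem ha hb
  zero_mem' := (SpP u L (fun g => dg χ g = 0)).zero_mem
  neg_mem' := fun {x} ha => (SpP u L (fun g => dg χ g = 0)).neg_mem ha

theorem mem_RR {L : Subgroup Γ} {hL : L.Normal} {χ : Γ →* Multiplicative ℤ} {x : D} :
    x ∈ RR u L hL χ ↔ x ∈ SpP u L (fun g => dg χ g = 0) := Iff.rfl

/-- The elements of negative degree. -/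
def NN (L : Subgroup Γ) (χ : Γ →* Multiplicative ℤ) : AddSubgroup D :=
  (SpP u L (fun g => dg χ g < 0)).toAddSubgroup

theorem mem_NN {L : Subgroup Γ} {χ : Γ →* Multiplicative ℤ} {x : D} :
    x ∈ NN u L χ ↔ x ∈ SpP u L (fun g => dg χ g < 0) := Iff.rfl

theorem split_le (L : Subgroup Γ) (hL : L.Normal) (χ : Γ →* Multiplicative ℤ) {x : D}
    (hx : x ∈ SpP u L (fun g => dg χ g ≤ 0)) :
    ∃ y ∈ RR u L hL χ, x - y ∈ NN u L χ := by
  unfold SpP at hx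
  induction hx using Submodule.span_induction with
  | mem x hx =>
    obtain ⟨g, hg, rfl⟩ := hx
    rcases hg.lt_or_eq with h | h
    · exact ⟨0, (RR u L hL χ).zero_mem, by rw [sub_zero]; exact u_mem u L h⟩
    · exact ⟨_, u_mem u L h, by rw [sub_self]; exact (NN u L χ).zero_mem⟩
  | zero => exact ⟨0, (RR u L hL χ).zero_mem, by rw [sub_zero]; exact (NN u L χ).zero_mem⟩
  | add x y _ _ hx hy =>
    obtain ⟨x', h1, h2⟩ := hx
    obtain ⟨y', h3, h4⟩ := hy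
    refine ⟨x' + y', (RR u L hL χ).add_mem h1 h3, ?_⟩
    have : x + y - (x' + y') = (x - x') + (y - y') := by abel
    rw [this]
    exact (NN u L χ).add_mem h2 h4
  | smul d x _ hx =>
    obtain ⟨x', h1, h2⟩ := hx
    refine ⟨(d : D) * x', dc_smul u L (M := SpP u L (fun g => dg χ g = 0)) d.2 h1, ?_⟩
    show (d : D) * x - (d : D) * x' ∈ _
    rw [← mul_sub]
    exact dc_smul u L (M := SpP u L (fun g => dg χ g < 0)) d.2 h2

theorem rr_nn (L : Subgroup Γ) (hL : L.Normal) (χ : Γ →* Multiplicative ℤ) :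
    ∀ r ∈ RR u L hL χ, ∀ y ∈ NN u L χ, r * y ∈ NN u L χ := by
  intro r hr y hy
  exact sp_mul u L hL (fun g h hg hh => by rw [dg_mul, hg, zero_add]; exact hh) hr hy

section
variable (hu : Linnell u) (hgen : ∀ x : D, x ∈ Dc u ⊤) (χ ψ : Γ →* Multiplicative ℤ)
include hu hgen

omit hu hgen in
theorem inf_normal : (χ.ker ⊓ ψ.ker).Normal := inferInstance

/-- Elements of degree zero: the valuations of their canonical representation. -/
theorem rr_rep {x : D} (hx : x ∈ RR u (χ.ker ⊓ ψ.ker) (inf_normal χ ψ) χ) (h0 : x ≠ 0) :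
    ∃ (T : Finset Γ) (c : Γ → D) (a b : Γ), (∀ g ∈ T, dg χ g = 0 ∧ c g ∈ Dc u (χ.ker ⊓ ψ.ker) ∧
      c g ≠ 0) ∧ x = ∑ g ∈ T, c g * ((u g : Dˣ) : D) ∧ a ∈ T ∧ b ∈ T ∧
      (∀ g ∈ T, g ≠ a → dg ψ g < dg ψ a) ∧ (∀ g ∈ T, dg ψ b ≤ dg ψ g) ∧
      VV u χ x = 0 ∧ VV u ψ x = dg ψ a ∧ VV u ψ⁻¹ x = - dg ψ b ∧
      (∀ m : ℕ, VV u (χ ^ m * ψ) x = dg ψ a) ∧ (∀ m : ℕ, VV u (χ ^ m * ψ⁻¹) x = - dg ψ b) := by
  obtain ⟨T, c, hT1, hT2, hT3⟩ := sp_rep u (χ.ker ⊓ ψ.ker) (inf_normal χ ψ) (by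
    intro g h hg hgh
    have h1 := (dg_div χ h g).1 hgh.1
    rw [h1, hg]) hx
  have hne : T.Nonempty := by
    rw [Finset.nonempty_iff_ne_empty]
    rintro rfl
    exact h0 (by rw [hT3]; simp)
  obtain ⟨a, ha, hmax⟩ := Finset.exists_max_image T (dg ψ) hne
  obtain ⟨b, hb, hmin⟩ := Finset.exists_min_image T (dg ψ) hne
  have hN := inf_normal χ ψ
  have hcc : ∀ g ∈ T, c g ∈ Dc u (χ.ker ⊓ ψ.ker) ∧ c g ≠ 0 := fun g hg => (hT1 g hg).2
  have hsub : ∀ η : Γ →* Multiplicative ℤ, (∀ g, g ∈ χ.ker ⊓ ψ.ker → dg η g = 0) →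
      χ.ker ⊓ ψ.ker ≤ η.ker := fun η h g hg => (mem_ker_iff η g).2 (h g hg)
  have hker : ∀ g, g ∈ χ.ker ⊓ ψ.ker → dg χ g = 0 ∧ dg ψ g = 0 := fun g hg =>
    ⟨(mem_ker_iff χ g).1 hg.1, (mem_ker_iff ψ g).1 hg.2⟩
  refine ⟨T, c, a, b, hT1, hT3, ha, hb, ?_, hmin, ?_, ?_, ?_, ?_, ?_⟩
  · intro g hg hga
    refine lt_of_le_of_ne (hmax g hg) (fun h => hT2 g hg a ha hga ?_)
    exact ⟨(dg_div χ g a).2 (by rw [(hT1 g hg).1, (hT1 a ha).1]), (dg_div ψ g a).2 h⟩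
  · rw [hT3, (VV_supp u hu hgen _ hN χ (hsub _ fun g hg => (hker g hg).1) T c hcc hT2 a ha
      (fun g hg => by rw [(hT1 g hg).1, (hT1 a ha).1])).2, (hT1 a ha).1]
  · rw [hT3, (VV_supp u hu hgen _ hN ψ (hsub _ fun g hg => (hker g hg).2) T c hcc hT2 a ha
      hmax).2]
  · rw [hT3, (VV_supp u hu hgen _ hN ψ⁻¹ (hsub _ fun g hg => by
      rw [dg_hinv, (hker g hg).2, neg_zero]) T c hcc hT2 b hb
      (fun g hg => by rw [dg_hinv, dg_hinv]; have := hmin g hg; omega)).2, dg_hinv]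
  · intro m
    rw [hT3, (VV_supp u hu hgen _ hN (χ ^ m * ψ) (hsub _ fun g hg => by
      rw [dg_hmul, dg_hpow, (hker g hg).1, (hker g hg).2]; simp) T c hcc hT2 a ha
      (fun g hg => by
        rw [dg_hmul, dg_hpow, dg_hmul, dg_hpow, (hT1 g hg).1, (hT1 a ha).1]
        have := hmax g hg
        omega)).2, dg_hmul, dg_hpow, (hT1 a ha).1]
    simp
  · intro m
    rw [hT3, (VV_supp u hu hgen _ hN (χ ^ m * ψ⁻¹) (hsub _ fun g hg => by
      rw [dg_hmul, dg_hpow, dg_hinv, (hker g hg).1, (hker g hg).2]; simp) T c hcc hT2 b hb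
      (fun g hg => by
        rw [dg_hmul, dg_hpow, dg_hmul, dg_hpow, (hT1 g hg).1, (hT1 b hb).1, dg_hinv, dg_hinv]
        have := hmin g hg
        omega)).2, dg_hmul, dg_hpow, (hT1 b hb).1, dg_hinv]
    simp

theorem rr_euc : Euc (RR u (χ.ker ⊓ ψ.ker) (inf_normal χ ψ) χ) (VV u ψ) (VV u ψ⁻¹) where
  v1 := VV_val u hu hgen ψ
  v2 := VV_val u hu hgen ψ⁻¹
  nonneg := by
    intro x hx h0
    obtain ⟨T, c, a, b, h1, h2, h3, h4, h5, h6, h7, h8, h9, _⟩ := rr_rep u hu hgen χ ψ hx h0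
    rw [h8, h9]
    have := h6 a h3
    omega
  lead := by
    intro x hx h0
    obtain ⟨T, c, a, b, h1, h2, h3, h4, h5, h6, h7, h8, h9, _⟩ := rr_rep u hu hgen χ ψ hx h0
    have hca := h1 a h3
    have hle1 : χ.ker ⊓ ψ.ker ≤ ψ.ker := inf_le_right
    have hca' : c a ∈ Dc u ψ.ker := dc_mono u hle1 hca.2.1
    have hca'' : c a ∈ Dc u ψ⁻¹.ker := by
      apply dc_mono u _ hca'
      intro g hg
      rw [mem_ker_iff] at hg ⊢
      rw [dg_hinv, hg, neg_zero]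
    refine ⟨c a * ((u a : Dˣ) : D), ?_, mul_ne_zero hca.2.2 (u_ne u a), ?_, ?_, ?_, ?_⟩
    · exact dc_smul u _ hca.2.1 (u_mem u _ hca.1)
    · rw [mul_inv_rev, ← u_inv]
      apply (RR u (χ.ker ⊓ ψ.ker) (inf_normal χ ψ) χ).mul_mem
      · exact u_mem u _ (by rw [dg_inv, hca.1, neg_zero])
      · have : (c a)⁻¹ * ((u 1 : Dˣ) : D) ∈ SpP u (χ.ker ⊓ ψ.ker) (fun g => dg χ g = 0) :=
          dc_smul u _ (inv_mem hca.2.1) (u_mem u _ (dg_one χ))
        rw [u_one, mul_one] at this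
        exact this
    · rw [VV_mono u hu hca' hca.2.2, h8]
    · rw [VV_mono u hu hca'' hca.2.2, dg_hinv, h8]
    · have e : x - c a * ((u a : Dˣ) : D) = ∑ g ∈ T.erase a, c g * ((u g : Dˣ) : D) := by
        rw [h2, ← Finset.add_sum_erase T _ h3]
        abel
      rw [e, h8]
      apply Le.sum (VV_val u hu hgen ψ)
      intro g hg
      have hgT := Finset.mem_of_mem_erase hg
      have hga := Finset.ne_of_mem_erase hg
      right
      rw [VV_mono u hu (dc_mono u hle1 (h1 g hgT).2.1) (h1 g hgT).2.2]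
      have := h5 g hgT hga
      omega

omit hgen hu in
theorem rr_dc {x : D} (hx : x ∈ RR u (χ.ker ⊓ ψ.ker) (inf_normal χ ψ) χ) : x ∈ Dc u χ.ker := by
  rw [mem_RR] at hx
  unfold SpP at hx
  induction hx using Submodule.span_induction with
  | mem x hx =>
    obtain ⟨g, hg, rfl⟩ := hx
    exact u_Dc u _ ((mem_ker_iff χ g).2 hg)
  | zero => exact zero_mem _
  | add x y _ _ hx hy => exact add_mem hx hy
  | smul d x _ hx =>
    show (d : D) * x ∈ _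
    exact mul_mem (dc_mono u inf_le_left d.2) hx

/-- The valuations of the elements of the division ring of the kernel of `χ`. -/
theorem dc_vv {x : D} (hx : x ∈ Dc u χ.ker) (h0 : x ≠ 0) : ∀ m : ℕ,
    VV u (χ ^ m * ψ) x = VV u ψ x ∧ VV u (χ ^ m * ψ⁻¹) x = VV u ψ⁻¹ x := by
  intro m
  obtain ⟨a, ha, ha0, hax⟩ := frac_Dc u hu (χ.ker ⊓ ψ.ker) χ.ker (inf_normal χ ψ) inf_le_left
    (by
      intro x _ y _
      exact ⟨comm_mem_ker χ x y, comm_mem_ker ψ x y⟩) x hx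
  have e : RN u (χ.ker ⊓ ψ.ker) χ.ker = SpP u (χ.ker ⊓ ψ.ker) (fun g => dg χ g = 0) := by
    unfold RN SpP
    congr 1
  rw [e] at ha hax
  obtain ⟨_, _, _, _, _, _, _, _, _, _, _, a1, a2, a3, a4⟩ := rr_rep u hu hgen χ ψ ha ha0
  obtain ⟨_, _, _, _, _, _, _, _, _, _, _, b1, b2, b3, b4⟩ := rr_rep u hu hgen χ ψ hax
    (mul_ne_zero ha0 h0)
  have v1 := (VV_val u hu hgen (χ ^ m * ψ)).mul a x ha0 h0
  have v2 := (VV_val u hu hgen (χ ^ m * ψ⁻¹)).mul a x ha0 h0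
  have v3 := (VV_val u hu hgen ψ).mul a x ha0 h0
  have v4 := (VV_val u hu hgen ψ⁻¹).mul a x ha0 h0
  rw [a3 m, b3 m] at v1
  rw [a4 m, b4 m] at v2
  rw [a1, b1] at v3
  rw [a2, b2] at v4
  constructor <;> omega

/-- The valuations of the elements of negative degree. -/
theorem nn_le {y : D} (hy : y ∈ NN u (χ.ker ⊓ ψ.ker) χ) : Le (VV u χ) (-1) y ∧
    ∃ C : ℤ, ∀ m : ℕ, Le (VV u (χ ^ m * ψ)) (C - m) y ∧ Le (VV u (χ ^ m * ψ⁻¹)) (C - m) y := by
  rw [mem_NN] at hy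
  have hcoef : ∀ (η : Γ →* Multiplicative ℤ), χ.ker ⊓ ψ.ker ≤ η.ker → ∀ c ∈ Dc u (χ.ker ⊓ ψ.ker),
      Le (VV u η) 0 c := by
    intro η h c hc
    by_cases h0 : c = 0
    · exact Or.inl h0
    · exact Or.inr (VV_c u hu (dc_mono u h hc) h0).le
  have k1 : χ.ker ⊓ ψ.ker ≤ χ.ker := inf_le_left
  have k2 : ∀ m : ℕ, χ.ker ⊓ ψ.ker ≤ (χ ^ m * ψ).ker := fun m g hg => by
    rw [mem_ker_iff, dg_hmul, dg_hpow, (mem_ker_iff χ g).1 hg.1, (mem_ker_iff ψ g).1 hg.2]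
    simp
  have k3 : ∀ m : ℕ, χ.ker ⊓ ψ.ker ≤ (χ ^ m * ψ⁻¹).ker := fun m g hg => by
    rw [mem_ker_iff, dg_hmul, dg_hpow, dg_hinv, (mem_ker_iff χ g).1 hg.1,
      (mem_ker_iff ψ g).1 hg.2]
    simp
  unfold SpP at hy
  induction hy using Submodule.span_induction with
  | mem x hx =>
    obtain ⟨g, hg, rfl⟩ := hx
    refine ⟨Or.inr (by rw [VV_u u hu]; omega), |dg ψ g|, fun m => ?_⟩
    have h1 := le_abs_self (dg ψ g)
    have h2 := neg_abs_le (dg ψ g)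
    have h3 : (m : ℤ) * dg χ g ≤ - m := by
      have : (0 : ℤ) ≤ m := by positivity
      nlinarith
    refine ⟨Or.inr ?_, Or.inr ?_⟩
    · rw [VV_u u hu, dg_hmul, dg_hpow]; omega
    · rw [VV_u u hu, dg_hmul, dg_hpow, dg_hinv]; omega
  | zero => exact ⟨Or.inl rfl, 0, fun m => ⟨Or.inl rfl, Or.inl rfl⟩⟩
  | add x y _ _ hx hy =>
    obtain ⟨h1, C, h2⟩ := hx
    obtain ⟨h3, C', h4⟩ := hy
    refine ⟨Le.add (VV_val u hu hgen χ) h1 h3, max C C', fun m => ⟨?_, ?_⟩⟩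
    · have := le_max_left C C'
      have := le_max_right C C'
      exact Le.add (VV_val u hu hgen _) ((h2 m).1.mono (by omega)) ((h4 m).1.mono (by omega))
    · have := le_max_left C C'
      have := le_max_right C C'
      exact Le.add (VV_val u hu hgen _) ((h2 m).2.mono (by omega)) ((h4 m).2.mono (by omega))
  | smul d x _ hx =>
    obtain ⟨h1, C, h2⟩ := hx
    refine ⟨?_, C, fun m => ⟨?_, ?_⟩⟩
    · have := Le.mul (VV_val u hu hgen χ) (hcoef χ k1 d d.2) h1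
      rw [zero_add] at this
      exact this
    · have := Le.mul (VV_val u hu hgen _) (hcoef _ (k2 m) d d.2) (h2 m).1
      rw [zero_add] at this
      exact this
    · have := Le.mul (VV_val u hu hgen _) (hcoef _ (k3 m) d d.2) (h2 m).2
      rw [zero_add] at this
      exact this

end

end

end Pool.Agent.Y352.SP
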