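import Pool.Agent.Y352.SP.Loc

/-!
# The local inequality for the degrees of a determinant, conclusion
-/

set_option autoImplicit false

namespace Pool.Agent.Y352.SP

open Finset TN970
open scoped Classical

section
variable {Γ : Type} [Group Γ] {D : Type} [DivisionRing D] (u : Γ →* Dˣ)
variable (hu : Linnell u) (hgen : ∀ x : D, x ∈ Dc u ⊤) (χ ψ : Γ →* Multiplicative ℤ)

/-- The inverse of a family over a division subring. -/
theorem inv_family {n : ℕ} (F : Subfield D) (B : Fin n → Fin n → D)
    (hB : LinearIndependent D B) (hF : ∀ i t, B i t ∈ F) :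
    ∃ X : Fin n → Fin n → D, (∀ i t, X i t ∈ F) ∧ mulF X B = idF D n ∧
      LinearIndependent D X := by
  let B' : Fin n → Fin n → F := fun i t => ⟨B i t, hF i t⟩
  have hB' : LinearIndependent F B' := by
    rw [Fintype.linearIndependent_iff]
    intro g hg i
    have h1 := Fintype.linearIndependent_iff.1 hB (fun i => (g i : D)) (by
      funext t
      have h2 := congrArg Subtype.val (congrFun hg t)
      rw [Finset.sum_apply] at h2 ⊢
      simp only [Pi.smul_apply, smul_eq_mul, Pi.zero_apply] at h2 ⊢
      rw [← ZeroMemClass.coe_zero F, ← h2, AddSubmonoidClass.coe_finsetSum]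
      rfl) i
    exact Subtype.ext h1
  choose l hl using fun v : Fin n → F => li_coeff hB' (by simp) v
  let X : Fin n → Fin n → D := fun i t => (l (Pi.single i 1) t : D)
  have hX : mulF X B = idF D n := by
    funext i t
    have h1 := congrArg Subtype.val (congrFun (hl (Pi.single i 1)) t)
    rw [Finset.sum_apply] at h1
    simp only [Pi.smul_apply, smul_eq_mul] at h1
    rw [AddSubmonoidClass.coe_finsetSum] at h1
    unfold mulF idF
    rw [Finset.sum_apply]
    simp only [Pi.smul_apply, smul_eq_mul]
    have h2 : ((Pi.single i (1 : F) : Fin n → F) t : D) = (Pi.single i (1 : D) : Fin n → D) t := by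
      by_cases h : t = i
      · subst h; simp
      · rw [Pi.single_eq_of_ne h, Pi.single_eq_of_ne h]; rfl
    rw [← h2, ← h1]
    rfl
  refine ⟨X, fun i t => (l (Pi.single i 1) t).2, hX, ?_⟩
  rw [Fintype.linearIndependent_iff]
  intro g hg
  have h3 : ∑ i, g i • idF D n i = 0 := by
    rw [← hX]
    unfold mulF
    simp only [Finset.smul_sum, smul_smul]
    rw [Finset.sum_comm]
    apply Finset.sum_eq_zero
    intro j _
    rw [← Finset.sum_smul]
    have h4 := congrFun hg j
    rw [Finset.sum_apply] at h4
    simp only [Pi.smul_apply, smul_eq_mul, Pi.zero_apply] at h4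
    rw [h4, zero_smul]
  exact Fintype.linearIndependent_iff.1 (li_idF n) g h3

include hu hgen

omit hgen in
/-- A character which is not trivial has an element of least positive value. -/
theorem exists_f (h : ∃ g, dg χ g < 0) : ∃ f, 0 < dg χ f ∧ ∀ g, dg χ g < 0 →
    dg χ f + dg χ g ≤ 0 := by
  obtain ⟨g0, hg0⟩ := h
  have hex : ∃ n : ℕ, ∃ g, dg χ g = (n : ℤ) ∧ 0 < n := by
    refine ⟨(dg χ g0⁻¹).toNat, g0⁻¹, ?_, ?_⟩
    · rw [dg_inv]; omega
    · rw [dg_inv]; omega
  obtain ⟨f, hf, hpos⟩ := Nat.find_spec hex
  refine ⟨f, by omega, fun g hg => ?_⟩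
  by_contra hcon
  push Not at hcon
  have h1 : dg χ g⁻¹ = ((- dg χ g).toNat : ℤ) := by rw [dg_inv]; omega
  have h2 := Nat.find_min' hex ⟨g⁻¹, h1, by omega⟩
  omega

/-- The local inequality. -/
theorem local_aux (n : ℕ) : ∀ (N : ℕ) (A : Fin n → Fin n → D), LinearIndependent D A →
    (∀ i t, A i t ∈ SpP u (χ.ker ⊓ ψ.ker) (fun g => dg χ g ≤ 0)) →
      (- wdet (VV u χ) n (Fin n) A).toNat = N →
      ∃ m0 : ℕ, ∀ m : ℕ, m0 ≤ m → 2 * m * wdet (VV u χ) n (Fin n) A ≤
        wdet (VV u (χ ^ m * ψ)) n (Fin n) A + wdet (VV u (χ ^ m * ψ⁻¹)) n (Fin n) A := by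
  have hvχ := VV_val u hu hgen χ
  have hv1 : ∀ m : ℕ, Val (VV u (χ ^ m * ψ)) := fun m => VV_val u hu hgen _
  have hv2 : ∀ m : ℕ, Val (VV u (χ ^ m * ψ⁻¹)) := fun m => VV_val u hu hgen _
  have hN0 := inf_normal χ ψ
  have hcard : Fintype.card (Fin n) = n := by simp
  -- elements of nonpositive degree are integral
  have hint : ∀ x ∈ SpP u (χ.ker ⊓ ψ.ker) (fun g => dg χ g ≤ 0), Le (VV u χ) 0 x := by
    intro x hx
    obtain ⟨y, hy, hxy⟩ := split_le u _ hN0 χ hx
    have h1 : Le (VV u χ) 0 y := by
      by_cases h0 : y = 0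
      · exact Or.inl h0
      · obtain ⟨_, _, _, _, _, _, _, _, _, _, h2, _⟩ := rr_rep u hu hgen χ ψ hy h0
        exact Or.inr h2.le
    have h2 := (nn_le u hu hgen χ ψ hxy).1
    have h3 := Le.add hvχ h1 (h2.mono (by omega))
    have e : y + (x - y) = x := by abel
    rwa [e] at h3
  intro N
  induction N using Nat.strong_induction_on with
  | _ N ih =>
    intro A hA hAe hN
    choose A0 hA0 hAN using fun i t => split_le u _ hN0 χ (hAe i t)
    obtain ⟨B0, hB1, hB2, hB3⟩ := echelon (rr_euc u hu hgen χ ψ) n (Fin n) A0 hA0 (by simp)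
    obtain ⟨B, hB4, hB5⟩ := reach_transfer (NN u (χ.ker ⊓ ψ.ker) χ)
      (rr_nn u _ hN0 χ) hB1 A hAN
    have hBLI := (reach_wdet hvχ.mul hcard hA hB4).1
    have hBχ := (reach_wdet hvχ.mul hcard hA hB4).2
    have hBm1 := fun m : ℕ => (reach_wdet (hv1 m).mul hcard hA hB4).2
    have hBm2 := fun m : ℕ => (reach_wdet (hv2 m).mul hcard hA hB4).2
    rw [← hBχ] at hN ⊢
    simp only [← hBm1, ← hBm2]
    rcases hB3 with ⟨k, hk⟩ | ⟨-, e, he1, he2, he3⟩
    · -- a row of negative degree
      have hrow : ∀ t, B k t ∈ NN u (χ.ker ⊓ ψ.ker) χ := by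
        intro t
        have := hB5 k t
        rw [hk] at this
        simpa using this
      by_cases hχ : ∃ g, dg χ g < 0
      · obtain ⟨f, hf0, hf⟩ := exists_f u hu χ hχ
        let c : Fin n → D := fun i => if i = k then ((u f : Dˣ) : D) else 0
        have hck : c k = ((u f : Dˣ) : D) := by simp [c]
        have hck0 : c k ≠ 0 := by rw [hck]; exact u_ne u f
        have hsum : ∑ i, c i • B i = ((u f : Dˣ) : D) • B k := by
          rw [Finset.sum_eq_single k]
          · rw [hck]
          · intro b _ hb
            have : c b = 0 := by simp [c, hb]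
            rw [this, zero_smul]
          · intro h
            exact absurd (Finset.mem_univ _) h
        have hCLI := li_update hBLI k c hck0
        have hCe : ∀ i t, upd B k (∑ i, c i • B i) i t ∈
            SpP u (χ.ker ⊓ ψ.ker) (fun g => dg χ g ≤ 0) := by
          intro i t
          by_cases hi : i = k
          · subst hi
            rw [upd_self, hsum]
            refine sp_mul u _ hN0 (P := fun g => g = f) (Q := fun g => dg χ g < 0) ?_
              (u_mem u _ rfl) (hrow t)
            rintro g h rfl hh
            rw [dg_mul]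
            exact hf h hh
          · rw [upd_of_ne hi]
            have h1 := hB5 i t
            have h2 : B i t = B0 i t + (B i t - B0 i t) := by abel
            rw [h2]
            exact Submodule.add_mem _ (sp_mono u _ (fun g hg => le_of_eq hg) (hB2 i t))
              (sp_mono u _ (fun g hg => le_of_lt hg) h1)
        have w0 := wdet_upd hvχ.mul B k c hBLI hcard hck0
        have w1 := fun m : ℕ => wdet_upd (hv1 m).mul B k c hBLI hcard hck0
        have w2 := fun m : ℕ => wdet_upd (hv2 m).mul B k c hBLI hcard hck0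
        rw [hck, VV_u u hu] at w0
        simp only [hck, VV_u u hu, dg_hmul, dg_hpow, dg_hinv] at w1 w2
        have hle := wdet_le_zero hvχ n (Fin n) _ hCLI hcard (fun i t => hint _ (hCe i t))
        obtain ⟨m0, hm0⟩ := ih _ (by omega) _ hCLI hCe rfl
        refine ⟨m0, fun m hm => ?_⟩
        have h5 := hm0 m hm
        rw [w0, w1 m, w2 m] at h5
        have e1 : 2 * (m : ℤ) * (dg χ f + wdet (VV u χ) n (Fin n) B) =
          2 * (m * dg χ f) + 2 * m * wdet (VV u χ) n (Fin n) B := by ring
        rw [e1] at h5
        linarith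
      · -- the row is zero
        exfalso
        have hzero : ∀ y ∈ NN u (χ.ker ⊓ ψ.ker) χ, y = 0 := by
          intro y hy
          have h1 : SpP u (χ.ker ⊓ ψ.ker) (fun g => dg χ g < 0) = ⊥ := by
            unfold SpP
            have h2 : {x : D | ∃ g, dg χ g < 0 ∧ x = ((u g : Dˣ) : D)} = ∅ := by
              ext x
              simp only [Set.mem_ofPred_eq, Set.mem_empty_iff_false, iff_false]
              rintro ⟨g, hg, _⟩
              exact hχ ⟨g, hg⟩
            rw [h2, Submodule.span_empty]
          rw [mem_NN, h1] at hy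
          exact (Submodule.mem_bot _).1 hy
        have h3 : B k = 0 := funext fun t => hzero _ (hrow t)
        exact hBLI.ne_zero k h3
    · -- the leading part is invertible
      have hB0dc : ∀ i t, B0 i t ∈ Dc u χ.ker := fun i t => rr_dc u χ ψ (hB2 i t)
      have hB0LI := (wdet_echelon hvχ.mul B0 e he1 he2 he3).1
      obtain ⟨X, hX1, hX2, hX3⟩ := inv_family (Dc u χ.ker) B0 hB0LI hB0dc
      -- the constants
      choose C hC using fun i t => (nn_le u hu hgen χ ψ (hB5 i t)).2
      let M : ℤ := ∑ i, ∑ t, (|C i t| + |VV u ψ (X i t)| + |VV u ψ⁻¹ (X i t)|)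
      have hM : ∀ i t, |C i t| + |VV u ψ (X i t)| + |VV u ψ⁻¹ (X i t)| ≤ M := by
        intro i t
        have p1 : ∀ i t, 0 ≤ |C i t| + |VV u ψ (X i t)| + |VV u ψ⁻¹ (X i t)| := by
          intro i t
          positivity
        calc |C i t| + |VV u ψ (X i t)| + |VV u ψ⁻¹ (X i t)|
            ≤ ∑ t, (|C i t| + |VV u ψ (X i t)| + |VV u ψ⁻¹ (X i t)|) :=
              Finset.single_le_sum (fun t _ => p1 i t) (Finset.mem_univ t)
          _ ≤ M := Finset.single_le_sum (f := fun i =>
              ∑ t, (|C i t| + |VV u ψ (X i t)| + |VV u ψ⁻¹ (X i t)|))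
              (fun i _ => Finset.sum_nonneg fun t _ => p1 i t) (Finset.mem_univ i)
      have hM0 : 0 ≤ M := Finset.sum_nonneg fun i _ => Finset.sum_nonneg fun t _ => by positivity
      -- a general computation of the determinant
      have gen : ∀ w : D → ℤ, Val w → (∀ i t j, Le w (-1) (X i j * (B j t - B0 j t))) →
          wdet w n (Fin n) B = ∑ k, w (B0 k (e k)) := by
        intro w hw hle
        have h1 := wdet_mul hw.mul hX3 hBLI
        have h2 := wdet_mul hw.mul hX3 hB0LI
        rw [hX2, wdet_idF hw.mul] at h2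
        have h3 := (wdet_echelon hw.mul B0 e he1 he2 he3).2
        have h4 : wdet w n (Fin n) (mulF X B) = 0 := by
          apply wdet_one_add hw
          intro i t
          rw [← hX2]
          unfold mulF
          rw [Finset.sum_apply, Finset.sum_apply, ← Finset.sum_sub_distrib]
          apply Le.sum hw
          intro j _
          simp only [Pi.smul_apply, smul_eq_mul]
          rw [← mul_sub]
          exact hle i t j
        linarith
      have g0 := gen _ hvχ (by
        intro i t j
        have h1 := (nn_le u hu hgen χ ψ (hB5 j t)).1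
        by_cases h0 : X i j = 0
        · left; rw [h0, zero_mul]
        · have h2 : Le (VV u χ) 0 (X i j) := Or.inr (VV_c u hu (hX1 i j) h0).le
          have := Le.mul hvχ h2 h1
          rwa [zero_add] at this)
      refine ⟨(2 * M + 1).toNat, fun m hm => ?_⟩
      have hm' : 2 * M + 1 ≤ (m : ℤ) := by omega
      have g1 := gen _ (hv1 m) (by
        intro i t j
        by_cases h0 : X i j = 0
        · left; rw [h0, zero_mul]
        · have h2 : Le (VV u (χ ^ m * ψ)) M (X i j) := by
            right
            rw [(dc_vv u hu hgen χ ψ (hX1 i j) h0 m).1]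
            have := hM i j
            have := le_abs_self (VV u ψ (X i j))
            have := abs_nonneg (C i j)
            have := abs_nonneg (VV u ψ⁻¹ (X i j))
            omega
          have h3 := Le.mul (hv1 m) h2 (hC j t m).1
          refine h3.mono ?_
          have := hM j t
          have := le_abs_self (C j t)
          have := abs_nonneg (VV u ψ (X j t))
          have := abs_nonneg (VV u ψ⁻¹ (X j t))
          omega)
      have g2 := gen _ (hv2 m) (by
        intro i t j
        by_cases h0 : X i j = 0
        · left; rw [h0, zero_mul]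
        · have h2 : Le (VV u (χ ^ m * ψ⁻¹)) M (X i j) := by
            right
            rw [(dc_vv u hu hgen χ ψ (hX1 i j) h0 m).2]
            have := hM i j
            have := le_abs_self (VV u ψ⁻¹ (X i j))
            have := abs_nonneg (C i j)
            have := abs_nonneg (VV u ψ (X i j))
            omega
          have h3 := Le.mul (hv2 m) h2 (hC j t m).2
          refine h3.mono ?_
          have := hM j t
          have := le_abs_self (C j t)
          have := abs_nonneg (VV u ψ (X j t))
          have := abs_nonneg (VV u ψ⁻¹ (X j t))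
          omega)
      rw [g0, g1, g2, ← Finset.sum_add_distrib, Finset.mul_sum]
      apply Finset.sum_le_sum
      intro k _
      obtain ⟨T, c, a, b, h1, h2, h3, h4, h5, h6, h7, h8, h9, h10, h11⟩ :=
        rr_rep u hu hgen χ ψ (hB2 k (e k)) (he2 k)
      rw [h7, h10 m, h11 m, mul_zero]
      have := h6 a h3
      omega

end

end Pool.Agent.Y352.SP
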