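import Pool.Agent.Y352.SP.Loc2

/-!
# The local inequality for families over the crossed product
-/

set_option autoImplicit false

namespace Pool.Agent.Y352.SP

open Finset TN970
open scoped Classical

section
variable {Γ : Type} [Group Γ] {D : Type} [DivisionRing D] (u : Γ →* Dˣ)

theorem fin_deg (L : Subgroup Γ) (χ : Γ →* Multiplicative ℤ) {x : D}
    (hx : x ∈ SpP u L (fun _ => True)) : ∃ M : ℕ, x ∈ SpP u L (fun g => dg χ g ≤ M) := by
  unfold SpP at hx
  induction hx using Submodule.span_induction with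
  | mem x hx =>
    obtain ⟨g, _, rfl⟩ := hx
    exact ⟨(dg χ g).toNat, u_mem u L (by omega)⟩
  | zero => exact ⟨0, Submodule.zero_mem _⟩
  | add x y _ _ hx hy =>
    obtain ⟨M, h1⟩ := hx
    obtain ⟨M', h2⟩ := hy
    refine ⟨max M M', Submodule.add_mem _ (sp_mono u L (fun g hg => hg.trans ?_) h1)
      (sp_mono u L (fun g hg => hg.trans ?_) h2)⟩
    · exact_mod_cast le_max_left M M'
    · exact_mod_cast le_max_right M M'
  | smul d x _ hx =>
    obtain ⟨M, h1⟩ := hx
    exact ⟨M, Submodule.smul_mem _ d h1⟩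

/-- The local inequality for a family of elements of the crossed product. -/
theorem local_ineq (hu : Linnell u) (hgen : ∀ x : D, x ∈ Dc u ⊤) (χ ψ : Γ →* Multiplicative ℤ)
    {n : ℕ} (A : Fin n → Fin n → D) (hA : LinearIndependent D A)
    (hAe : ∀ i t, A i t ∈ SpP u (χ.ker ⊓ ψ.ker) (fun _ => True)) :
    ∃ m0 : ℕ, ∀ m : ℕ, m0 ≤ m → 2 * m * wdet (VV u χ) n (Fin n) A ≤
        wdet (VV u (χ ^ m * ψ)) n (Fin n) A + wdet (VV u (χ ^ m * ψ⁻¹)) n (Fin n) A := by
  have hN0 := inf_normal χ ψ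
  choose M hM using fun i t => fin_deg u (χ.ker ⊓ ψ.ker) χ (hAe i t)
  let M' : ℕ := ∑ i, ∑ t, M i t
  have hM' : ∀ i t, M i t ≤ M' := fun i t =>
    (Finset.single_le_sum (f := fun t => M i t) (fun _ _ => Nat.zero_le _)
      (Finset.mem_univ t)).trans
      (Finset.single_le_sum (f := fun i => ∑ t, M i t) (fun _ _ => Nat.zero_le _)
        (Finset.mem_univ i))
  -- an element of very negative degree
  obtain ⟨g0, hg0⟩ : ∃ g0, ∀ i t, ((u g0 : Dˣ) : D) * A i t ∈
      SpP u (χ.ker ⊓ ψ.ker) (fun g => dg χ g ≤ 0) := by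
    by_cases hχ : ∃ g, dg χ g < 0
    · obtain ⟨g, hg⟩ := hχ
      refine ⟨g ^ M', fun i t => ?_⟩
      refine sp_mul u _ hN0 (P := fun h => h = g ^ M') (Q := fun h => dg χ h ≤ M i t) ?_
        (u_mem u _ rfl) (hM i t)
      rintro h k rfl hk
      rw [dg_mul]
      have h1 : dg χ (g ^ M') = M' * dg χ g := by simp [dg]
      rw [h1]
      have h2 := hM' i t
      have h3 : ((M i t : ℕ) : ℤ) ≤ (M' : ℤ) := by exact_mod_cast h2
      have h4 : (M' : ℤ) * dg χ g ≤ - M' := by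
        have : (0 : ℤ) ≤ M' := by positivity
        nlinarith
      omega
    · push Not at hχ
      refine ⟨1, fun i t => ?_⟩
      rw [u_one, one_mul]
      refine sp_mono u _ (fun g hg => ?_) (hM i t)
      have h1 := hχ g⁻¹
      rw [dg_inv] at h1
      omega
  have key : ∀ w : D → ℤ, Val w → LinearIndependent D (fun i => ((u g0 : Dˣ) : D) • A i) ∧
      wdet w n (Fin n) (fun i => ((u g0 : Dˣ) : D) • A i) =
        n * w ((u g0 : Dˣ) : D) + wdet w n (Fin n) A := by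
    intro w hw
    have h := wdet_tri hw.mul A (fun i => ((u g0 : Dˣ) : D) • A i) hA (by simp) (fun _ => 0)
      (fun _ => ((u g0 : Dˣ) : D)) (fun _ => u_ne u g0) (fun _ _ => 0) (fun _ _ _ => rfl)
      (by intro i; simp)
    refine ⟨h.1, ?_⟩
    rw [h.2, Finset.sum_const, Finset.card_univ, Fintype.card_fin, nsmul_eq_mul]
  have h0 := key _ (VV_val u hu hgen χ)
  obtain ⟨m0, hm0⟩ := local_aux u hu hgen χ ψ n _ _ h0.1 (fun i t => hg0 i t) rfl
  refine ⟨m0, fun m hm => ?_⟩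
  have h1 := hm0 m hm
  rw [h0.2, (key _ (VV_val u hu hgen (χ ^ m * ψ))).2, (key _ (VV_val u hu hgen (χ ^ m * ψ⁻¹))).2,
    VV_u u hu, VV_u u hu, VV_u u hu, dg_hmul, dg_hmul, dg_hpow, dg_hinv] at h1
  have e1 : 2 * (m : ℤ) * (n * dg χ g0 + wdet (VV u χ) n (Fin n) A) =
    n * (m * dg χ g0 + dg ψ g0) + n * (m * dg χ g0 + - dg ψ g0) +
      2 * m * wdet (VV u χ) n (Fin n) A := by ring
  rw [e1] at h1
  linarith

end

end Pool.Agent.Y352.SP
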