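import Pool.Agent.Y352.SP.Loc3
import Pool.Agent.Y352.SP.K1b

/-!
# The torsion of a short complex and the local inequality
-/

set_option autoImplicit false

namespace Pool.Agent.Y352.SP

open Finset TN970
open scoped Classical

section
variable {Γ : Type} [Group Γ] {D : Type} [DivisionRing D] (u : Γ →* Dˣ)

theorem one_sub_ne (hu : Linnell u) (k : Γ) (hk : k ≠ 1) : (1 : D) - ((u k : Dˣ) : D) ≠ 0 := by
  intro h
  have h1 := lin_zero u hu (⊥ : Subgroup Γ) inferInstance {1, k}
    (fun g => if g = 1 then 1 else -1) (by
      intro g _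
      by_cases hg : g = 1
      · rw [if_pos hg]; exact one_mem _
      · rw [if_neg hg]; exact neg_mem (one_mem _)) (by
      intro g _ h _ hgh hm
      rw [Subgroup.mem_bot] at hm
      exact hgh (mul_inv_eq_one.1 hm)) (by
      rw [Finset.sum_pair hk.symm, if_pos rfl, if_neg hk, u_one, one_mul, neg_one_mul,
        ← sub_eq_add_neg]
      exact h) 1 (by simp)
  rw [if_pos rfl] at h1
  exact one_ne_zero h1

theorem VV_one_sub (hu : Linnell u) (hgen : ∀ x : D, x ∈ Dc u ⊤) (η : Γ →* Multiplicative ℤ)
    (k : Γ) (hk : k ≠ 1) : VV u η ((1 : D) - ((u k : Dˣ) : D)) = max 0 (dg η k) := by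
  have hv := VV_val u hu hgen η
  rcases lt_trichotomy (dg η k) 0 with h | h | h
  · rw [max_eq_left h.le, sub_eq_add_neg, (hv.of_lt one_ne_zero ?_).2, hv.one]
    refine Or.inr ?_
    rw [w_neg hv.mul, VV_u u hu, hv.one]
    omega
  · rw [h, max_self]
    refine VV_c u hu ?_ (one_sub_ne u hu k hk)
    exact sub_mem (one_mem _) (u_Dc u η.ker ((mem_ker_iff η k).2 h))
  · have h1 : (1 : D) - ((u k : Dˣ) : D) = -((u k : Dˣ) : D) + 1 := by abel
    have h2 : VV u η (-((u k : Dˣ) : D)) = dg η k := by rw [w_neg hv.mul, VV_u u hu]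
    rw [max_eq_right h.le, h1, (hv.of_lt (neg_ne_zero.2 (u_ne u k)) ?_).2, h2]
    refine Or.inr ?_
    rw [h2, hv.one]
    omega

/-- The augmentation. -/
noncomputable def aug (Γ : Type) [Group Γ] : MonoidAlgebra ℤ Γ →+* ℤ :=
  (MonoidAlgebra.lift ℤ ℤ Γ (1 : Γ →* ℤ)).toRingHom

theorem aug_of (g : Γ) : aug Γ (MonoidAlgebra.of ℤ Γ g) = 1 := by
  show MonoidAlgebra.lift ℤ ℤ Γ (1 : Γ →* ℤ) (MonoidAlgebra.of ℤ Γ g) = 1
  rw [MonoidAlgebra.lift_of]
  rfl

theorem ev_of (g : Γ) : ev u (MonoidAlgebra.of ℤ Γ g) = ((u g : Dˣ) : D) := by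
  show MonoidAlgebra.lift ℤ D Γ ((Units.coeHom D).comp u) (MonoidAlgebra.of ℤ Γ g) = _
  rw [MonoidAlgebra.lift_of]
  rfl

theorem ev_SpP (L : Subgroup Γ) (z : MonoidAlgebra ℤ Γ) :
    ev u z ∈ SpP u L (fun _ => True) := by
  induction z using MonoidAlgebra.induction_on with
  | of g =>
    rw [ev_of]
    exact u_mem u L trivial
  | add x y hx hy =>
    rw [map_add]
    exact Submodule.add_mem _ hx hy
  | smul r x hx =>
    rw [zsmul_eq_mul, map_mul, map_intCast]
    exact dc_smul u L (intCast_mem _ r) hx

/-- The rows `T_k`: `(1 - k) e_z` and `e_i - e_z`. -/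
noncomputable def TT {a : ℕ} (z : Fin a) (k : Γ) : Matrix (Fin a) (Fin a) (MonoidAlgebra ℤ Γ) :=
  fun i j => if i = z then (if j = z then 1 - MonoidAlgebra.of ℤ Γ k else 0)
    else (if j = i then 1 else if j = z then -1 else 0)

theorem TT_aug {a : ℕ} (z : Fin a) (k : Γ) (i : Fin a) : ∑ j, aug Γ (TT z k i j) = 0 := by
  unfold TT
  by_cases hi : i = z
  · simp only [if_pos hi]
    rw [Finset.sum_eq_single z]
    · rw [if_pos rfl, map_sub, map_one, aug_of, sub_self]
    · intro j _ hj
      rw [if_neg hj, map_zero]
    · simp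
  · simp only [if_neg hi]
    rw [Finset.sum_eq_add i z hi]
    · rw [if_pos rfl, if_neg (fun h => hi h.symm), if_pos rfl, map_one, map_neg, map_one]
      simp
    · intro j _ hj
      rw [if_neg hj.1, if_neg hj.2, map_zero]
    · simp
    · simp

/-- The product of the matrix `N_k` with the torsion matrix: the determinant. -/
theorem wdet_torsion {w : D → ℤ} (hw : ∀ x y : D, x ≠ 0 → y ≠ 0 → w (x * y) = w x + w y)
    {a b c : ℕ} (A : Matrix (Fin c) (Fin b) D) (B : Matrix (Fin b) (Fin a) D)
    (F : Matrix (Fin a) (Fin b) D) (G : Matrix (Fin b) (Fin c) D)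
    (hAB : A * B = 0) (hAG : A * G = 1) (hFG : B * F + G * A = 1)
    (σ : Fin b ≃ Fin a ⊕ Fin c) (z : Fin a) (x : D) (hx : x ≠ 0)
    (W : Matrix (Fin a) (Fin b) D)
    (hW : ∀ i j, (W * B) i j = if i = z then (if j = z then x else 0)
      else (if j = i then 1 else if j = z then -1 else 0)) :
    LinearIndependent D (fun i j => (Matrix.fromCols B G).submatrix id σ i j) ∧
    LinearIndependent D (fun (s : Fin c ⊕ Fin a) (j : Fin b) =>
      Sum.elim (fun i => A i j) (fun i => W i j) s) ∧
    wdet w b (Fin c ⊕ Fin a) (fun s j => Sum.elim (fun i => A i j) (fun i => W i j) s) +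
      wdet w b (Fin b) (fun i j => (Matrix.fromCols B G).submatrix id σ i j) = w x := by
  set M : Fin b → Fin b → D := fun i j => (Matrix.fromCols B G).submatrix id σ i j with hM
  set NN : Fin c ⊕ Fin a → Fin b → D :=
    fun s j => Sum.elim (fun i => A i j) (fun i => W i j) s with hNN
  -- the product
  have hMl : ∀ i j, M i (σ.symm (Sum.inl j)) = B i j := by
    intro i j
    simp [hM]
  have hMr : ∀ i j, M i (σ.symm (Sum.inr j)) = G i j := by
    intro i j
    simp [hM]
  have hP : ∀ s t, mulF NN M s t = ∑ j, NN s j * M j t := by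
    intro s t
    unfold mulF
    rw [Finset.sum_apply]
    rfl
  -- rows of `M` are independent
  have hMli : LinearIndependent D M := by
    rw [Fintype.linearIndependent_iff]
    intro g hg i
    have h1 : ∀ t, ∑ j, g j * M j t = 0 := by
      intro t
      have := congrFun hg t
      rw [Finset.sum_apply] at this
      exact this
    have h2 : Matrix.vecMul g B = 0 := by
      funext j
      have := h1 (σ.symm (Sum.inl j))
      simp only [hMl] at this
      exact this
    have h3 : Matrix.vecMul g G = 0 := by
      funext j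
      have := h1 (σ.symm (Sum.inr j))
      simp only [hMr] at this
      exact this
    have h4 : Matrix.vecMul g (B * F + G * A) = 0 := by
      rw [Matrix.vecMul_add, ← Matrix.vecMul_vecMul, ← Matrix.vecMul_vecMul, h2, h3,
        Matrix.zero_vecMul, Matrix.zero_vecMul, add_zero]
    rw [hFG, Matrix.vecMul_one] at h4
    exact congrFun h4 i
  -- the comparison family
  let e : Fin c ⊕ Fin a ≃ Fin b := (Equiv.sumComm _ _).trans σ.symm
  have hY := wdet_perm hw e
  have hcard : Fintype.card (Fin c ⊕ Fin a) = b := by rw [Fintype.card_congr e]; simp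
  have hYl : ∀ i t, idF D b (e (Sum.inl i)) t = if σ t = Sum.inr i then 1 else 0 := by
    intro i t
    show (Pi.single (σ.symm (Sum.inr i)) 1 : Fin b → D) t = _
    rw [Pi.single_apply]
    by_cases h : t = σ.symm (Sum.inr i)
    · rw [if_pos h, if_pos (by rw [h]; simp)]
    · rw [if_neg h, if_neg (fun h' => h (by rw [← h']; simp))]
  have hYr : ∀ i t, idF D b (e (Sum.inr i)) t = if σ t = Sum.inl i then 1 else 0 := by
    intro i t
    show (Pi.single (σ.symm (Sum.inl i)) 1 : Fin b → D) t = _
    rw [Pi.single_apply]
    by_cases h : t = σ.symm (Sum.inl i)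
    · rw [if_pos h, if_pos (by rw [h]; simp)]
    · rw [if_neg h, if_neg (fun h' => h (by rw [← h']; simp))]
  have htri := wdet_tri hw (fun s => idF D b (e s)) (mulF NN M) hY.1 hcard
    (Sum.elim (fun _ => 0) (fun i => if i = z then 1 else 2))
    (Sum.elim (fun _ => 1) (fun i => if i = z then x else 1))
    (by
      rintro (i | i)
      · exact one_ne_zero
      · by_cases hi : i = z
        · simp [hi, hx]
        · simp [hi])
    (Sum.elim (fun _ => 0) (fun i => Sum.elim (fun j => (W * G) i j)
      (fun j => if i ≠ z ∧ j = z then -1 else 0)))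
    (by
      rintro (i | i) (j | j) h
      · rfl
      · rfl
      · exfalso
        simp only [Sum.elim_inr, Sum.elim_inl] at h
        split_ifs at h <;> omega
      · simp only [Sum.elim_inr] at h ⊢
        rw [if_neg]
        rintro ⟨h1, h2⟩
        rw [if_neg h1, if_pos h2] at h
        omega)
    (by
      rintro (i | i)
      · funext t
        simp only [Sum.elim_inl, one_smul, Pi.zero_apply, zero_smul, Finset.sum_const_zero,
          add_zero]
        rw [hYl, hP]
        obtain ⟨t, rfl⟩ := σ.symm.surjective t
        rcases t with t | t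
        · simp only [hMl]
          have h1 := congrFun (congrFun hAB i) t
          rw [Matrix.mul_apply] at h1
          rw [σ.apply_symm_apply, if_neg (by simp)]
          exact h1
        · simp only [hMr]
          have h1 := congrFun (congrFun hAG i) t
          rw [Matrix.mul_apply, Matrix.one_apply] at h1
          rw [σ.apply_symm_apply]
          refine h1.trans ?_
          by_cases h : i = t
          · rw [if_pos h, if_pos (by rw [h])]
          · rw [if_neg h, if_neg (fun h' => h (Sum.inr_injective h').symm)]
      · funext t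
        rw [hP, Pi.add_apply, Fintype.sum_sum_type]
        simp only [Sum.elim_inr, Sum.elim_inl, Pi.smul_apply, Pi.add_apply, Finset.sum_apply,
          smul_eq_mul]
        simp only [hYl, hYr]
        obtain ⟨t, rfl⟩ := σ.symm.surjective t
        simp only [σ.apply_symm_apply]
        rcases t with t | t
        · simp only [hMl]
          have h1 := hW i t
          rw [Matrix.mul_apply] at h1
          refine h1.trans ?_
          have e1 : ∑ j : Fin c, (W * G) i j *
              (if (Sum.inl t : Fin a ⊕ Fin c) = Sum.inr j then (1 : D) else 0) = 0 :=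
            Finset.sum_eq_zero fun j _ => by rw [if_neg (by simp), mul_zero]
          rw [e1, zero_add, Finset.sum_eq_single t]
          · by_cases hi : i = z
            · subst hi
              by_cases ht : t = i
              · subst ht; simp
              · simp [ht]
            · by_cases ht : t = i
              · subst ht; simp [hi]
              · by_cases hz : t = z
                · subst hz; simp [hi, ht]
                · simp [hi, ht, hz]
          · intro j _ hj
            rw [if_neg (fun h => hj (Sum.inl_injective h).symm), mul_zero]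
          · simp
        · simp only [hMr]
          have e1 : ∑ j : Fin a, (if i ≠ z ∧ j = z then (-1 : D) else 0) *
              (if (Sum.inr t : Fin a ⊕ Fin c) = Sum.inl j then (1 : D) else 0) = 0 :=
            Finset.sum_eq_zero fun j _ => by rw [if_neg (by simp : ¬ (Sum.inr t : Fin a ⊕ Fin c) =
              Sum.inl j), mul_zero]
          rw [e1, add_zero, if_neg (by simp : ¬ (Sum.inr t : Fin a ⊕ Fin c) = Sum.inl i), mul_zero,
            zero_add, Finset.sum_eq_single t]
          · rw [if_pos rfl, mul_one, Matrix.mul_apply]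
            rfl
          · intro j _ hj
            rw [if_neg (fun h => hj (Sum.inr_injective h).symm), mul_zero]
          · simp)
  have hNli : LinearIndependent D NN := li_of_mul htri.1
  refine ⟨hMli, hNli, ?_⟩
  have h1 := (wdet_mul' hw e.symm hNli hMli).2
  rw [← h1, htri.2, hY.2, add_zero, Fintype.sum_sum_type]
  simp only [Sum.elim_inl, Sum.elim_inr, w_one hw, Finset.sum_const_zero, zero_add]
  rw [Finset.sum_eq_single z]
  · rw [if_pos rfl]
  · intro i _ hi
    rw [if_neg hi, w_one hw]
  · simp

end

end Pool.Agent.Y352.SP
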