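import Pool.Agent.Y352.SP.Main1

/-!
# The local inequality for the torsion
-/

set_option autoImplicit false

namespace Pool.Agent.Y352.SP

open Finset TN970
open scoped Classical

/-- A group with an injective character to `ℤ` is trivial or infinite cyclic. -/
theorem triv_or_int {Γ : Type} [Group Γ] (ψ : Γ →* Multiplicative ℤ)
    (h : ∀ k : Γ, k ≠ 1 → dg ψ k ≠ 0) : (∀ k : Γ, k = 1) ∨ Nonempty (Γ ≃* Multiplicative ℤ) := by
  have hinj : Function.Injective ψ := by
    rw [injective_iff_map_eq_one]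
    intro k hk
    by_contra hne
    exact h k hne (by unfold dg; rw [hk]; rfl)
  have hc : IsCyclic Γ := isCyclic_of_injective ψ hinj
  by_cases hf : Finite Γ
  · left
    intro k
    by_contra hne
    have h1 : IsOfFinOrder k := isOfFinOrder_of_finite k
    obtain ⟨n, hn, hk⟩ := isOfFinOrder_iff_pow_eq_one.1 h1
    have h2 : dg ψ (k ^ n) = n * dg ψ k := by
      unfold dg
      rw [map_pow, toAdd_pow, nsmul_eq_mul]
    rw [hk, dg_one] at h2
    rcases mul_eq_zero.1 h2.symm with h3 | h3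
    · have : n = 0 := by exact_mod_cast h3
      omega
    · exact h k hne h3
  · right
    have : Infinite Γ := not_finite_iff_infinite.1 hf
    exact ⟨(intCyclicMulEquiv (G := Γ)).symm⟩

section
variable {Γ : Type} [Group Γ] {D : Type} [DivisionRing D] (u : Γ →* Dˣ)

theorem dg_comb (χ ψ : Γ →* Multiplicative ℤ) (m : ℕ) (k : Γ) :
    dg (χ ^ m * ψ) k = m * dg χ k + dg ψ k := by
  unfold dg
  rw [MonoidHom.mul_apply, MonoidHom.pow_apply, toAdd_mul, toAdd_pow, nsmul_eq_mul]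

theorem dg_comb' (χ ψ : Γ →* Multiplicative ℤ) (m : ℕ) (k : Γ) :
    dg (χ ^ m * ψ⁻¹) k = m * dg χ k - dg ψ k := by
  rw [dg_comb]
  unfold dg
  rw [MonoidHom.inv_apply, toAdd_inv]
  ring

theorem VV_triv (hu : Linnell u) (hgen : ∀ x : D, x ∈ Dc u ⊤) (η : Γ →* Multiplicative ℤ)
    (hη : ∀ k, dg η k = 0) (x : D) (hx : x ≠ 0) : VV u η x = 0 := by
  refine VV_c u hu ?_ hx
  have h1 : (⊤ : Subgroup Γ) ≤ η.ker := fun k _ => (mem_ker_iff η k).2 (hη k)
  exact dc_mono u h1 (hgen x)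

/-- The rows `T_k` are boundaries. -/
theorem exists_W {a b : ℕ} (B : Matrix (Fin b) (Fin a) (MonoidAlgebra ℤ Γ))
    (hex : ∀ v : Fin a → MonoidAlgebra ℤ Γ, ∑ j, aug Γ (v j) = 0 → ∃ w, v = Matrix.vecMul w B)
    (z : Fin a) (k : Γ) :
    ∃ W : Matrix (Fin a) (Fin b) D, (∀ (L : Subgroup Γ) i j, W i j ∈ SpP u L (fun _ => True)) ∧
      ∀ i j, (W * B.map (ev u)) i j = if i = z then (if j = z then 1 - ((u k : Dˣ) : D) else 0)
        else (if j = i then 1 else if j = z then -1 else 0) := by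
  have h0 : ∀ i, ∃ w : Fin b → MonoidAlgebra ℤ Γ, TT z k i = Matrix.vecMul w B := fun i =>
    hex (TT z k i) (TT_aug z k i)
  choose W0 hW0 using h0
  let W : Matrix (Fin a) (Fin b) D := fun i j => ev u (W0 i j)
  refine ⟨W, fun L i j => ev_SpP u L _, ?_⟩
  intro i j
  have h1 := congrFun (hW0 i) j
  have h2 : (W * B.map (ev u)) i j = ev u (TT z k i j) := by
    rw [h1, Matrix.mul_apply]
    show _ = ev u (∑ t, W0 i t * B t j)
    rw [map_sum]
    refine Finset.sum_congr rfl fun t _ => ?_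
    rw [map_mul]
    rfl
  rw [h2]
  unfold TT
  by_cases hi : i = z
  · rw [if_pos hi, if_pos hi]
    by_cases hj : j = z
    · rw [if_pos hj, if_pos hj, map_sub, map_one, ev_of]
    · rw [if_neg hj, if_neg hj, map_zero]
  · rw [if_neg hi, if_neg hi]
    by_cases hj : j = i
    · rw [if_pos hj, if_pos hj, map_one]
    · rw [if_neg hj, if_neg hj]
      by_cases hz : j = z
      · rw [if_pos hz, if_pos hz, map_neg, map_one]
      · rw [if_neg hz, if_neg hz, map_zero]

/-- The torsion in terms of the matrix `N_k`. -/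
theorem torsion_eq_W (hu : Linnell u) (hgen : ∀ x : D, x ∈ Dc u ⊤) {a b c : ℕ}
    (A : Matrix (Fin c) (Fin b) D) (B : Matrix (Fin b) (Fin a) D)
    (F : Matrix (Fin a) (Fin b) D) (G : Matrix (Fin b) (Fin c) D)
    (hAB : A * B = 0) (hAG : A * G = 1) (hFG : B * F + G * A = 1)
    (σ : Fin b ≃ Fin a ⊕ Fin c) (z : Fin a) (x : D) (hx : x ≠ 0)
    (hrep : K1Rep ((Matrix.fromCols B G).submatrix id σ) x) (k : Γ) (hk : k ≠ 1)
    (W : Matrix (Fin a) (Fin b) D)
    (hW : ∀ i j, (W * B) i j = if i = z then (if j = z then 1 - ((u k : Dˣ) : D) else 0)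
        else (if j = i then 1 else if j = z then -1 else 0)) (η : Γ →* Multiplicative ℤ) :
    LinearIndependent D (fun (s : Fin c ⊕ Fin a) (j : Fin b) =>
      Sum.elim (fun i => A i j) (fun i => W i j) s) ∧
    - VV u η x = wdet (VV u η) b (Fin c ⊕ Fin a)
      (fun s j => Sum.elim (fun i => A i j) (fun i => W i j) s) - max 0 (dg η k) := by
  have hv := VV_val u hu hgen η
  obtain ⟨hM, hN, h⟩ := wdet_torsion hv.mul A B F G hAB hAG hFG σ z
    (1 - ((u k : Dˣ) : D)) (one_sub_ne u hu k hk) W hW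
  rw [VV_one_sub u hu hgen η k hk, wdet_of_k1rep hv.mul hx hM hrep] at h
  exact ⟨hN, by linarith⟩

/-- The torsion in terms of a matrix over the group ring. -/
theorem torsion_eq (hu : Linnell u) (hgen : ∀ x : D, x ∈ Dc u ⊤) {a b c : ℕ}
    (A : Matrix (Fin c) (Fin b) (MonoidAlgebra ℤ Γ)) (B : Matrix (Fin b) (Fin a) (MonoidAlgebra ℤ Γ))
    (hex : ∀ v : Fin a → MonoidAlgebra ℤ Γ, ∑ j, aug Γ (v j) = 0 → ∃ w, v = Matrix.vecMul w B)
    (F : Matrix (Fin a) (Fin b) D) (G : Matrix (Fin b) (Fin c) D)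
    (hAB : A.map (ev u) * B.map (ev u) = 0) (hAG : A.map (ev u) * G = 1)
    (hFG : B.map (ev u) * F + G * A.map (ev u) = 1)
    (σ : Fin b ≃ Fin a ⊕ Fin c) (z : Fin a) (x : D) (hx : x ≠ 0)
    (hrep : K1Rep ((Matrix.fromCols (B.map (ev u)) G).submatrix id σ) x) (k : Γ) (hk : k ≠ 1) :
    ∃ NF : Fin b → Fin b → D, LinearIndependent D NF ∧
      (∀ (L : Subgroup Γ) i t, NF i t ∈ SpP u L (fun _ => True)) ∧
      ∀ η : Γ →* Multiplicative ℤ,
        - VV u η x = wdet (VV u η) b (Fin b) NF - max 0 (dg η k) := by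
  obtain ⟨W, hWe, hW⟩ := exists_W u B hex z k
  let τ : Fin b ≃ Fin c ⊕ Fin a := σ.trans (Equiv.sumComm _ _)
  let NN : Fin c ⊕ Fin a → Fin b → D :=
    fun s j => Sum.elim (fun i => A.map (ev u) i j) (fun i => W i j) s
  have key := torsion_eq_W u hu hgen (A.map (ev u)) (B.map (ev u)) F G hAB hAG hFG σ z x hx hrep
    k hk W hW
  have hli : LinearIndependent D NN := (key 1).1
  refine ⟨fun i => NN (τ i), hli.comp _ τ.injective, ?_, ?_⟩
  · intro L i t
    show NN (τ i) t ∈ _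
    rcases τ i with s | s
    · exact ev_SpP u L _
    · exact hWe L _ _
  · intro η
    have hv := VV_val u hu hgen η
    have hcard : Fintype.card (Fin c ⊕ Fin a) = b := by rw [← Fintype.card_congr τ]; simp
    have h2 := wdet_reindex hv.mul τ NN hli hcard
    rw [h2]
    exact (key η).2

/-- The local inequality for the torsion. -/
theorem torsion_local (hu : Linnell u) (hgen : ∀ x : D, x ∈ Dc u ⊤)
    (hZ : ¬ Nonempty (Γ ≃* Multiplicative ℤ)) {a b c : ℕ}
    (A : Matrix (Fin c) (Fin b) (MonoidAlgebra ℤ Γ)) (B : Matrix (Fin b) (Fin a) (MonoidAlgebra ℤ Γ))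
    (hex : ∀ v : Fin a → MonoidAlgebra ℤ Γ, ∑ j, aug Γ (v j) = 0 → ∃ w, v = Matrix.vecMul w B)
    (F : Matrix (Fin a) (Fin b) D) (G : Matrix (Fin b) (Fin c) D)
    (hAB : A.map (ev u) * B.map (ev u) = 0) (hAG : A.map (ev u) * G = 1)
    (hFG : B.map (ev u) * F + G * A.map (ev u) = 1)
    (σ : Fin b ≃ Fin a ⊕ Fin c) (z : Fin a) (x : D) (hx : x ≠ 0)
    (hrep : K1Rep ((Matrix.fromCols (B.map (ev u)) G).submatrix id σ) x)
    (χ ψ : Γ →* Multiplicative ℤ) :
    ∃ m0 : ℕ, ∀ m : ℕ, m0 ≤ m → 2 * m * (- VV u χ x) ≤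
      (- VV u (χ ^ m * ψ) x) + (- VV u (χ ^ m * ψ⁻¹) x) := by
  -- a lemma for a good element `k`
  have good : ∀ k : Γ, k ≠ 1 → (dg χ k ≠ 0 ∨ (dg χ k = 0 ∧ dg ψ k = 0)) →
      ∃ m0 : ℕ, ∀ m : ℕ, m0 ≤ m → 2 * m * (- VV u χ x) ≤
        (- VV u (χ ^ m * ψ) x) + (- VV u (χ ^ m * ψ⁻¹) x) := by
    intro k hk hgood
    obtain ⟨NF, hNF, hent, hval⟩ := torsion_eq u hu hgen A B hex F G hAB hAG hFG σ z x hx hrep k hk
    obtain ⟨m0, hm0⟩ := local_ineq u hu hgen χ ψ NF hNF (fun i t => hent _ i t)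
    refine ⟨max m0 (dg ψ k).natAbs, fun m hm => ?_⟩
    have h1 := hm0 m (le_trans (le_max_left _ _) hm)
    have h2 : (|dg ψ k| : ℤ) ≤ m := by
      have : (dg ψ k).natAbs ≤ m := le_trans (le_max_right _ _) hm
      rw [Int.abs_eq_natAbs]
      exact_mod_cast this
    rw [hval χ, hval (χ ^ m * ψ), hval (χ ^ m * ψ⁻¹), dg_comb, dg_comb']
    have h3 : max 0 ((m : ℤ) * dg χ k + dg ψ k) + max 0 ((m : ℤ) * dg χ k - dg ψ k) ≤
        2 * m * max 0 (dg χ k) := by
      rw [abs_le] at h2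
      rcases lt_trichotomy (dg χ k) 0 with h | h | h
      · have h4 : (m : ℤ) * dg χ k ≤ -m := by nlinarith
        rw [max_eq_left (by linarith), max_eq_left (by linarith), max_eq_left h.le]
        simp
      · rcases hgood with hg | hg
        · exact absurd h hg
        · rw [hg.1, hg.2]
          simp
      · have h4 : (m : ℤ) ≤ m * dg χ k := by nlinarith
        rw [max_eq_right (by linarith), max_eq_right (by linarith), max_eq_right h.le]
        linarith
    have h4 : 2 * (m : ℤ) * (wdet (VV u χ) b (Fin b) NF - max 0 (dg χ k)) =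
        2 * m * wdet (VV u χ) b (Fin b) NF - 2 * m * max 0 (dg χ k) := by ring
    rw [h4]
    linarith
  by_cases hχ : ∃ k, dg χ k ≠ 0
  · obtain ⟨k, hk⟩ := hχ
    refine good k (fun h => hk ?_) (Or.inl hk)
    rw [h, dg_one]
  · push Not at hχ
    by_cases hψ : ∃ k : Γ, k ≠ 1 ∧ dg ψ k = 0
    · obtain ⟨k, hk, hk0⟩ := hψ
      exact good k hk (Or.inr ⟨hχ k, hk0⟩)
    · push Not at hψ
      rcases triv_or_int ψ hψ with h | h
      · refine ⟨0, fun m _ => ?_⟩
        have ht : ∀ η : Γ →* Multiplicative ℤ, VV u η x = 0 := fun η =>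
          VV_triv u hu hgen η (fun k => by rw [h k, dg_one]) x hx
        rw [ht, ht, ht]
        simp
      · exact absurd h hZ

end

end Pool.Agent.Y352.SP
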