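import Mathlib

/-!
# Local convexity of a difference of support functions implies subadditivity
-/

set_option autoImplicit false

namespace Pool.Agent.Y352.SP

open Filter Topology

/-- The support function of a finite set of lattice points of the plane. -/
noncomputable def mx (S : Finset (ℤ × ℤ)) (hS : S.Nonempty) (x y : ℝ) : ℝ :=
  S.sup' hS (fun P => x * P.1 + y * P.2)

theorem le_mx {S : Finset (ℤ × ℤ)} (hS : S.Nonempty) (x y : ℝ) {P : ℤ × ℤ} (hP : P ∈ S) :
    x * P.1 + y * P.2 ≤ mx S hS x y :=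
  Finset.le_sup' (fun P : ℤ × ℤ => x * (P.1 : ℝ) + y * P.2) hP

theorem mx_le {S : Finset (ℤ × ℤ)} (hS : S.Nonempty) {x y c : ℝ}
    (h : ∀ P ∈ S, x * P.1 + y * P.2 ≤ c) : mx S hS x y ≤ c :=
  Finset.sup'_le hS _ h

theorem mx_exists {S : Finset (ℤ × ℤ)} (hS : S.Nonempty) (x y : ℝ) :
    ∃ P ∈ S, mx S hS x y = x * P.1 + y * P.2 :=
  Finset.exists_mem_eq_sup' hS (fun P : ℤ × ℤ => x * (P.1 : ℝ) + y * P.2)

theorem mx_smul {S : Finset (ℤ × ℤ)} (hS : S.Nonempty) (x y c : ℝ) (hc : 0 ≤ c) :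
    mx S hS (c * x) (c * y) = c * mx S hS x y := by
  apply le_antisymm
  · apply mx_le
    intro P hP
    have := mul_le_mul_of_nonneg_left (le_mx hS x y hP) hc
    linarith
  · obtain ⟨P, hP, h⟩ := mx_exists hS x y
    rw [h]
    have := le_mx hS (c * x) (c * y) hP
    linarith

theorem mx_cont {S : Finset (ℤ × ℤ)} (hS : S.Nonempty) :
    Continuous (fun t : ℝ => mx S hS (1 - t) t) := by
  unfold mx
  apply Continuous.finset_sup'_apply
  intro P _
  fun_prop

theorem mx_linear {S : Finset (ℤ × ℤ)} (hS : S.Nonempty) {t0 : ℝ} (h0 : Irrational t0) :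
    ∃ P : ℤ × ℤ, ∀ᶠ t in 𝓝 t0, mx S hS (1 - t) t = (1 - t) * P.1 + t * P.2 := by
  obtain ⟨P, hP, h⟩ := mx_exists hS (1 - t0) t0
  refine ⟨P, ?_⟩
  have h1 : ∀ Q ∈ S, ∀ᶠ t in 𝓝 t0, (1 - t) * (Q.1 : ℝ) + t * Q.2 ≤ (1 - t) * P.1 + t * P.2 := by
    intro Q hQ
    by_cases hQP : Q = P
    · rw [hQP]
      exact Eventually.of_forall fun t => le_rfl
    have hle := le_mx hS (1 - t0) t0 hQ
    rw [h] at hle
    have hne : (1 - t0) * (Q.1 : ℝ) + t0 * Q.2 ≠ (1 - t0) * P.1 + t0 * P.2 := by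
      intro he
      apply hQP
      have e1 : t0 * (((Q.2 - P.2) - (Q.1 - P.1) : ℤ) : ℝ) = ((P.1 - Q.1 : ℤ) : ℝ) := by
        push_cast
        linarith
      by_cases hz : (Q.2 - P.2) - (Q.1 - P.1) = 0
      · rw [hz] at e1
        have e2 : ((P.1 - Q.1 : ℤ) : ℝ) = 0 := by rw [← e1]; simp
        have e3 : P.1 - Q.1 = 0 := by exact_mod_cast e2
        exact Prod.ext (by omega) (by omega)
      · exfalso
        apply h0
        refine ⟨((P.1 - Q.1 : ℤ) : ℚ) / (((Q.2 - P.2) - (Q.1 - P.1) : ℤ) : ℚ), ?_⟩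
        have hz' : ((((Q.2 - P.2) - (Q.1 - P.1) : ℤ)) : ℝ) ≠ 0 := by exact_mod_cast hz
        rw [Rat.cast_div, Rat.cast_intCast, Rat.cast_intCast, div_eq_iff hz', ← e1]
    have hlt := lt_of_le_of_ne hle hne
    have c1 : Continuous (fun t : ℝ => (1 - t) * (Q.1 : ℝ) + t * Q.2) := by fun_prop
    have c2 : Continuous (fun t : ℝ => (1 - t) * (P.1 : ℝ) + t * P.2) := by fun_prop
    have := (c1.tendsto t0).eventually_lt (c2.tendsto t0) hlt
    exact this.mono fun t ht => ht.le
  have h2 := (Finset.eventually_all S).2 h1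
  refine h2.mono fun t ht => ?_
  apply le_antisymm
  · exact mx_le hS ht
  · exact le_mx hS _ _ hP

/-- A positively homogeneous difference of support functions of lattice polygons which is locally
convex is subadditive. -/
theorem subadd_of_local (S1 S2 : Finset (ℤ × ℤ)) (h1 : S1.Nonempty) (h2 : S2.Nonempty)
    (F : ℤ → ℤ → ℤ) (hF : ∀ p q : ℤ, (F p q : ℝ) = mx S1 h1 p q - mx S2 h2 p q)
    (hloc : ∀ p q : ℕ, ∃ m0 : ℕ, ∀ m : ℕ, m0 ≤ m →
      2 * m * F p q ≤ F (m * p - 1) (m * q + 1) + F (m * p + 1) (m * q - 1)) :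
    F 1 1 ≤ F 1 0 + F 0 1 := by
  by_contra hcon
  push Not at hcon
  let G : ℝ → ℝ := fun t => mx S1 h1 (1 - t) t - mx S2 h2 (1 - t) t
  have hGc : Continuous G := (mx_cont h1).sub (mx_cont h2)
  -- values at rational points
  have hGF : ∀ (p q : ℤ) (N : ℝ), 0 < N → (p : ℝ) + q = N → (F p q : ℝ) = N * G (q / N) := by
    intro p q N hN hpq
    have e1 : (1 : ℝ) - q / N = p / N := by
      field_simp
      linarith
    have e2 : N * (1 - q / N) = p := by rw [e1]; field_simp
    have e3 : N * (q / N) = q := by field_simp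
    show _ = N * (mx S1 h1 _ _ - mx S2 h2 _ _)
    rw [mul_sub, ← mx_smul h1 _ _ N hN.le, ← mx_smul h2 _ _ N hN.le, e2, e3, hF]
  let ell : ℝ → ℝ := fun t => G t - ((1 - t) * G 0 + t * G 1)
  have hec : Continuous ell := by
    apply hGc.sub
    fun_prop
  have he0 : ell 0 = 0 := by simp [ell]
  have he1 : ell 1 = 0 := by simp [ell]
  have hhalf : 0 < ell (1 / 2) := by
    have a1 := hGF 1 1 2 (by norm_num) (by norm_num)
    have a2 := hGF 1 0 1 (by norm_num) (by norm_num)
    have a3 := hGF 0 1 1 (by norm_num) (by norm_num)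
    have a4 : ((F 1 0 + F 0 1 : ℤ) : ℝ) < F 1 1 := by exact_mod_cast hcon
    push_cast at a1 a2 a3 a4
    have e1 : (0 : ℝ) / 1 = 0 := by norm_num
    have e2 : (1 : ℝ) / 1 = 1 := by norm_num
    rw [e1] at a2
    rw [e2] at a3
    show 0 < G (1 / 2) - ((1 - 1 / 2) * G 0 + 1 / 2 * G 1)
    linarith
  -- the first maximum
  obtain ⟨tm, htm, hmax⟩ := isCompact_Icc.exists_isMaxOn (⟨0, by norm_num⟩ :
    (Set.Icc (0 : ℝ) 1).Nonempty) hec.continuousOn
  set M := ell tm with hM
  have hMpos : 0 < M := lt_of_lt_of_le hhalf (hmax (by norm_num))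
  have hcomp : IsCompact (Set.Icc (0 : ℝ) 1 ∩ {t | ell t = M}) :=
    isCompact_Icc.inter_right (isClosed_eq hec continuous_const)
  obtain ⟨t0, ⟨ht0, ht0M⟩, hleast⟩ := hcomp.exists_isLeast ⟨tm, htm, rfl⟩
  have ht0M' : ell t0 = M := ht0M
  have h00 : 0 < t0 := by
    rcases ht0.1.lt_or_eq with h | h
    · exact h
    · rw [← h, he0] at ht0M'
      linarith
  have h01 : t0 < 1 := by
    rcases ht0.2.lt_or_eq with h | h
    · exact h
    · rw [h, he1] at ht0M'
      linarith
  -- it is enough to find a small step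
  have key : ∀ s : ℝ, 0 < s → s ≤ t0 → s ≤ 1 - t0 → 2 * G t0 ≤ G (t0 - s) + G (t0 + s) → False := by
    intro s hs hs1 hs2 hG
    have b1 : 2 * ell t0 ≤ ell (t0 - s) + ell (t0 + s) := by
      simp only [ell]
      linarith
    have b2 : ell (t0 + s) ≤ M := hmax ⟨by linarith, by linarith⟩
    have b3 : ell (t0 - s) ≤ M := hmax ⟨by linarith, by linarith⟩
    have b4 : ell (t0 - s) = M := by linarith
    have b5 := hleast ⟨⟨by linarith, by linarith⟩, b4⟩
    linarith
  by_cases hirr : Irrational t0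
  · obtain ⟨P, hP⟩ := mx_linear h1 hirr
    obtain ⟨Q, hQ⟩ := mx_linear h2 hirr
    have hPQ := hP.and hQ
    rw [Metric.eventually_nhds_iff] at hPQ
    obtain ⟨ε, hε, hball⟩ := hPQ
    have hs0 : 0 < min (ε / 2) (min t0 (1 - t0)) := by
      apply lt_min (by linarith)
      exact lt_min h00 (by linarith)
    set s := min (ε / 2) (min t0 (1 - t0)) with hs
    have hs1 : s ≤ ε / 2 := min_le_left _ _
    have hs2 : s ≤ t0 := (min_le_right _ _).trans (min_le_left _ _)
    have hs3 : s ≤ 1 - t0 := (min_le_right _ _).trans (min_le_right _ _)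
    apply key s hs0 hs2 hs3
    have c1 := hball (y := t0) (by simp [hε])
    have c2 := hball (y := t0 - s) (by
      rw [Real.dist_eq]
      have : t0 - s - t0 = -s := by ring
      rw [this, abs_neg, abs_of_pos hs0]
      linarith)
    have c3 := hball (y := t0 + s) (by
      rw [Real.dist_eq]
      have : t0 + s - t0 = s := by ring
      rw [this, abs_of_pos hs0]
      linarith)
    show 2 * (mx S1 h1 (1 - t0) t0 - mx S2 h2 (1 - t0) t0) ≤
      (mx S1 h1 (1 - (t0 - s)) (t0 - s) - mx S2 h2 (1 - (t0 - s)) (t0 - s)) +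
      (mx S1 h1 (1 - (t0 + s)) (t0 + s) - mx S2 h2 (1 - (t0 + s)) (t0 + s))
    rw [c1.1, c1.2, c2.1, c2.2, c3.1, c3.2]
    apply le_of_eq
    ring
  · -- the rational case
    unfold Irrational at hirr
    push Not at hirr
    obtain ⟨r, hr⟩ := hirr
    have hr0 : 0 < r := by
      have : (0 : ℝ) < (r : ℝ) := by rw [hr]; exact h00
      exact_mod_cast this
    have hr1 : r < 1 := by
      have : (r : ℝ) < ((1 : ℚ) : ℝ) := by rw [hr]; simpa using h01
      exact_mod_cast this
    have hden : (0 : ℚ) < r.den := by exact_mod_cast r.den_pos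
    have hnum0 : 0 < r.num := Rat.num_pos.2 hr0
    have hnum1 : r.num < r.den := by
      exact Rat.num_lt_denom_iff.2 hr1
    obtain ⟨q, hq⟩ := Int.eq_ofNat_of_zero_le hnum0.le
    obtain ⟨p, hp⟩ := Int.eq_ofNat_of_zero_le (show 0 ≤ (r.den : ℤ) - r.num by omega)
    have hq1 : 0 < q := by omega
    have hp1 : 0 < p := by omega
    have hpq : ((p : ℤ) : ℝ) + ((q : ℤ) : ℝ) = r.den := by
      have : (p : ℤ) + q = r.den := by omega
      exact_mod_cast this
    have ht0q : t0 = (q : ℝ) / (p + q) := by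
      rw [← hr]
      have h5 : (r : ℝ) = (r.num : ℝ) / (r.den : ℝ) := by
        conv_lhs => rw [← Rat.num_div_den r]
        push_cast
        rfl
      rw [h5, hq]
      push_cast at hpq ⊢
      rw [hpq]
    obtain ⟨m0, hm0⟩ := hloc p q
    have hmx : 0 < max m0 1 := lt_of_lt_of_le one_pos (le_max_right _ _)
    have h6 := hm0 (max m0 1) (le_max_left _ _)
    set m := max m0 1 with hm
    have hmR : (1 : ℝ) ≤ (m : ℝ) := by exact_mod_cast hmx
    have hqR : (1 : ℝ) ≤ (q : ℝ) := by exact_mod_cast hq1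
    have hpR : (1 : ℝ) ≤ (p : ℝ) := by exact_mod_cast hp1
    have hNpos : (0 : ℝ) < m * (p + q) := by positivity
    have g1 := hGF (m * p - 1) (m * q + 1) (m * (p + q)) hNpos (by push_cast; ring)
    have g2 := hGF (m * p + 1) (m * q - 1) (m * (p + q)) hNpos (by push_cast; ring)
    have g3 := hGF p q (p + q) (by positivity) (by push_cast; ring)
    have h7 : 2 * (m : ℝ) * (F p q : ℝ) ≤ (F (m * p - 1) (m * q + 1) : ℝ) +
        (F (m * p + 1) (m * q - 1) : ℝ) := by exact_mod_cast h6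
    rw [g1, g2, g3] at h7
    have hs0 : (0 : ℝ) < 1 / (m * (p + q)) := by positivity
    apply key (1 / (m * (p + q))) hs0
    · rw [ht0q, div_le_div_iff₀ hNpos (by positivity)]
      nlinarith
    · have e1 : 1 - t0 = (p : ℝ) / (p + q) := by
        rw [ht0q]
        field_simp
        ring
      rw [e1, div_le_div_iff₀ hNpos (by positivity)]
      nlinarith
    · have e2 : ((m * q - 1 : ℤ) : ℝ) / (m * (p + q)) = t0 - 1 / (m * (p + q)) := by
        rw [ht0q]
        push_cast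
        field_simp
      have e3 : ((m * q + 1 : ℤ) : ℝ) / (m * (p + q)) = t0 + 1 / (m * (p + q)) := by
        rw [ht0q]
        push_cast
        field_simp
      have e4 : ((q : ℤ) : ℝ) / (p + q) = t0 := by
        rw [ht0q]
        push_cast
        rfl
      rw [e2, e3, e4] at h7
      have h8 : (m * ((p : ℝ) + q)) * (2 * G t0) ≤
          (m * ((p : ℝ) + q)) * (G (t0 - 1 / (m * (p + q))) + G (t0 + 1 / (m * (p + q)))) := by
        linarith
      exact le_of_mul_le_mul_left h8 hNpos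

end Pool.Agent.Y352.SP
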