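import Mathlib

/-!
# Polytopes in `H_1(Γ; ℝ)` and integral characters
-/

set_option autoImplicit false

namespace Pool.Agent.Y352.SP

open scoped TensorProduct Pointwise

section
variable {Γ : Type} [Group Γ]

/-- The class of `g` in `H_1(Γ; ℝ)`. -/
noncomputable def pt (g : Γ) : ℝ ⊗[ℤ] (Additive (Abelianization Γ)) :=
  (1 : ℝ) ⊗ₜ[ℤ] (Additive.ofMul (Abelianization.of g))

theorem pt_mul (g h : Γ) : pt (g * h) = pt g + pt h := by
  unfold pt
  rw [map_mul, ofMul_mul, TensorProduct.tmul_add]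

/-- Approximation of a real character by an integral one. -/
theorem approx [Group.FG Γ] (ℓ : Γ → ℝ) (hℓ : ∀ g h, ℓ (g * h) = ℓ g + ℓ h) (s : Γ) (T : Finset Γ)
    (h : ∀ t ∈ T, ℓ t < ℓ s) : ∃ η : Γ →* Multiplicative ℤ, ∀ t ∈ T,
      Multiplicative.toAdd (η t) < Multiplicative.toAdd (η s) := by
  classical
  obtain ⟨gen, hgen⟩ := (Group.FG.out : (⊤ : Subgroup Γ).FG)
  let L : Submodule ℤ ℝ := Submodule.span ℤ (ℓ '' (gen : Set Γ))
  have h1 : ℓ 1 = 0 := by
    have := hℓ 1 1
    rw [mul_one] at this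
    linarith
  have hinv : ∀ g, ℓ g⁻¹ = - ℓ g := fun g => by
    have := hℓ g g⁻¹
    rw [mul_inv_cancel, h1] at this
    linarith
  have hL : ∀ g, ℓ g ∈ L := by
    intro g
    have hg : g ∈ Subgroup.closure (gen : Set Γ) := by rw [hgen]; trivial
    induction hg using Subgroup.closure_induction with
    | mem x hx => exact Submodule.subset_span ⟨x, hx, rfl⟩
    | one => rw [h1]; exact L.zero_mem
    | mul x y _ _ hx hy => rw [hℓ]; exact L.add_mem hx hy
    | inv x _ hx => rw [hinv]; exact L.neg_mem hx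
  haveI : Module.Finite ℤ L := by
    rw [Module.Finite.iff_fg]
    exact Submodule.fg_span (gen.finite_toSet.image ℓ)
  haveI : Module.Free ℤ L := inferInstance
  let b := Module.finBasis ℤ L
  let ρ := Module.finrank ℤ L
  let co : Γ → Fin ρ → ℤ := fun g => b.repr ⟨ℓ g, hL g⟩
  have hco : ∀ g k, ∀ i, co (g * k) i = co g i + co k i := by
    intro g k i
    have e : (⟨ℓ (g * k), hL (g * k)⟩ : L) = ⟨ℓ g, hL g⟩ + ⟨ℓ k, hL k⟩ := Subtype.ext (hℓ g k)
    simp only [co]
    rw [e, map_add]
    rfl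
  have hsum : ∀ g, ℓ g = ∑ i, (co g i : ℝ) * (b i : ℝ) := by
    intro g
    have e := b.sum_repr ⟨ℓ g, hL g⟩
    have e2 := congrArg (fun z : L => (z : ℝ)) e
    simp only [Submodule.coe_sum, Submodule.coe_smul, zsmul_eq_mul] at e2
    exact e2.symm
  -- the open condition
  have hopen : IsOpen {θ : Fin ρ → ℝ | ∀ t ∈ T, 0 < ∑ i, ((co s i - co t i : ℤ) : ℝ) * θ i} := by
    have e : {θ : Fin ρ → ℝ | ∀ t ∈ T, 0 < ∑ i, ((co s i - co t i : ℤ) : ℝ) * θ i} =
        ⋂ t ∈ T, {θ : Fin ρ → ℝ | 0 < ∑ i, ((co s i - co t i : ℤ) : ℝ) * θ i} := by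
      ext θ
      simp
    rw [e]
    apply isOpen_biInter_finset
    intro t _
    apply isOpen_lt continuous_const
    fun_prop
  have hmem : (fun i => (b i : ℝ)) ∈
      {θ : Fin ρ → ℝ | ∀ t ∈ T, 0 < ∑ i, ((co s i - co t i : ℤ) : ℝ) * θ i} := by
    intro t ht
    have h2 := h t ht
    rw [hsum t, hsum s] at h2
    have e : ∑ i, ((co s i - co t i : ℤ) : ℝ) * (b i : ℝ) =
        ∑ i, (co s i : ℝ) * (b i : ℝ) - ∑ i, (co t i : ℝ) * (b i : ℝ) := by
      rw [← Finset.sum_sub_distrib]
      refine Finset.sum_congr rfl fun i _ => ?_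
      push_cast
      ring
    rw [e]
    linarith
  have hdense : DenseRange (fun (q : Fin ρ → ℚ) (i : Fin ρ) => ((q i : ℚ) : ℝ)) :=
    DenseRange.piMap (fun _ => Rat.denseRange_cast)
  obtain ⟨q, hq⟩ := hdense.exists_mem_open hopen ⟨_, hmem⟩
  -- clear the denominators
  let N : ℕ := ∏ i, (q i).den
  have hNpos : 0 < N := Finset.prod_pos fun i _ => (q i).den_pos
  have hint : ∀ i, ∃ z : ℤ, (z : ℝ) = (N : ℝ) * (q i : ℝ) := by
    intro i
    obtain ⟨c, hc⟩ := Finset.dvd_prod_of_mem (fun i => (q i).den) (Finset.mem_univ i)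
    refine ⟨c * (q i).num, ?_⟩
    have e1 : (N : ℝ) = (q i).den * c := by
      have : N = (q i).den * c := hc
      exact_mod_cast this
    have e2 : (q i : ℝ) = (q i).num / (q i).den := by
      conv_lhs => rw [← Rat.num_div_den (q i)]
      push_cast
      rfl
    have hd : ((q i).den : ℝ) ≠ 0 := by exact_mod_cast (q i).den_ne_zero
    rw [e1, e2]
    push_cast
    field_simp
  choose z hz using hint
  let η : Γ →* Multiplicative ℤ :=
    { toFun := fun g => Multiplicative.ofAdd (∑ i, z i * co g i)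
      map_one' := by
        have e : ∀ i, co (1 : Γ) i = 0 := by
          intro i
          have := hco 1 1 i
          rw [mul_one] at this
          omega
        simp [e]
      map_mul' := by
        intro g k
        rw [← ofAdd_add, ← Finset.sum_add_distrib]
        congr 1
        refine Finset.sum_congr rfl fun i _ => ?_
        rw [hco]
        ring }
  refine ⟨η, fun t ht => ?_⟩
  show ∑ i, z i * co t i < ∑ i, z i * co s i
  have h3 := hq t ht
  have h4 : (0 : ℝ) < ∑ i, (z i : ℝ) * ((co s i - co t i : ℤ) : ℝ) := by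
    have e : ∑ i, (z i : ℝ) * ((co s i - co t i : ℤ) : ℝ) =
        N * ∑ i, ((co s i - co t i : ℤ) : ℝ) * (q i : ℝ) := by
      rw [Finset.mul_sum]
      refine Finset.sum_congr rfl fun i _ => ?_
      rw [hz]
      ring
    rw [e]
    have : (0 : ℝ) < N := by exact_mod_cast hNpos
    exact mul_pos this h3
  have h5 : (0 : ℤ) < ∑ i, z i * (co s i - co t i) := by
    have : (0 : ℝ) < ((∑ i, z i * (co s i - co t i) : ℤ) : ℝ) := by
      push_cast at h4 ⊢
      exact h4
    exact_mod_cast this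
  have e : ∑ i, z i * (co s i - co t i) = ∑ i, z i * co s i - ∑ i, z i * co t i := by
    rw [← Finset.sum_sub_distrib]
    refine Finset.sum_congr rfl fun i _ => ?_
    ring
  rw [e] at h5
  linarith

/-- If every integral character is at most as large on `S` as on `T`, the polytope of `S` is
contained in the polytope of `T`. -/
theorem conv_le [Group.FG Γ] (S T : Finset Γ)
    (h : ∀ η : Γ →* Multiplicative ℤ, ∀ s ∈ S, ∃ t ∈ T,
      Multiplicative.toAdd (η s) ≤ Multiplicative.toAdd (η t)) :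
    convexHull ℝ (pt '' (S : Set Γ)) ⊆ convexHull ℝ (pt '' (T : Set Γ)) := by
  classical
  haveI : Module.Finite ℤ (Additive (Abelianization Γ)) := by
    haveI : Group.FG (Abelianization Γ) :=
      Group.fg_of_surjective (f := (Abelianization.of : Γ →* Abelianization Γ))
        (QuotientGroup.mk_surjective)
    infer_instance
  apply convexHull_min _ (convex_convexHull ℝ _)
  rintro _ ⟨s, hs, rfl⟩
  by_contra hnot
  let V := ℝ ⊗[ℤ] (Additive (Abelianization Γ))
  haveI : Module.Finite ℝ V := inferInstance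
  let e : V ≃ₗ[ℝ] (Fin (Module.finrank ℝ V) → ℝ) := (Module.finBasis ℝ V).equivFun
  have himg : e.toLinearMap '' (convexHull ℝ (pt '' (T : Set Γ))) =
      convexHull ℝ (e.toLinearMap '' (pt '' (T : Set Γ))) :=
    LinearMap.image_convexHull _ _
  have hcomp : IsCompact (convexHull ℝ (e.toLinearMap '' (pt '' (T : Set Γ)))) :=
    Set.Finite.isCompact_convexHull ℝ ((T.finite_toSet.image _).image _)
  have hnot' : e (pt s) ∉ convexHull ℝ (e.toLinearMap '' (pt '' (T : Set Γ))) := by
    rw [← himg]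
    rintro ⟨y, hy, hye⟩
    have : y = pt s := e.injective hye
    rw [this] at hy
    exact hnot hy
  obtain ⟨f, r, hf1, hf2⟩ := geometric_hahn_banach_closed_point (convex_convexHull ℝ _)
    hcomp.isClosed hnot'
  obtain ⟨η, hη⟩ := approx (fun g => f (e (pt g))) (by
    intro g k
    rw [pt_mul, map_add, map_add]) s T (by
    intro t ht
    have h1 := hf1 (e (pt t)) (subset_convexHull ℝ _ ⟨pt t, ⟨t, ht, rfl⟩, rfl⟩)
    linarith)
  obtain ⟨t, ht, hle⟩ := h η s hs
  have := hη t ht
  omega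

end

end Pool.Agent.Y352.SP
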