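import Pool.Agent.Y352.SP.Main2
import Pool.Agent.Y352.SP.Path
import Pool.Agent.Y352.SP.Sep
import Pool.Agent.Helper970.TN.P_thurston
import Pool.Agent.Helper970.TN.P_fg_hom
import Pool.Agent.Helper970.TN.P_eval_surj
import Pool.Agent.Helper970.TN.P_frac_Dc

/-!
# The torsion polytope is a single polytope
-/

set_option autoImplicit false

namespace Pool.Agent.Y352.SP

open Finset TN970
open scoped Classical Pointwise

/-- The kernel of the projection of `Γ` to `H_1(Γ; ℤ)` modulo torsion. -/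
def KH (Γ : Type) [Group Γ] : Subgroup Γ :=
  (CommGroup.torsion (Abelianization Γ)).comap Abelianization.of

/-- `f = ∑_{g ∈ T} c_g g` with nonzero coefficients `c_g` in the division subring generated by
`K`, and `T` consists of elements of pairwise different cosets of `K`. -/
def IsSupp {Γ : Type} [Group Γ] {D : Type} [DivisionRing D] (u : Γ →* Dˣ) (f : D)
    (T : Finset Γ) : Prop :=
  ∃ c : Γ → D, (∀ g ∈ T, c g ∈ Dc u (KH Γ) ∧ c g ≠ 0) ∧
    (∀ g ∈ T, ∀ h ∈ T, g ≠ h → g * h⁻¹ ∉ KH Γ) ∧ f = ∑ g ∈ T, c g * ((u g : Dˣ) : D)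

section
variable {Γ : Type} [Group Γ]

theorem KH_normal : (KH Γ).Normal := by
  unfold KH
  infer_instance

theorem KH_le (η : Γ →* Multiplicative ℤ) : KH Γ ≤ η.ker := by
  intro k hk
  rw [mem_ker_iff]
  have h1 : IsOfFinOrder (Abelianization.of k) := hk
  obtain ⟨n, hn, hk2⟩ := isOfFinOrder_iff_pow_eq_one.1 h1
  have h2 : (Abelianization.lift η) ((Abelianization.of k) ^ n) = 1 := by rw [hk2, map_one]
  rw [map_pow, Abelianization.lift_apply_of] at h2
  have h3 : dg η (k ^ n) = 0 := by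
    unfold dg
    rw [map_pow, h2]
    rfl
  have h4 : dg η (k ^ n) = n * dg η k := by
    unfold dg
    rw [map_pow, toAdd_pow, nsmul_eq_mul]
  rw [h4] at h3
  rcases mul_eq_zero.1 h3 with h5 | h5
  · have : n = 0 := by exact_mod_cast h5
    omega
  · exact h5

theorem comm_mem_KH (x y : Γ) : x * y * x⁻¹ * y⁻¹ ∈ KH Γ := by
  have h1 : Abelianization.of (x * y * x⁻¹ * y⁻¹) = 1 := by
    rw [map_mul, map_mul, map_mul, map_inv, map_inv, mul_comm (Abelianization.of x)]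
    group
  show Abelianization.of (x * y * x⁻¹ * y⁻¹) ∈ CommGroup.torsion (Abelianization Γ)
  rw [h1]
  exact one_mem _

theorem dg_ext {η χ : Γ →* Multiplicative ℤ} (h : ∀ g, dg η g = dg χ g) : η = χ :=
  MonoidHom.ext fun g => Multiplicative.toAdd.injective (h g)

theorem dg_zz (φ ψ : Γ →* Multiplicative ℤ) (p q : ℤ) (g : Γ) :
    dg (φ ^ p * ψ ^ q) g = p * dg φ g + q * dg ψ g := by
  unfold dg
  rw [MonoidHom.mul_apply, MonoidHom.zpow_apply, MonoidHom.zpow_apply, toAdd_mul, toAdd_zpow,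
    toAdd_zpow, smul_eq_mul, smul_eq_mul]

variable {D : Type} [DivisionRing D] (u : Γ →* Dˣ)

theorem supp_nonempty {f : D} {T : Finset Γ} (h : IsSupp u f T) (hf : f ≠ 0) : T.Nonempty := by
  rw [Finset.nonempty_iff_ne_empty]
  rintro rfl
  obtain ⟨c, _, _, rfl⟩ := h
  simp at hf

theorem VV_isSupp (hu : Linnell u) (hgen : ∀ x : D, x ∈ Dc u ⊤) {f : D} {T : Finset Γ}
    (hT : T.Nonempty) (h : IsSupp u f T) (η : Γ →* Multiplicative ℤ) :
    VV u η f = T.sup' hT (dg η) := by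
  obtain ⟨c, hc, hd, rfl⟩ := h
  obtain ⟨a, ha, ha2⟩ := Finset.exists_mem_eq_sup' hT (dg η)
  rw [ha2]
  exact (VV_supp u hu hgen (KH Γ) KH_normal η (KH_le η) T c hc hd a ha (fun g hg => by
    rw [← ha2]
    exact Finset.le_sup' (dg η) hg)).2

theorem isSupp_of_mem {x : D} (hx : x ∈ SpP u (KH Γ) (fun _ => True)) :
    ∃ T : Finset Γ, IsSupp u x T := by
  obtain ⟨T, c, h1, h2, h3⟩ := sp_rep u (KH Γ) KH_normal (P := fun _ => True)
    (fun _ _ _ _ => trivial) hx
  exact ⟨T, c, fun g hg => (h1 g hg).2, h2, h3⟩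

/-- Every element is a fraction of elements with a support. -/
theorem exists_frac (hu : Linnell u) (hgen : ∀ x : D, x ∈ Dc u ⊤) (x : D) :
    ∃ (f g : D) (S T : Finset Γ), g ≠ 0 ∧ IsSupp u f S ∧ IsSupp u g T ∧ g * x = f := by
  obtain ⟨g, hg, hg0, hgx⟩ := frac_Dc u hu (KH Γ) ⊤ KH_normal le_top
    (fun x _ y _ => comm_mem_KH x y) x (hgen x)
  rw [rn_eq] at hg hgx
  obtain ⟨T, hT⟩ := isSupp_of_mem u hg
  obtain ⟨S, hS⟩ := isSupp_of_mem u hgx
  exact ⟨g * x, g, S, T, hg0, hS, hT, rfl⟩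

theorem sup_mx (T : Finset Γ) (hT : T.Nonempty) (φ ψ : Γ →* Multiplicative ℤ) (p q : ℤ) :
    ((T.sup' hT (dg (φ ^ p * ψ ^ q)) : ℤ) : ℝ) =
      mx (T.image fun g => (dg φ g, dg ψ g)) (hT.image _) p q := by
  apply le_antisymm
  · obtain ⟨a, ha, ha2⟩ := Finset.exists_mem_eq_sup' hT (dg (φ ^ p * ψ ^ q))
    rw [ha2, dg_zz]
    have h := le_mx (hT.image fun g => (dg φ g, dg ψ g)) (p : ℝ) q
      (Finset.mem_image_of_mem (fun g => (dg φ g, dg ψ g)) ha)
    push_cast
    exact h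
  · refine mx_le _ fun P hP => ?_
    obtain ⟨g, hg, rfl⟩ := Finset.mem_image.1 hP
    have h := Finset.le_sup' (dg (φ ^ p * ψ ^ q)) hg
    rw [dg_zz] at h
    have h2 : ((p * dg φ g + q * dg ψ g : ℤ) : ℝ) ≤
        ((T.sup' hT (dg (φ ^ p * ψ ^ q)) : ℤ) : ℝ) := by exact_mod_cast h
    push_cast at h2
    exact h2

theorem sup_pow (T : Finset Γ) (hT : T.Nonempty) (φ : Γ →* Multiplicative ℤ) (k : ℕ) :
    T.sup' hT (dg (φ ^ k)) = k * T.sup' hT (dg φ) := by
  have h0 : ∀ g, dg (φ ^ k) g = k * dg φ g := by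
    intro g
    unfold dg
    rw [MonoidHom.pow_apply, toAdd_pow, nsmul_eq_mul]
  apply le_antisymm
  · refine Finset.sup'_le _ _ fun g hg => ?_
    rw [h0]
    exact mul_le_mul_of_nonneg_left (Finset.le_sup' (dg φ) hg) (by positivity)
  · obtain ⟨a, ha, ha2⟩ := Finset.exists_mem_eq_sup' hT (dg φ)
    rw [ha2, ← h0]
    exact Finset.le_sup' (dg (φ ^ k)) ha

/-- A function which satisfies the local inequality and is a difference of support functions is
a support function. -/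
theorem exists_R [Group.FG Γ] (hu : Linnell u) (hgen : ∀ x : D, x ∈ Dc u ⊤) (x : D) (hx : x ≠ 0)
    (hloc : ∀ χ ψ : Γ →* Multiplicative ℤ, ∃ m0 : ℕ, ∀ m : ℕ, m0 ≤ m →
      2 * m * (- VV u χ x) ≤ (- VV u (χ ^ m * ψ) x) + (- VV u (χ ^ m * ψ⁻¹) x)) :
    ∃ R : Finset Γ, R.Nonempty ∧ ∀ η : Γ →* Multiplicative ℤ,
      (∀ r ∈ R, dg η r ≤ - VV u η x) ∧ ∃ r ∈ R, dg η r = - VV u η x := by
  obtain ⟨f, g, S, T, hg0, hS, hT, hfg⟩ := exists_frac u hu hgen x
  have hf0 : f ≠ 0 := by rw [← hfg]; exact mul_ne_zero hg0 hx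
  have hSn := supp_nonempty u hS hf0
  have hTn := supp_nonempty u hT hg0
  have hH : ∀ η : Γ →* Multiplicative ℤ, - VV u η x = T.sup' hTn (dg η) - S.sup' hSn (dg η) := by
    intro η
    have hv := VV_val u hu hgen η
    have h1 := hv.mul g x hg0 hx
    rw [hfg, VV_isSupp u hu hgen hSn hS, VV_isSupp u hu hgen hTn hT] at h1
    linarith
  have hsub : ∀ φ ψ : Γ →* Multiplicative ℤ,
      - VV u (φ * ψ) x ≤ - VV u φ x + - VV u ψ x := by
    intro φ ψ
    have h := subadd_of_local (T.image fun g => (dg φ g, dg ψ g))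
      (S.image fun g => (dg φ g, dg ψ g)) (hTn.image _) (hSn.image _)
      (fun p q => - VV u (φ ^ p * ψ ^ q) x) (by
        intro p q
        rw [← sup_mx T hTn, ← sup_mx S hSn, hH]
        push_cast
        ring) (by
        intro p q
        obtain ⟨m0, hm0⟩ := hloc (φ ^ (p : ℤ) * ψ ^ (q : ℤ)) (φ⁻¹ * ψ)
        refine ⟨m0, fun m hm => ?_⟩
        have h1 := hm0 m hm
        have e1 : (φ ^ (p : ℤ) * ψ ^ (q : ℤ)) ^ m * (φ⁻¹ * ψ) =
            φ ^ ((m : ℤ) * p - 1) * ψ ^ ((m : ℤ) * q + 1) := by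
          refine dg_ext fun g => ?_
          rw [dg_comb, dg_zz, dg_zz]
          have : dg (φ⁻¹ * ψ) g = - dg φ g + dg ψ g := by
            have := dg_zz φ ψ (-1) 1 g
            rw [zpow_neg_one, zpow_one] at this
            rw [this]
            ring
          rw [this]
          ring
        have e2 : (φ ^ (p : ℤ) * ψ ^ (q : ℤ)) ^ m * (φ⁻¹ * ψ)⁻¹ =
            φ ^ ((m : ℤ) * p + 1) * ψ ^ ((m : ℤ) * q - 1) := by
          refine dg_ext fun g => ?_
          rw [dg_comb', dg_zz, dg_zz]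
          have : dg (φ⁻¹ * ψ) g = - dg φ g + dg ψ g := by
            have := dg_zz φ ψ (-1) 1 g
            rw [zpow_neg_one, zpow_one] at this
            rw [this]
            ring
          rw [this]
          ring
        rw [e1, e2] at h1
        exact h1)
    simp only [zpow_one, zpow_zero, mul_one, one_mul] at h
    exact h
  have hpow : ∀ (φ : Γ →* Multiplicative ℤ) (k : ℕ), - VV u (φ ^ k) x = k * (- VV u φ x) := by
    intro φ k
    rw [hH, hH, sup_pow, sup_pow]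
    ring
  obtain ⟨s, hs⟩ := fg_hom (Γ := Γ)
  obtain ⟨TT, hT1, hT2⟩ := thurston (V := Additive (Γ →* Multiplicative ℤ)) s hs
    (fun y => - VV u (Additive.toMul y) x) (fun y z => hsub _ _) (fun k y => hpow _ k)
  choose gg hgg using fun a : Additive (Γ →* Multiplicative ℤ) →+ ℤ => eval_surj a
  refine ⟨TT.image gg, ?_, ?_⟩
  · obtain ⟨a, ha, _⟩ := hT2 0
    exact ⟨gg a, Finset.mem_image_of_mem _ ha⟩
  · intro η
    constructor
    · intro r hr
      obtain ⟨a, ha, rfl⟩ := Finset.mem_image.1 hr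
      have h1 := hT1 a ha (Additive.ofMul η)
      rw [hgg a η] at h1
      exact h1
    · obtain ⟨a, ha, h1⟩ := hT2 (Additive.ofMul η)
      refine ⟨gg a, Finset.mem_image_of_mem _ ha, ?_⟩
      rw [hgg a η] at h1
      exact h1

/-- From values of characters to polytopes. -/
theorem conv_of_values [Group.FG Γ] (hu : Linnell u) (hgen : ∀ x : D, x ∈ Dc u ⊤) (x : D)
    (hx : x ≠ 0) (R : Finset Γ) (hR : ∀ η : Γ →* Multiplicative ℤ,
      (∀ r ∈ R, dg η r ≤ - VV u η x) ∧ ∃ r ∈ R, dg η r = - VV u η x)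
    (f g : D) (hg0 : g ≠ 0) (hfg : g * x = f ∨ x * g = f) (S T : Finset Γ) (hS : IsSupp u f S)
    (hT : IsSupp u g T) :
    convexHull ℝ (pt '' (T : Set Γ)) =
      convexHull ℝ (pt '' (S : Set Γ)) + convexHull ℝ (pt '' (R : Set Γ)) := by
  have hf0 : f ≠ 0 := by
    rcases hfg with h | h
    · rw [← h]; exact mul_ne_zero hg0 hx
    · rw [← h]; exact mul_ne_zero hx hg0
  have hSn := supp_nonempty u hS hf0
  have hTn := supp_nonempty u hT hg0
  have hH : ∀ η : Γ →* Multiplicative ℤ, - VV u η x = T.sup' hTn (dg η) - S.sup' hSn (dg η) := by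
    intro η
    have hv := VV_val u hu hgen η
    have h0 : VV u η f = VV u η g + VV u η x := by
      rcases hfg with h | h
      · rw [← h, hv.mul g x hg0 hx]
      · rw [← h, hv.mul x g hx hg0]; ring
    rw [VV_isSupp u hu hgen hSn hS, VV_isSupp u hu hgen hTn hT] at h0
    linarith
  have himg : pt '' ((S * R : Finset Γ) : Set Γ) = pt '' (S : Set Γ) + pt '' (R : Set Γ) := by
    ext v
    constructor
    · rintro ⟨y, hy, rfl⟩
      rw [Finset.mem_coe, Finset.mem_mul] at hy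
      obtain ⟨s, hs, r, hr, rfl⟩ := hy
      rw [pt_mul]
      exact Set.add_mem_add ⟨s, hs, rfl⟩ ⟨r, hr, rfl⟩
    · rintro ⟨_, ⟨s, hs, rfl⟩, _, ⟨r, hr, rfl⟩, rfl⟩
      exact ⟨s * r, Finset.mem_coe.2 (Finset.mul_mem_mul hs hr), pt_mul s r⟩
  rw [← convexHull_add, ← himg]
  apply Set.Subset.antisymm
  · apply conv_le
    intro η t ht
    obtain ⟨s, hs, hs2⟩ := Finset.exists_mem_eq_sup' hSn (dg η)
    obtain ⟨r, hr, hr2⟩ := (hR η).2
    refine ⟨s * r, Finset.mul_mem_mul hs hr, ?_⟩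
    show dg η t ≤ dg η (s * r)
    rw [dg_mul, ← hs2, hr2, hH]
    have := Finset.le_sup' (dg η) ht
    linarith
  · apply conv_le
    intro η y hy
    obtain ⟨s, hs, r, hr, rfl⟩ := Finset.mem_mul.1 hy
    obtain ⟨t, ht, ht2⟩ := Finset.exists_mem_eq_sup' hTn (dg η)
    refine ⟨t, ht, ?_⟩
    show dg η (s * r) ≤ dg η t
    have h1 := (hR η).1 r hr
    have h2 := Finset.le_sup' (dg η) hs
    rw [hH] at h1
    rw [dg_mul, ← ht2]
    linarith

end

end Pool.Agent.Y352.SP
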