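import Pool.Agent.Y352.SP.Main3

/-!
# The torsion of an acyclic complex and its polytope
-/

set_option autoImplicit false

namespace Pool.Agent.Y352.SP

open Finset TN970
open scoped Classical Pointwise

/-- The unit `x` represents the torsion of the acyclic based complex
`0 → D^c → D^b → D^a → 0` with the differentials `A` and `B` (acting on row vectors): there is a
chain contraction `F`, `G` such that the square matrix `[B | G] : C_odd → C_even` and `x` have the
same class in `K_1(D)`. -/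
def IsTorsion {D : Type} [DivisionRing D] {a b c : ℕ} (A : Matrix (Fin c) (Fin b) D)
    (B : Matrix (Fin b) (Fin a) D) (x : D) : Prop :=
  ∃ (F : Matrix (Fin a) (Fin b) D) (G : Matrix (Fin b) (Fin c) D) (σ : Fin b ≃ Fin a ⊕ Fin c),
    F * B = 1 ∧ B * F + G * A = 1 ∧ A * G = 1 ∧ x ≠ 0 ∧
    K1Rep ((Matrix.fromCols B G).submatrix id σ) x

section
variable {D : Type} [DivisionRing D]

/-- The torsion of an acyclic complex exists. -/
theorem exists_torsion {a b c : ℕ} (A : Matrix (Fin c) (Fin b) D)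
    (B : Matrix (Fin b) (Fin a) D) (hAB : A * B = 0)
    (e0 : ∀ v : Fin a → D, ∃ w, v = Matrix.vecMul w B)
    (e1 : ∀ v : Fin b → D, Matrix.vecMul v B = 0 → ∃ w, v = Matrix.vecMul w A)
    (e2 : ∀ w : Fin c → D, Matrix.vecMul w A = 0 → w = 0) : ∃ x : D, IsTorsion A B x := by
  -- the contraction
  have hF : ∃ F : Matrix (Fin a) (Fin b) D, F * B = 1 := by
    choose F0 hF using fun i : Fin a => e0 (Pi.single i 1)
    let F : Matrix (Fin a) (Fin b) D := F0
    refine ⟨F, ?_⟩
    funext i j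
    have h1 := congrFun (hF i) j
    rw [Matrix.one_apply]
    have h2 : (F * B) i j = Matrix.vecMul (F0 i) B j := rfl
    rw [h2, ← h1, Pi.single_apply]
    simp only [eq_comm]
  obtain ⟨F, hF⟩ := hF
  have hBFB : (1 - B * F) * B = 0 := by
    rw [Matrix.sub_mul, Matrix.one_mul, Matrix.mul_assoc, hF, Matrix.mul_one, sub_self]
  have hG : ∃ G : Matrix (Fin b) (Fin c) D, G * A = 1 - B * F := by
    have h0 : ∀ i : Fin b, ∃ w : Fin c → D,
        (fun j => (1 - B * F : Matrix (Fin b) (Fin b) D) i j) = Matrix.vecMul w A := by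
      intro i
      refine e1 _ ?_
      funext j
      exact congrFun (congrFun hBFB i) j
    choose G0 hG using h0
    let G : Matrix (Fin b) (Fin c) D := G0
    exact ⟨G, funext fun i => (hG i).symm⟩
  obtain ⟨G, hG⟩ := hG
  have hFG : B * F + G * A = 1 := by rw [hG]; abel
  have hAG : A * G = 1 := by
    have h1 : (A * G - 1) * A = 0 := by
      rw [Matrix.sub_mul, Matrix.one_mul, Matrix.mul_assoc, hG, Matrix.mul_sub, Matrix.mul_one,
        ← Matrix.mul_assoc, hAB, Matrix.zero_mul, sub_zero, sub_self]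
    have h2 : A * G - 1 = 0 := by
      funext i
      apply e2
      funext j
      exact congrFun (congrFun h1 i) j
    exact sub_eq_zero.1 h2
  have hFGz : F * G = 0 := by
    have h1 : (F * G) * A = 0 := by
      rw [Matrix.mul_assoc, hG, Matrix.mul_sub, Matrix.mul_one, ← Matrix.mul_assoc, hF,
        Matrix.one_mul, sub_self]
    funext i
    apply e2
    funext j
    exact congrFun (congrFun h1 i) j
  have hcard : Fintype.card (Fin b) = Fintype.card (Fin a ⊕ Fin c) := by
    refine Matrix.square_of_invertible (Matrix.fromCols B G) (Matrix.fromRows F A) ?_ ?_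
    · rw [Matrix.fromCols_mul_fromRows, hFG]
    · rw [Matrix.fromRows_mul_fromCols, hF, hFGz, hAB, hAG, Matrix.fromBlocks_one]
  let σ : Fin b ≃ Fin a ⊕ Fin c := Fintype.equivOfCardEq hcard
  have hM : LinearIndependent D (fun i j => (Matrix.fromCols B G).submatrix id σ i j) := by
    rw [Fintype.linearIndependent_iff]
    intro g hg i
    have h1 : ∀ t, ∑ j, g j * (Matrix.fromCols B G) j (σ t) = 0 := by
      intro t
      have := congrFun hg t
      rw [Finset.sum_apply] at this
      exact this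
    have h2 : Matrix.vecMul g B = 0 := by
      funext j
      have := h1 (σ.symm (Sum.inl j))
      rw [σ.apply_symm_apply] at this
      exact this
    have h3 : Matrix.vecMul g G = 0 := by
      funext j
      have := h1 (σ.symm (Sum.inr j))
      rw [σ.apply_symm_apply] at this
      exact this
    have h4 : Matrix.vecMul g (B * F + G * A) = 0 := by
      rw [Matrix.vecMul_add, ← Matrix.vecMul_vecMul, ← Matrix.vecMul_vecMul, h2, h3,
        Matrix.zero_vecMul, Matrix.zero_vecMul, add_zero]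
    rw [hFG, Matrix.vecMul_one] at h4
    exact congrFun h4 i
  obtain ⟨x, hx, hr⟩ := k1_exists _ hM
  exact ⟨x, F, G, σ, hF, hFG, hAG, hx, hr⟩

end

section
variable {Γ : Type} [Group Γ] {D : Type} [DivisionRing D] (u : Γ →* Dˣ)

/-- The degrees of the torsion are well defined. -/
theorem torsion_indep (hu : Linnell u) (hgen : ∀ x : D, x ∈ Dc u ⊤) {a b c : ℕ}
    (A : Matrix (Fin c) (Fin b) (MonoidAlgebra ℤ Γ)) (B : Matrix (Fin b) (Fin a) (MonoidAlgebra ℤ Γ))
    (hAB : A * B = 0)
    (hex : ∀ v : Fin a → MonoidAlgebra ℤ Γ, ∑ j, aug Γ (v j) = 0 → ∃ w, v = Matrix.vecMul w B)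
    (z : Fin a) {x x' : D} (h : IsTorsion (A.map (ev u)) (B.map (ev u)) x)
    (h' : IsTorsion (A.map (ev u)) (B.map (ev u)) x') (η : Γ →* Multiplicative ℤ) :
    VV u η x = VV u η x' := by
  obtain ⟨F, G, σ, hF, hFG, hAG, hx, hr⟩ := h
  obtain ⟨F', G', σ', hF', hFG', hAG', hx', hr'⟩ := h'
  have hAB' : A.map (ev u) * B.map (ev u) = 0 := by
    rw [← Matrix.map_mul, hAB, Matrix.map_zero _ (map_zero _)]
  by_cases ht : ∃ k : Γ, k ≠ 1
  · obtain ⟨k, hk⟩ := ht
    obtain ⟨W, -, hW⟩ := exists_W u B hex z k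
    have h1 := (torsion_eq_W u hu hgen _ _ F G hAB' hAG hFG σ z x hx hr k hk W hW η).2
    have h2 := (torsion_eq_W u hu hgen _ _ F' G' hAB' hAG' hFG' σ' z x' hx' hr' k hk W hW η).2
    linarith
  · push Not at ht
    rw [VV_triv u hu hgen η (fun k => by rw [ht k, dg_one]) x hx,
      VV_triv u hu hgen η (fun k => by rw [ht k, dg_one]) x' hx']

/-- The main theorem over a division ring with Linnell's property. -/
theorem core [Group.FG Γ] (hu : Linnell u) (hgen : ∀ x : D, x ∈ Dc u ⊤)
    (hZ : ¬ Nonempty (Γ ≃* Multiplicative ℤ)) {a b c : ℕ}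
    (A : Matrix (Fin c) (Fin b) (MonoidAlgebra ℤ Γ)) (B : Matrix (Fin b) (Fin a) (MonoidAlgebra ℤ Γ))
    (hAB : A * B = 0)
    (hex : ∀ v : Fin a → MonoidAlgebra ℤ Γ, ∑ j, aug Γ (v j) = 0 → ∃ w, v = Matrix.vecMul w B)
    (z : Fin a) :
    ∃ R : Finset Γ, R.Nonempty ∧ ∀ (x f g : D) (S T : Finset Γ),
      IsTorsion (A.map (ev u)) (B.map (ev u)) x → g ≠ 0 → (g * x = f ∨ x * g = f) →
      IsSupp u f S → IsSupp u g T →
      convexHull ℝ (pt '' (T : Set Γ)) =
        convexHull ℝ (pt '' (S : Set Γ)) + convexHull ℝ (pt '' (R : Set Γ)) := by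
  have hAB' : A.map (ev u) * B.map (ev u) = 0 := by
    rw [← Matrix.map_mul, hAB, Matrix.map_zero _ (map_zero _)]
  by_cases hx0 : ∃ x : D, IsTorsion (A.map (ev u)) (B.map (ev u)) x
  · obtain ⟨x0, h0⟩ := hx0
    obtain ⟨F, G, σ, hF, hFG, hAG, hx, hr⟩ := id h0
    obtain ⟨R, hR, hR2⟩ := exists_R u hu hgen x0 hx
      (torsion_local u hu hgen hZ A B hex F G hAB' hAG hFG σ z x0 hx hr)
    refine ⟨R, hR, ?_⟩
    intro x f g S T htor hg0 hfg hS hT
    have hind : ∀ η : Γ →* Multiplicative ℤ, VV u η x = VV u η x0 := fun η =>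
      torsion_indep u hu hgen A B hAB hex z htor h0 η
    have hx' : x ≠ 0 := by
      obtain ⟨_, _, _, _, _, _, hx', _⟩ := htor
      exact hx'
    exact conv_of_values u hu hgen x hx' R (fun η => by rw [hind η]; exact hR2 η) f g hg0 hfg S T
      hS hT
  · refine ⟨{1}, Finset.singleton_nonempty 1, ?_⟩
    intro x f g S T htor
    exact absurd ⟨x, htor⟩ hx0

end

end Pool.Agent.Y352.SP
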