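import Pool.Agent.Y352.SP.Main4
import Pool.Agent.Helper831.VN.Fin
import Pool.Agent.Helper277.Sig
import Pool.Agent.Helper655.VNLight

/-!
# The division closure of the group ring in the algebra of affiliated operators, and
`L²`-acyclicity
-/

attribute [local instance] VN831.bcFunctor_additive VN831.viaAdd VN831.viaMod
  Pool.Agent.Helper655.VN.kerM_hop V7N.bcF_additive V7N.rmAdd V7N.rmMod L2B.l2Add L2B.l2Mod
  L2B.instRingN L2B.instAddBC L2B.instModBC L2B.bcF_additive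

set_option autoImplicit false

open scoped ENNReal

namespace Pool.Agent.Y352.SP

open Pool.Agent.RK TN970 V6 Pool.Agent.Helper655.VN

/-- A resolution `0 → ℤ[Γ]^c → ℤ[Γ]^b → ℤ[Γ]^a → ℤ → 0` with the augmentation as the last map
(row vectors, the matrices act from the right). -/
structure IsRes {Γ : Type} [Group Γ] {a b c : ℕ}
    (A : Matrix (Fin c) (Fin b) (MonoidAlgebra ℤ Γ))
    (B : Matrix (Fin b) (Fin a) (MonoidAlgebra ℤ Γ)) : Prop where
  pos : 0 < a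
  exact0 : ∀ v : Fin a → MonoidAlgebra ℤ Γ,
    ∑ i, aug Γ (v i) = 0 ↔ ∃ w, v = Matrix.vecMul w B
  exact1 : ∀ v : Fin b → MonoidAlgebra ℤ Γ, Matrix.vecMul v B = 0 ↔ ∃ w, v = Matrix.vecMul w A
  inj : ∀ w : Fin c → MonoidAlgebra ℤ Γ, Matrix.vecMul w A = 0 → w = 0

theorem loc_comp {R R' U : Type} [Ring R] [Ring R'] [Ring U] (σ : R ≃+* R') {ι : R' →+* U}
    (h : Loc ι) : Loc (ι.comp (σ : R →+* R')) where
  inj := h.inj.comp σ.injective
  unit := fun s hs => h.unit _ (L2B.nz_map σ s hs)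
  left := fun y => by
    obtain ⟨s, x, hs, hx⟩ := h.left y
    refine ⟨σ.symm s, σ.symm x, L2B.nz_map σ.symm s hs, ?_⟩
    show ι (σ (σ.symm s)) * y = ι (σ (σ.symm x))
    rw [σ.apply_symm_apply, σ.apply_symm_apply, hx]
  right := fun y => by
    obtain ⟨s, x, hs, hx⟩ := h.right y
    refine ⟨σ.symm s, σ.symm x, L2B.nz_map σ.symm s hs, ?_⟩
    show y * ι (σ (σ.symm s)) = ι (σ (σ.symm x))
    rw [σ.apply_symm_apply, σ.apply_symm_apply, hx]

section
variable {Γ : Type} [Group Γ]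

/-- The ranks of the resolution. -/
def rr (a b c : ℕ) : ℕ → ℕ
  | 0 => a
  | 1 => b
  | 2 => c
  | _ + 3 => 0

/-- The differentials of the resolution. -/
noncomputable def dd {a b c : ℕ} (A : Matrix (Fin c) (Fin b) (MonoidAlgebra ℤ Γ))
    (B : Matrix (Fin b) (Fin a) (MonoidAlgebra ℤ Γ)) :
    (n : ℕ) → Matrix (Fin (rr a b c (n + 1))) (Fin (rr a b c n)) (MonoidAlgebra ℤ Γ)
  | 0 => B
  | 1 => A
  | _ + 2 => 0

theorem augS (g : Γ) : aug Γ (MonoidAlgebra.single g 1) = 1 := aug_of g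

/-- The resolution as a `FreeRes`. -/
noncomputable def toRes {a b c : ℕ} (A : Matrix (Fin c) (Fin b) (MonoidAlgebra ℤ Γ))
    (B : Matrix (Fin b) (Fin a) (MonoidAlgebra ℤ Γ)) (h : IsRes A B) : V7N.FreeRes Γ where
  r := rr a b c
  d := dd A B
  ε :=
    { toFun := fun v => ∑ i, aug Γ (v i)
      map_zero' := by simp
      map_add' := fun v w => by
        simp only [Pi.add_apply, map_add]
        exact Finset.sum_add_distrib }
  ε_smul := fun g v => by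
    show ∑ i, aug Γ (MonoidAlgebra.single g 1 * v i) = ∑ i, aug Γ (v i)
    refine Finset.sum_congr rfl fun i _ => ?_
    rw [map_mul, augS, one_mul]
  ε_surj := fun n => by
    refine ⟨Pi.single (⟨0, h.pos⟩ : Fin a) (n : MonoidAlgebra ℤ Γ), ?_⟩
    show ∑ i, aug Γ ((Pi.single (⟨0, h.pos⟩ : Fin a) (n : MonoidAlgebra ℤ Γ) :
      Fin a → MonoidAlgebra ℤ Γ) i) = n
    rw [Finset.sum_eq_single (⟨0, h.pos⟩ : Fin a)]
    · rw [Pi.single_eq_same, map_intCast]
      rfl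
    · intro j _ hj
      rw [Pi.single_eq_of_ne hj, map_zero]
    · simp
  exact_zero := fun v => h.exact0 v
  exact_succ := fun n v => by
    match n with
    | 0 => exact h.exact1 v
    | 1 =>
      constructor
      · intro hv
        refine ⟨0, ?_⟩
        rw [Matrix.zero_vecMul]
        exact h.inj v hv
      · rintro ⟨w, hw⟩
        rw [hw]
        show Matrix.vecMul (Matrix.vecMul w (0 : Matrix _ _ (MonoidAlgebra ℤ Γ))) _ = 0
        rw [Matrix.vecMul_zero, Matrix.zero_vecMul]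
    | n + 2 =>
      have : IsEmpty (Fin (rr a b c (n + 3))) := Fin.isEmpty
      exact ⟨fun _ => ⟨0, funext fun i => this.elim i⟩, fun _ => by
        show Matrix.vecMul v (0 : Matrix _ _ (MonoidAlgebra ℤ Γ)) = 0
        rw [Matrix.vecMul_zero]⟩

theorem mul_zero_of_res {a b c : ℕ} {A : Matrix (Fin c) (Fin b) (MonoidAlgebra ℤ Γ)}
    {B : Matrix (Fin b) (Fin a) (MonoidAlgebra ℤ Γ)} (h : IsRes A B) : A * B = 0 := by
  refine Matrix.ext fun i j => ?_
  have h1 := (h.exact1 (Matrix.vecMul (Pi.single i 1) A)).2 ⟨_, rfl⟩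
  rw [Matrix.vecMul_vecMul] at h1
  have h2 := congrFun h1 j
  rw [Matrix.single_one_vecMul] at h2
  exact h2

variable {U D : Type} [Ring U] [DivisionRing D] {ι : L2B.N Γ →+* U} {κ : D →+* U} {u : Γ →* Dˣ}

/-- Linnell's property. -/
theorem linnell_main (hι : Loc ι) (hu : ∀ g, κ ((u g : Dˣ) : D) = ι (L2B.lam g)) :
    Linnell u := by
  have hι' := loc_comp (Pool.Agent.Helper277.Sig.sig Γ) hι
  have hu' : ∀ g, κ ((u g : Dˣ) : D) =
      (ι.comp ((Pool.Agent.Helper277.Sig.sig Γ : NG Γ ≃+* L2B.N Γ) : NG Γ →+* L2B.N Γ))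
        (canL g) := by
    intro g
    rw [hu, ← Pool.Agent.Helper277.Sig.sig_canL]
    rfl
  refine Pool.Agent.RK.Linn.linnell_of hι' κ u canL hu' fun N hN => ?_
  have S := VN831.setup_sub N hι' hu'
  exact ⟨NG N, inferInstance, inferInstance, tau N, Pool.Agent.Helper277.VN5.jN N, S.vn, S.jinj,
    S.jnz, S.hN, fun s x hs hx => S.indep s hs x hx⟩

theorem SN_top (hgen : ∀ x : D, x ∈ Dc u ⊤) (x : D) : x ∈ SN u (⊤ : Subgroup Γ) := by
  have h1 : (1 : D) ∈ SN u (⊤ : Subgroup Γ) := Submodule.subset_span ⟨1, by simp⟩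
  have h2 := Submodule.smul_mem _ (⟨x, hgen x⟩ : Dc u (⊤ : Subgroup Γ)) h1
  have h3 : (⟨x, hgen x⟩ : Dc u (⊤ : Subgroup Γ)) • (1 : D) = x * 1 := rfl
  rw [h3, mul_one] at h2
  exact h2

/-- `L²`-acyclicity gives exactness over the division ring, for a resolution. -/
theorem exact_res (hι : Loc ι) (hu : ∀ g, κ ((u g : Dˣ) : D) = ι (L2B.lam g))
    (h0 : ∀ n, L2B.l2Betti Γ n = 0) (C : V7N.FreeRes Γ) :
    (∀ v ∈ ZN u ⊤ (((0 : Matrix (Fin (C.r 0)) (Fin 0) (MonoidAlgebra ℤ Γ))).map (ev u)),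
      v ∈ BN u ⊤ ((C.d 0).map (ev u))) ∧
    ∀ n, ∀ v ∈ ZN u ⊤ ((C.d n).map (ev u)), v ∈ BN u ⊤ ((C.d (n + 1)).map (ev u)) := by
  have hι' := loc_comp (Pool.Agent.Helper277.Sig.sig Γ) hι
  have hu' : ∀ g, κ ((u g : Dˣ) : D) =
      (ι.comp ((Pool.Agent.Helper277.Sig.sig Γ : NG Γ ≃+* L2B.N Γ) : NG Γ →+* L2B.N Γ))
        (canL g) := by
    intro g
    rw [hu, ← Pool.Agent.Helper277.Sig.sig_canL]
    rfl
  have hev : ∀ a : MonoidAlgebra ℤ Γ, κ (ev u a) =
      (ι.comp ((Pool.Agent.Helper277.Sig.sig Γ : NG Γ ≃+* L2B.N Γ) : NG Γ →+* L2B.N Γ))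
        (V7N.evM canL a) := by
    intro a
    induction a using MonoidAlgebra.induction_on with
    | of g =>
      have e1 : V7N.evM canL (MonoidAlgebra.of ℤ Γ g) = (canL g : NG Γ) := VN831.zN_of g
      rw [ev_of, e1]
      exact hu' g
    | add x y hx hy => rw [map_add, map_add, map_add, map_add, hx, hy]
    | smul r x hx =>
      rw [zsmul_eq_mul, map_mul, map_mul, map_mul, map_mul, hx, map_intCast, map_intCast,
        map_intCast, map_intCast]
  obtain ⟨st, S⟩ := L2B.setup_transport (Pool.Agent.Helper277.Sig.sig Γ)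
    (VN831.setup_top hι' hu')
  have hr : (MonoidHom.id Γ).range = ⊤ := by
    rw [MonoidHom.range_eq_top]
    exact Function.surjective_id
  have htr : (L2B.tr : L2B.N Γ → ℝ) = ((tau Γ).comp
      ((Pool.Agent.Helper277.Sig.sig Γ).symm : L2B.N Γ →+ NG Γ) : L2B.N Γ → ℝ) := by
    funext T
    have h1 := Pool.Agent.Helper277.Sig.sig_tr ((Pool.Agent.Helper277.Sig.sig Γ).symm T)
    rw [(Pool.Agent.Helper277.Sig.sig Γ).apply_symm_apply] at h1
    exact h1
  have hj : ∀ k : Γ, ((RingHom.id (NG Γ)).comp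
      ((Pool.Agent.Helper277.Sig.sig Γ).symm : L2B.N Γ →+* NG Γ)) (L2B.lam k) =
        canL ((MonoidHom.id Γ) k) := by
    intro k
    show (Pool.Agent.Helper277.Sig.sig Γ).symm (L2B.lam k) = canL k
    rw [Pool.Agent.Helper277.Sig.sig_symm_lam]
  have hind : VN831.CosetIndep ((RingHom.id (NG Γ)).comp
      ((Pool.Agent.Helper277.Sig.sig Γ).symm : L2B.N Γ →+* NG Γ)) (canL : Γ →* NG Γ)
        (MonoidHom.id Γ).range := by
    rw [hr]
    exact S.indep
  refine ⟨?_, fun n => ?_⟩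
  · obtain ⟨f⟩ := V7N.v7_zero C (MonoidHom.id Γ) Function.injective_id
      (L2B.lam : Γ →* L2B.N Γ) (canL : Γ →* NG Γ) _ hj hind
    refine L2B.hex_of_luckDim S (V7N.evM canL) hev (C.d 0) (0 : Matrix _ (Fin 0) _) ?_
    rw [← htr, ← L2B.luckDim_congr _ f]
    exact h0 0
  · obtain ⟨f⟩ := V7N.v7_succ C n (MonoidHom.id Γ) Function.injective_id
      (L2B.lam : Γ →* L2B.N Γ) (canL : Γ →* NG Γ) _ hj hind
    refine L2B.hex_of_luckDim S (V7N.evM canL) hev (C.d (n + 1)) (C.d n) ?_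
    rw [← htr, ← L2B.luckDim_congr _ f]
    exact h0 (n + 1)

/-- `L²`-acyclicity gives exactness over the division ring. -/
theorem exact_D (hι : Loc ι) (hu : ∀ g, κ ((u g : Dˣ) : D) = ι (L2B.lam g))
    (hgen : ∀ x : D, x ∈ Dc u ⊤) (h0 : ∀ n, L2B.l2Betti Γ n = 0) {a b c : ℕ}
    {A : Matrix (Fin c) (Fin b) (MonoidAlgebra ℤ Γ)}
    {B : Matrix (Fin b) (Fin a) (MonoidAlgebra ℤ Γ)} (h : IsRes A B) :
    (∀ v : Fin a → D, ∃ w, v = Matrix.vecMul w (B.map (ev u))) ∧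
    (∀ v : Fin b → D, Matrix.vecMul v (B.map (ev u)) = 0 →
      ∃ w, v = Matrix.vecMul w (A.map (ev u))) ∧
    (∀ w : Fin c → D, Matrix.vecMul w (A.map (ev u)) = 0 → w = 0) := by
  obtain ⟨j0, jn⟩ := exact_res hι hu h0 (toRes A B h)
  have k0 : ∀ v ∈ ZN u ⊤ (((0 : Matrix (Fin a) (Fin 0) (MonoidAlgebra ℤ Γ))).map (ev u)),
      v ∈ BN u ⊤ (B.map (ev u)) := j0
  have k1 : ∀ v ∈ ZN u ⊤ (B.map (ev u)), v ∈ BN u ⊤ (A.map (ev u)) := jn 0
  have k2 : ∀ v ∈ ZN u ⊤ (A.map (ev u)),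
      v ∈ BN u ⊤ ((0 : Matrix (Fin 0) (Fin c) (MonoidAlgebra ℤ Γ)).map (ev u)) := jn 1
  refine ⟨?_, ?_, ?_⟩
  · intro v
    obtain ⟨w, _, hw⟩ := k0 v ⟨fun i => SN_top hgen _, funext fun i => i.elim0⟩
    exact ⟨w, hw⟩
  · intro v hv
    obtain ⟨w, _, hw⟩ := k1 v ⟨fun i => SN_top hgen _, hv⟩
    exact ⟨w, hw⟩
  · intro v hv
    obtain ⟨w, _, hw⟩ := k2 v ⟨fun i => SN_top hgen _, hv⟩
    rw [hw]
    funext i
    simp [Matrix.vecMul, dotProduct]

end

end Pool.Agent.Y352.SP
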