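import Pool.Agent.Y352.SP.Main5

/-!
# Existence of the division closure and the final form of the theorem
-/

attribute [local instance] VN831.bcFunctor_additive VN831.viaAdd VN831.viaMod
  Pool.Agent.Helper655.VN.kerM_hop V7N.bcF_additive V7N.rmAdd V7N.rmMod L2B.l2Add L2B.l2Mod
  L2B.instRingN L2B.instAddBC L2B.instModBC L2B.bcF_additive

set_option autoImplicit false

open scoped ENNReal Pointwise

namespace Pool.Agent.Y352.SP

open Pool.Agent.RK TN970 V6 Pool.Agent.Helper655.VN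

/-- Restriction to the division subring generated by the group. -/
theorem restrict_gen {Γ : Type} [Group Γ] {U D : Type} [Ring U] [DivisionRing D] (κ : D →+* U)
    (u : Γ →* Dˣ) : ∃ (D' : Type) (_ : DivisionRing D') (κ' : D' →+* U) (u' : Γ →* D'ˣ),
      (∀ g, κ' ((u' g : D'ˣ) : D') = κ ((u g : Dˣ) : D)) ∧ ∀ x : D', x ∈ Dc u' ⊤ := by
  have hmem : ∀ g, ((u g : Dˣ) : D) ∈ Dc u (⊤ : Subgroup Γ) := fun g =>
    Subfield.subset_closure ⟨g, Subgroup.mem_top g, rfl⟩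
  let f : Γ →* (Dc u (⊤ : Subgroup Γ)) :=
    { toFun := fun g => ⟨((u g : Dˣ) : D), hmem g⟩
      map_one' := Subtype.ext (by simp)
      map_mul' := fun g h => Subtype.ext (by simp) }
  refine ⟨Dc u (⊤ : Subgroup Γ), inferInstance, κ.comp (Dc u (⊤ : Subgroup Γ)).subtype,
    f.toHomUnits, fun g => rfl, ?_⟩
  rintro ⟨x, hx⟩
  have hx' : x ∈ Subfield.closure {x : D | ∃ g ∈ (⊤ : Subgroup Γ), x = ((u g : Dˣ) : D)} := hx
  refine Subfield.closure_induction (p := fun x (hx : x ∈ Subfield.closure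
    {x : D | ∃ g ∈ (⊤ : Subgroup Γ), x = ((u g : Dˣ) : D)}) =>
      (⟨x, hx⟩ : Dc u (⊤ : Subgroup Γ)) ∈ Dc f.toHomUnits ⊤) ?_ ?_ ?_ ?_ ?_ ?_ hx'
  · rintro x ⟨g, hg, rfl⟩
    exact Subfield.subset_closure ⟨g, Subgroup.mem_top g, rfl⟩
  · exact one_mem _
  · intro x y hx hy h1 h2
    exact add_mem h1 h2
  · intro x hx h1
    exact neg_mem h1
  · intro x hx h1
    exact inv_mem h1
  · intro x y hx hy h1 h2
    exact mul_mem h1 h2

/-- The division closure of `ℤ[Γ]` is a division ring under the Atiyah Conjecture. -/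
theorem exists_closure {Γ : Type} [Group Γ] (hA : L2B.Atiyah Γ) :
    ∃ (U : Type) (_ : Ring U) (ι : L2B.N Γ →+* U) (D : Type) (_ : DivisionRing D)
      (κ : D →+* U) (u : Γ →* Dˣ), Loc ι ∧ (∀ g, κ ((u g : Dˣ) : D) = ι (L2B.lam g)) ∧
        ∀ x : D, x ∈ Dc u ⊤ := by
  obtain ⟨U, hU, ι, D, hD, κ, u, hι, hu, -, -⟩ :=
    VN831.exists_D (Pool.Agent.Helper655.VNLight.atiyah_light hA)
  obtain ⟨D', hD', κ', u', h1, h2⟩ := restrict_gen κ u
  refine ⟨U, hU, ι.comp ((Pool.Agent.Helper277.Sig.sig Γ).symm : L2B.N Γ →+* NG Γ), D', hD', κ',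
    u', loc_comp _ hι, ?_, h2⟩
  intro g
  rw [h1, hu]
  show ι (canL g) = ι ((Pool.Agent.Helper277.Sig.sig Γ).symm (L2B.lam g))
  rw [Pool.Agent.Helper277.Sig.sig_symm_lam]

section
variable {Γ : Type} [Group Γ] {U D : Type} [Ring U] [DivisionRing D] {ι : L2B.N Γ →+* U}
  {κ : D →+* U} {u : Γ →* Dˣ}

/-- The polytope invariant exists. -/
theorem exists_inv (hι : Loc ι) (hu : ∀ g, κ ((u g : Dˣ) : D) = ι (L2B.lam g))
    (hgen : ∀ x : D, x ∈ Dc u ⊤) (h0 : ∀ n, L2B.l2Betti Γ n = 0) {a b c : ℕ}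
    {A : Matrix (Fin c) (Fin b) (MonoidAlgebra ℤ Γ)}
    {B : Matrix (Fin b) (Fin a) (MonoidAlgebra ℤ Γ)} (h : IsRes A B) :
    ∃ (x f g : D) (S T : Finset Γ), IsTorsion (A.map (ev u)) (B.map (ev u)) x ∧ g ≠ 0 ∧
      g * x = f ∧ IsSupp u f S ∧ IsSupp u g T := by
  obtain ⟨e0, e1, e2⟩ := exact_D hι hu hgen h0 h
  have hAB' : A.map (ev u) * B.map (ev u) = 0 := by
    rw [← Matrix.map_mul, mul_zero_of_res h, Matrix.map_zero _ (map_zero _)]
  obtain ⟨x, hx⟩ := exists_torsion (A.map (ev u)) (B.map (ev u)) hAB' e0 e1 e2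
  obtain ⟨f, g, S, T, hg, hS, hT, hfg⟩ := exists_frac u (linnell_main hι hu) hgen x
  exact ⟨x, f, g, S, T, hx, hg, hfg, hS, hT⟩

/-- The polytope invariant is a single polytope. -/
theorem single [Group.FG Γ] (hZ : ¬ Nonempty (Γ ≃* Multiplicative ℤ)) (hι : Loc ι)
    (hu : ∀ g, κ ((u g : Dˣ) : D) = ι (L2B.lam g))
    (hgen : ∀ x : D, x ∈ Dc u ⊤) {a b c : ℕ}
    {A : Matrix (Fin c) (Fin b) (MonoidAlgebra ℤ Γ)}
    {B : Matrix (Fin b) (Fin a) (MonoidAlgebra ℤ Γ)} (h : IsRes A B) :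
    ∃ R : Finset Γ, R.Nonempty ∧ ∀ (x f g : D) (S T : Finset Γ),
      IsTorsion (A.map (ev u)) (B.map (ev u)) x → g ≠ 0 → (g * x = f ∨ x * g = f) →
      IsSupp u f S → IsSupp u g T →
      convexHull ℝ (pt '' (T : Set Γ)) =
        convexHull ℝ (pt '' (S : Set Γ)) + convexHull ℝ (pt '' (R : Set Γ)) :=
  core u (linnell_main hι hu) hgen hZ A B (mul_zero_of_res h)
    (fun v hv => (h.exact0 v).1 hv) ⟨0, h.pos⟩

end

end Pool.Agent.Y352.SP
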