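import Pool.Agent.Y352.SP.Det3
import Pool.Agent.Helper970.TN.P_frac_Dc

/-!
# Spans of group elements over the division rings of normal subgroups
-/

set_option autoImplicit false

namespace Pool.Agent.Y352.SP

open Finset TN970
open scoped Classical

section
variable {Γ : Type} [Group Γ] {D : Type} [DivisionRing D] (u : Γ →* Dˣ)

/-- The left span over `Dc u L` of the elements of `P`. -/
def SpP (L : Subgroup Γ) (P : Γ → Prop) : Submodule (Dc u L) D :=
  Submodule.span (Dc u L) {x : D | ∃ g, P g ∧ x = ((u g : Dˣ) : D)}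

theorem u_mem (L : Subgroup Γ) {P : Γ → Prop} {g : Γ} (hg : P g) :
    ((u g : Dˣ) : D) ∈ SpP u L P := Submodule.subset_span ⟨g, hg, rfl⟩

theorem u_Dc (L : Subgroup Γ) {g : Γ} (hg : g ∈ L) : ((u g : Dˣ) : D) ∈ Dc u L :=
  Subfield.subset_closure ⟨g, hg, rfl⟩

theorem u_mul (g h : Γ) : ((u (g * h) : Dˣ) : D) = ((u g : Dˣ) : D) * ((u h : Dˣ) : D) := by
  rw [map_mul, Units.val_mul]

theorem u_inv (g : Γ) : ((u g⁻¹ : Dˣ) : D) = ((u g : Dˣ) : D)⁻¹ := by
  rw [map_inv, Units.val_inv_eq_inv_val]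

theorem u_one : ((u 1 : Dˣ) : D) = 1 := by rw [map_one, Units.val_one]

theorem u_ne (g : Γ) : ((u g : Dˣ) : D) ≠ 0 := (u g).ne_zero

theorem dc_smul (L : Subgroup Γ) {M : Submodule (Dc u L) D} {c x : D} (hc : c ∈ Dc u L)
    (hx : x ∈ M) : c * x ∈ M := M.smul_mem (⟨c, hc⟩ : Dc u L) hx

theorem sp_mono (L : Subgroup Γ) {P Q : Γ → Prop} (h : ∀ g, P g → Q g) :
    SpP u L P ≤ SpP u L Q := by
  apply Submodule.span_mono
  rintro x ⟨g, hg, rfl⟩
  exact ⟨g, h g hg, rfl⟩

/-- Moving a scalar through a group element. -/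
theorem conj_move (L : Subgroup Γ) (hL : L.Normal) (g : Γ) {c : D} (hc : c ∈ Dc u L) :
    ∃ c' ∈ Dc u L, ((u g : Dˣ) : D) * c = c' * ((u g : Dˣ) : D) ∧ (c ≠ 0 → c' ≠ 0) := by
  refine ⟨((u g : Dˣ) : D) * c * ((u g⁻¹ : Dˣ) : D), conj_Dc u L hL g c hc, ?_, ?_⟩
  · rw [u_inv, mul_assoc _ _⁻¹, inv_mul_cancel₀ (u_ne u g), mul_one]
  · intro h
    exact mul_ne_zero (mul_ne_zero (u_ne u g) h) (u_ne u _)

theorem sp_mul (L : Subgroup Γ) (hL : L.Normal) {P Q R : Γ → Prop}
    (h : ∀ g k, P g → Q k → R (g * k)) {x y : D} (hx : x ∈ SpP u L P) (hy : y ∈ SpP u L Q) :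
    x * y ∈ SpP u L R := by
  have key : ∀ g, P g → ∀ y ∈ SpP u L Q, ((u g : Dˣ) : D) * y ∈ SpP u L R := by
    intro g hg y hy
    unfold SpP at hy
    induction hy using Submodule.span_induction with
    | mem y hy =>
      obtain ⟨k, hk, rfl⟩ := hy
      rw [← u_mul]
      exact u_mem u L (h g k hg hk)
    | zero => rw [mul_zero]; exact Submodule.zero_mem _
    | add y z _ _ h1 h2 => rw [mul_add]; exact Submodule.add_mem _ h1 h2
    | smul d y _ h1 =>
      obtain ⟨c', hc', he, -⟩ := conj_move u L hL g d.2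
      have : ((u g : Dˣ) : D) * (d • y) = c' * (((u g : Dˣ) : D) * y) := by
        show ((u g : Dˣ) : D) * ((d : D) * y) = _
        rw [← mul_assoc, he, mul_assoc]
      rw [this]
      exact dc_smul u L hc' h1
  unfold SpP at hx
  induction hx using Submodule.span_induction with
  | mem x hx =>
    obtain ⟨g, hg, rfl⟩ := hx
    exact key g hg y hy
  | zero => rw [zero_mul]; exact Submodule.zero_mem _
  | add x z _ _ h1 h2 => rw [add_mul]; exact Submodule.add_mem _ h1 h2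
  | smul d x _ h1 =>
    have : (d • x) * y = (d : D) * (x * y) := by
      show ((d : D) * x) * y = _
      rw [mul_assoc]
    rw [this]
    exact dc_smul u L d.2 h1

/-- Canonical representation: distinct cosets, nonzero coefficients. -/
theorem sp_rep (L : Subgroup Γ) (hL : L.Normal) {P : Γ → Prop}
    (hP : ∀ g h, P g → h * g⁻¹ ∈ L → P h) {x : D} (hx : x ∈ SpP u L P) :
    ∃ (T : Finset Γ) (c : Γ → D), (∀ g ∈ T, P g ∧ c g ∈ Dc u L ∧ c g ≠ 0) ∧
      (∀ g ∈ T, ∀ h ∈ T, g ≠ h → g * h⁻¹ ∉ L) ∧ x = ∑ g ∈ T, c g * ((u g : Dˣ) : D) := by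
  let out : Γ ⧸ L → Γ := fun q => Quotient.out q
  have hout : ∀ q, ((out q : Γ) : Γ ⧸ L) = q := fun q => QuotientGroup.out_eq' q
  have hrep : ∀ g : Γ, g * (out (g : Γ ⧸ L))⁻¹ ∈ L ∧ (out (g : Γ ⧸ L)) * g⁻¹ ∈ L := by
    intro g
    have h1 : (g : Γ ⧸ L) = (out (g : Γ ⧸ L) : Γ ⧸ L) := (hout _).symm
    have h2 := QuotientGroup.eq.1 h1
    have h3 := hL.conj_mem _ h2 g
    have h4 : g * (g⁻¹ * out (g : Γ ⧸ L)) * g⁻¹ = out (g : Γ ⧸ L) * g⁻¹ := by group
    rw [h4] at h3
    refine ⟨?_, h3⟩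
    have h5 := L.inv_mem h3
    have h6 : (out (g : Γ ⧸ L) * g⁻¹)⁻¹ = g * (out (g : Γ ⧸ L))⁻¹ := by group
    rwa [h6] at h5
  have key : ∃ f : (Γ ⧸ L) →₀ D, (∀ q, f q ∈ Dc u L) ∧ (∀ q, f q ≠ 0 → P (out q)) ∧
      x = f.sum (fun q c => c * ((u (out q) : Dˣ) : D)) := by
    unfold SpP at hx
    induction hx using Submodule.span_induction with
    | mem x hx =>
      obtain ⟨g, hg, rfl⟩ := hx
      refine ⟨Finsupp.single (g : Γ ⧸ L) ((u (g * (out (g : Γ ⧸ L))⁻¹) : Dˣ) : D), ?_, ?_, ?_⟩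
      · intro q
        by_cases h : (g : Γ ⧸ L) = q
        · rw [← h, Finsupp.single_eq_same]
          exact u_Dc u L (hrep g).1
        · rw [Finsupp.single_eq_of_ne (Ne.symm h)]
          exact zero_mem _
      · intro q hq
        have h : (g : Γ ⧸ L) = q := by
          by_contra h
          exact hq (Finsupp.single_eq_of_ne (Ne.symm h))
        rw [← h]
        exact hP g _ hg (hrep g).2
      · rw [Finsupp.sum_single_index (by rw [zero_mul]), ← u_mul, inv_mul_cancel_right]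
    | zero => exact ⟨0, fun q => zero_mem _, fun q hq => absurd rfl hq, by simp⟩
    | add x y _ _ hx hy =>
      obtain ⟨f, h1, h2, h3⟩ := hx
      obtain ⟨f', h1', h2', h3'⟩ := hy
      refine ⟨f + f', fun q => add_mem (h1 q) (h1' q), ?_, ?_⟩
      · intro q hq
        by_cases h : f q = 0
        · apply h2'
          intro h'
          exact hq (by rw [Finsupp.add_apply, h, h', add_zero])
        · exact h2 q h
      · rw [Finsupp.sum_add_index' (by intro q; rw [zero_mul]) (by intro q b c; rw [add_mul]),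
          ← h3, ← h3']
    | smul d x _ hx =>
      obtain ⟨f, h1, h2, h3⟩ := hx
      refine ⟨f.mapRange (fun z => (d : D) * z) (mul_zero _), fun q => ?_, ?_, ?_⟩
      · rw [Finsupp.mapRange_apply]
        exact mul_mem d.2 (h1 q)
      · intro q hq
        apply h2
        intro h
        exact hq (by rw [Finsupp.mapRange_apply, h, mul_zero])
      · rw [Finsupp.sum_mapRange_index (by intro q; rw [zero_mul])]
        show (d : D) * x = _
        rw [h3, Finsupp.sum, Finset.mul_sum]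
        simp only [mul_assoc, Finsupp.sum]
  obtain ⟨f, h1, h2, h3⟩ := key
  have hinj : ∀ q q', out q = out q' → q = q' := fun q q' h => by
    rw [← hout q, ← hout q', h]
  refine ⟨f.support.image out, fun g => f (g : Γ ⧸ L), ?_, ?_, ?_⟩
  · intro g hg
    rw [Finset.mem_image] at hg
    obtain ⟨q, hq, rfl⟩ := hg
    simp only [hout]
    rw [Finsupp.mem_support_iff] at hq
    exact ⟨h2 q hq, h1 q, hq⟩
  · intro g hg h hh hne hmem
    rw [Finset.mem_image] at hg hh
    obtain ⟨q, _, rfl⟩ := hg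
    obtain ⟨q', _, rfl⟩ := hh
    apply hne
    congr 1
    rw [← hout q, ← hout q']
    rw [QuotientGroup.eq]
    have h5 := hL.conj_mem _ (L.inv_mem hmem) (out q)⁻¹
    have h6 : (out q)⁻¹ * (out q * (out q')⁻¹)⁻¹ * (out q)⁻¹⁻¹ = (out q)⁻¹ * out q' := by group
    rwa [h6] at h5
  · rw [Finset.sum_image (fun q _ q' _ h => hinj q q' h), h3, Finsupp.sum]
    refine Finset.sum_congr rfl fun q _ => ?_
    simp only [hout]

/-- Linnell's property for a finite sum over different cosets. -/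
theorem lin_zero (hu : Linnell u) (L : Subgroup Γ) (hL : L.Normal) (T : Finset Γ) (c : Γ → D)
    (hc : ∀ g ∈ T, c g ∈ Dc u L) (hT : ∀ g ∈ T, ∀ h ∈ T, g ≠ h → g * h⁻¹ ∉ L)
    (h0 : ∑ g ∈ T, c g * ((u g : Dˣ) : D) = 0) : ∀ g ∈ T, c g = 0 := by
  have h1 := Fintype.linearIndependent_iff.1 (hu L hL T hT)
    (fun g => ⟨c g.1, hc g.1 g.2⟩) (by
      rw [← Finset.sum_coe_sort] at h0
      exact h0)
  intro g hg
  exact congrArg Subtype.val (h1 ⟨g, hg⟩)

end

end Pool.Agent.Y352.SP
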